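import Mathlib

/-!
Definitions for MP_f8dec8_al: Helly graphs, geometric actions, the injective hull of a connected
graph, convex consistent reversible geodesic bicombings and the boundary of rays.
-/

namespace Pool.Agent.Work.MP_f8dec8_al

open Set NNReal

/-- A graph is Helly if every family of pairwise intersecting balls `B(v, r)` has a common vertex. -/
def IsHelly {V : Type} (Γ : SimpleGraph V) : Prop :=
  ∀ S : Set (V × ℕ),
    (∀ a ∈ S, ∀ b ∈ S, ∃ w, Γ.dist a.1 w ≤ a.2 ∧ Γ.dist b.1 w ≤ b.2) →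
      ∃ w, ∀ a ∈ S, Γ.dist a.1 w ≤ a.2

/-- `G` acts geometrically on `Γ`: by automorphisms, properly, with finitely many vertex orbits. -/
def IsGeometric (G : Type) [Group G] {V : Type} [MulAction G V] (Γ : SimpleGraph V) : Prop :=
  (∀ (g : G) (u v : V), Γ.Adj (g • u) (g • v) ↔ Γ.Adj u v) ∧
  (∀ (v : V) (R : ℕ), {g : G | Γ.dist v (g • v) ≤ R}.Finite) ∧
  Finite (MulAction.orbitRel.Quotient G V)

/-- The injective hull of the vertex set: extremal functions `f u = sup_v (d(u, v) - f v)`. -/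
def Hull {V : Type} (Γ : SimpleGraph V) : Type :=
  {f : V → ℝ // ∀ u, IsLUB (Set.range fun v => (Γ.dist u v : ℝ) - f v) (f u)}

theorem Hull.le {V : Type} {Γ : SimpleGraph V} (f : Hull Γ) (u v : V) :
    (Γ.dist u v : ℝ) - f.1 v ≤ f.1 u :=
  (f.2 u).1 ⟨v, rfl⟩

theorem Hull.lip {V : Type} {Γ : SimpleGraph V} (hc : Γ.Connected) (f : Hull Γ) (u v : V) :
    f.1 v ≤ f.1 u + Γ.dist u v := by
  refine (f.2 v).2 ?_
  rintro _ ⟨w, rfl⟩
  have h1 : Γ.dist v w ≤ Γ.dist v u + Γ.dist u w := hc.dist_triangle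
  have h2 : (Γ.dist v w : ℝ) ≤ Γ.dist v u + Γ.dist u w := by exact_mod_cast h1
  have h3 := f.le u w
  rw [Γ.dist_comm (u := v) (v := u)] at h2
  show (Γ.dist v w : ℝ) - f.1 w ≤ _
  linarith

theorem Hull.bdd {V : Type} {Γ : SimpleGraph V} (hc : Γ.Connected) (f g : Hull Γ) :
    BddAbove (Set.range fun v => |f.1 v - g.1 v|) := by
  obtain ⟨u⟩ := hc.nonempty
  refine ⟨f.1 u + g.1 u, ?_⟩
  rintro _ ⟨v, rfl⟩
  have h1 := f.lip hc u v
  have h2 := g.lip hc u v
  have h3 := f.le v u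
  have h4 := g.le v u
  rw [Γ.dist_comm (u := v) (v := u)] at h3 h4
  show |f.1 v - g.1 v| ≤ _
  rw [abs_le]
  constructor <;> linarith

/-- The supremum metric on the injective hull of a connected graph. -/
noncomputable instance Hull.metric {V : Type} (Γ : SimpleGraph V) [hc : Fact Γ.Connected] :
    MetricSpace (Hull Γ) where
  dist f g := ⨆ v, |f.1 v - g.1 v|
  dist_self f := by simp
  dist_comm f g := by simp only [abs_sub_comm]
  dist_triangle f g h := by
    have := hc.out.nonempty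
    refine ciSup_le fun v => ?_
    exact (abs_sub_le _ (g.1 v) _).trans
      (add_le_add (le_ciSup (f.bdd hc.out g) v) (le_ciSup (g.bdd hc.out h) v))
  eq_of_dist_eq_zero {f g} h := by
    apply Subtype.ext
    funext v
    have h1 : |f.1 v - g.1 v| ≤ 0 := h ▸ le_ciSup (f.bdd hc.out g) v
    exact sub_eq_zero.1 (abs_nonpos_iff.1 h1)

/-- A convex, consistent, reversible geodesic bicombing (only the values on `[0,1]` matter). -/
structure IsBicombing {Y : Type} [MetricSpace Y] (σ : Y → Y → ℝ → Y) : Prop where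
  zero : ∀ x y, σ x y 0 = x
  one : ∀ x y, σ x y 1 = y
  geodesic : ∀ x y, ∀ s ∈ Icc (0 : ℝ) 1, ∀ t ∈ Icc (0 : ℝ) 1,
    dist (σ x y s) (σ x y t) = |s - t| * dist x y
  convex : ∀ x y x' y', ConvexOn ℝ (Icc (0 : ℝ) 1) fun t => dist (σ x y t) (σ x' y' t)
  consistent : ∀ x y, ∀ s ∈ Icc (0 : ℝ) 1, ∀ t ∈ Icc (0 : ℝ) 1, s ≤ t → ∀ u ∈ Icc (0 : ℝ) 1,
    σ (σ x y s) (σ x y t) u = σ x y ((1 - u) * s + u * t)
  reversible : ∀ x y, ∀ t ∈ Icc (0 : ℝ) 1, σ x y t = σ y x (1 - t)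

/-- The boundary: unit speed `σ`-rays issuing from `o`. -/
def Boundary {Y : Type} [MetricSpace Y] (σ : Y → Y → ℝ → Y) (o : Y) : Type :=
  {ρ : C(ℝ≥0, Y) // ρ 0 = o ∧ Isometry ρ ∧ ∀ s t r : ℝ≥0, s ≤ t → ∀ u ∈ Icc (0 : ℝ) 1,
    (r : ℝ) = (1 - u) * s + u * t → ρ r = σ (ρ s) (ρ t) u}

/-- The cone topology: uniform convergence of rays on compact sets. -/
instance Boundary.top {Y : Type} [MetricSpace Y] (σ : Y → Y → ℝ → Y) (o : Y) :
    TopologicalSpace (Boundary σ o) :=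
  TopologicalSpace.induced Subtype.val ContinuousMap.compactOpen

end Pool.Agent.Work.MP_f8dec8_al
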