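import Mathlib
import Pool.Agent.Work.MP_f8dec8_al.Defs

-- merged part: Pool.Agent.Work.MP_f8dec8_al.Metric
section
-- merged part: Pool.Agent.Work.MP_f8dec8_al.Tree
section
/-! The tree of planes and the group. -/

namespace Pool.Agent.Work.MP_f8dec8_al

abbrev L := Bool × ℤ

def P : Type := {w : List L // w.IsChain (· ≠ ·)}

def step (l : L) (W : P) : P :=
  if h : W.1.head? = some l then ⟨W.1.tail, W.2.tail⟩
  else ⟨l :: W.1, W.2.cons fun y hy e => h (by subst e; exact hy)⟩

theorem step_val_of_ne {l : L} {W : P} (h : W.1.head? ≠ some l) : (step l W).1 = l :: W.1 := by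
  simp [step, h]

theorem step_val_of_eq {l : L} {W : P} (h : W.1.head? = some l) : W.1 = l :: (step l W).1 := by
  obtain ⟨w, hw⟩ := W
  cases w with
  | nil => simp at h
  | cons a t =>
    simp only [List.head?_cons, Option.some.injEq] at h
    subst h
    simp [step]

theorem head_step {l : L} {W : P} : (step l W).1.head? = some l ↔ W.1.head? ≠ some l := by
  by_cases h : W.1.head? = some l
  · have h1 := step_val_of_eq h
    have h2 := W.2
    rw [h1, List.isChain_cons] at h2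
    simp only [h, ne_eq, not_true_eq_false, iff_false]
    intro h3
    exact h2.1 l h3 rfl
  · simp [step_val_of_ne h, h]

theorem step_step (l : L) (W : P) : step l (step l W) = W := by
  apply Subtype.ext
  by_cases h : W.1.head? = some l
  · rw [step_val_of_ne (fun h' => head_step.1 h' h), ← step_val_of_eq h]
  · have := step_val_of_eq (head_step.2 h)
    rw [step_val_of_ne h] at this
    exact (List.cons.inj this).2.symm

def act (W : P) (u : List L) : P := u.foldr step W

theorem act_step (W : P) (l : L) (U : P) : act W (step l U).1 = step l (act W U.1) := by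
  by_cases h : U.1.head? = some l
  · conv_rhs => rw [step_val_of_eq h]
    simp only [act, List.foldr_cons, step_step]
  · rw [step_val_of_ne h]
    rfl

instance : One P := ⟨⟨[], List.IsChain.nil⟩⟩

theorem ind1 {motive : P → Prop} (h1 : motive 1)
    (h2 : ∀ U l, U.1.head? ≠ some l → motive U → motive (step l U)) : ∀ U, motive U := by
  rintro ⟨w, hw⟩
  induction w with
  | nil => exact h1
  | cons a t ih =>
    have h3 := List.isChain_cons.1 hw
    have h4 : t.head? ≠ some a := fun h => h3.1 a h rfl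
    have := h2 ⟨t, h3.2⟩ a h4 (ih h3.2)
    convert this using 1
    exact Subtype.ext (step_val_of_ne (W := ⟨t, h3.2⟩) h4).symm

instance : Mul P := ⟨fun W U => act W U.1⟩

instance : Inv P :=
  ⟨fun W => ⟨W.1.reverse, List.isChain_reverse.2 (W.2.imp fun _ _ h => h.symm)⟩⟩

theorem mul_step' (W : P) (l : L) (U : P) : W * step l U = step l (W * U) := act_step W l U

theorem act_reverse (W : P) : act W W.1.reverse = 1 := by
  induction W using ind1 with
  | h1 => rfl
  | h2 U l h ih =>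
    rw [step_val_of_ne h, List.reverse_cons]
    simp only [act, List.foldr_append, List.foldr_cons, List.foldr_nil, step_step]
    exact ih

instance : Group P :=
  Group.ofRightAxioms
    (fun a b c => by
      induction c using ind1 with
      | h1 => rfl
      | h2 U l _ ih => rw [mul_step', mul_step', mul_step', ih])
    (fun _ => rfl) act_reverse

theorem mul_step (W : P) (l : L) (U : P) : W * step l U = step l (W * U) := act_step W l U

theorem inv_val (W : P) : (W⁻¹).1 = W.1.reverse := rfl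

def gen (l : L) : P := ⟨[l], List.IsChain.singleton l⟩

theorem mul_gen (W : P) (l : L) : W * gen l = step l W := rfl

theorem gen_inv (l : L) : (gen l)⁻¹ = gen l := rfl

theorem head_gen_mul {U : P} {l l' : L} (h1 : U.1.head? = some l)
    (h2 : (gen l' * U).1.head? ≠ some l) : U = gen l ∧ l' = l := by
  have e : gen l' * U = (step l' U⁻¹)⁻¹ := by
    rw [← mul_gen, mul_inv_rev, inv_inv, gen_inv]
  rw [e, inv_val, List.head?_reverse] at h2
  have h3 : (U⁻¹).1.getLast? = some l := by rw [inv_val, List.getLast?_reverse]; exact h1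
  by_cases h : (U⁻¹).1.head? = some l'
  · have h4 := step_val_of_eq h
    generalize (step l' U⁻¹).1 = t at h2 h4
    cases t with
    | nil =>
      rw [h4] at h3
      simp only [List.getLast?_singleton, Option.some.injEq] at h3
      subst h3
      refine ⟨?_, rfl⟩
      have : U⁻¹ = gen l' := Subtype.ext h4
      rw [← inv_inv U, this, gen_inv]
    | cons a t =>
      rw [h4, List.getLast?_cons_cons] at h3
      exact absurd h3 h2
  · rw [step_val_of_ne h] at h2
    generalize (U⁻¹).1 = t at h2 h3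
    cases t with
    | nil => simp at h3
    | cons a t =>
      rw [List.getLast?_cons_cons] at h2
      exact absurd h3 h2

/-- Seen from `W`, the plane `W0` lies behind the line with label `l`. -/
def beh (W : P) (l : L) (W0 : P) : Prop := (W0⁻¹ * W).1.head? = some l

def dep (W0 W : P) : ℕ := (W0⁻¹ * W).1.length

theorem beh_step {W : P} {l : L} {W0 : P} : beh (step l W) l W0 ↔ ¬ beh W l W0 := by
  unfold beh
  rw [mul_step]
  exact head_step

theorem beh_unique {W : P} {l l' : L} {W0 : P} (h : beh W l W0) (h' : beh W l' W0) : l = l' :=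
  Option.some.inj (h.symm.trans h')

theorem not_beh_self (W : P) (l : L) : ¬ beh W l W := by
  unfold beh
  rw [inv_mul_cancel]
  exact fun h => by cases h

theorem exists_beh {W W0 : P} (h : W0 ≠ W) : ∃ l, beh W l W0 := by
  unfold beh
  rcases h1 : (W0⁻¹ * W).1 with _ | ⟨a, t⟩
  · have : W0⁻¹ * W = 1 := Subtype.ext h1
    exact absurd (inv_mul_eq_one.1 this) h
  · exact ⟨a, rfl⟩

theorem beh_cross {W : P} {l l' : L} {W0 : P} (h : beh W l W0) (h' : ¬ beh W l (step l' W0)) :
    W0 = step l W ∧ l' = l := by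
  unfold beh at h h'
  rw [← mul_gen, mul_inv_rev, gen_inv, mul_assoc] at h'
  obtain ⟨h1, h2⟩ := head_gen_mul h h'
  refine ⟨?_, h2⟩
  rw [inv_mul_eq_iff_eq_mul, mul_gen] at h1
  rw [h1, step_step]

theorem tree_ind (W0 : P) {motive : P → Prop} (h1 : motive W0)
    (h2 : ∀ W l, ¬ beh W l W0 → motive W → motive (step l W)) : ∀ W, motive W := by
  have key : ∀ U, motive (W0 * U) := by
    intro U
    induction U using ind1 with
    | h1 => simpa using h1
    | h2 U l h ih =>
      rw [mul_step]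
      refine h2 _ l ?_ ih
      unfold beh
      rwa [inv_mul_cancel_left]
  intro W
  have := key (W0⁻¹ * W)
  rwa [mul_inv_cancel_left] at this

theorem dep_self (W : P) : dep W W = 0 := by
  unfold dep
  rw [inv_mul_cancel]
  rfl

theorem dep_step {W : P} {l : L} {W0 : P} (h : ¬ beh W l W0) :
    dep W0 (step l W) = dep W0 W + 1 := by
  unfold dep
  rw [mul_step, step_val_of_ne h, List.length_cons]

theorem eq_of_dep {W0 W : P} (h : dep W0 W = 0) : W = W0 := by
  have : W0⁻¹ * W = 1 := Subtype.ext (List.length_eq_zero_iff.1 h)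
  exact (inv_mul_eq_one.1 this).symm

theorem peel {W0 W : P} {n : ℕ} (h : dep W0 W = n + 1) :
    ∃ W' l, W = step l W' ∧ ¬ beh W' l W0 ∧ dep W0 W' = n := by
  obtain ⟨l, hl⟩ := exists_beh (W := W) (W0 := W0) (by
    rintro rfl
    rw [dep_self] at h
    omega)
  have h1 : ¬ beh (step l W) l W0 := fun h' => beh_step.1 h' hl
  refine ⟨step l W, l, (step_step l W).symm, h1, ?_⟩
  have := dep_step h1
  rw [step_step] at this
  omega

def par (κ : Bool) (W : P) : ℤ := (W.1.countP fun l => l.1 ≠ κ : ℕ) % 2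

theorem par_cases (κ : Bool) (W : P) : par κ W = 0 ∨ par κ W = 1 := by
  unfold par
  omega

theorem par_step (κ : Bool) (l : L) (W : P) :
    par κ (step l W) = if l.1 = κ then par κ W else 1 - par κ W := by
  unfold par
  by_cases h : W.1.head? = some l
  · conv_rhs => rw [step_val_of_eq h]
    rw [List.countP_cons]
    split_ifs <;> simp_all <;> omega
  · rw [step_val_of_ne h, List.countP_cons]
    split_ifs <;> simp_all <;> omega

def pos (W : P) (l : L) : ℤ := 2 * l.2 + par l.1 W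

theorem pos_step_same {l l' : L} (h : l'.1 = l.1) (W : P) : pos (step l' W) l = pos W l := by
  simp [pos, par_step, h]

theorem pos_ne {W : P} {l l' : L} (h : l.1 = l'.1) (h' : l ≠ l') : pos W l ≠ pos W l' := by
  intro e
  apply h'
  unfold pos at e
  rw [h] at e
  exact Prod.ext h (by omega)

theorem pos_ne_step {W : P} {l l' l'' : L} (h : l.1 = l''.1) (h' : l'.1 ≠ l''.1) :
    pos W l ≠ pos (step l' W) l'' := by
  unfold pos
  rw [par_step, if_neg h', h]
  omega

def sh (m : ℤ × ℤ) (l : L) : L := (l.1, l.2 + if l.1 then m.1 else m.2)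

theorem sh_sh (m n : ℤ × ℤ) (l : L) : sh m (sh n l) = sh (m + n) l := by
  obtain ⟨a, b⟩ := l
  cases a <;> simp [sh] <;> ring

theorem sh_zero (l : L) : sh 0 l = l := by simp [sh]

theorem sh_inj (m : ℤ × ℤ) : Function.Injective (sh m) := fun a b h => by
  have := congrArg (sh (-m)) h
  simpa [sh_sh, sh_zero] using this

def shP (m : ℤ × ℤ) (W : P) : P :=
  ⟨W.1.map (sh m), List.isChain_map_of_isChain (sh m) (fun _ _ h e => h (sh_inj m e)) W.2⟩

theorem shP_step (m : ℤ × ℤ) (l : L) (W : P) : shP m (step l W) = step (sh m l) (shP m W) := by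
  have key : ∀ W : P, W.1.head? ≠ some l → shP m (step l W) = step (sh m l) (shP m W) := by
    intro W h
    apply Subtype.ext
    rw [step_val_of_ne (W := shP m W)]
    · show (step l W).1.map (sh m) = _
      rw [step_val_of_ne h]
      rfl
    · show (W.1.map (sh m)).head? ≠ _
      rw [List.head?_map]
      intro h'
      apply h
      obtain ⟨a, ha, hb⟩ := Option.map_eq_some_iff.1 h'
      rw [ha, sh_inj m hb]
  by_cases h : W.1.head? = some l
  · have := key (step l W) (fun h' => head_step.1 h' h)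
    rw [step_step] at this
    rw [this, step_step]
  · exact key W h

theorem shP_shP (m n : ℤ × ℤ) (W : P) : shP m (shP n W) = shP (m + n) W := by
  apply Subtype.ext
  show (W.1.map _).map _ = W.1.map _
  rw [List.map_map]
  congr 1
  funext l
  exact sh_sh m n l

theorem shP_zero (W : P) : shP 0 W = W := by
  apply Subtype.ext
  show W.1.map _ = W.1
  have : sh 0 = id := funext sh_zero
  simp [this]

/-- The group: parity preserving automorphisms of the labelled tree shifting the labels. -/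
def GS : Subgroup (Equiv.Perm P × Multiplicative (ℤ × ℤ)) where
  carrier := {g | (∀ W l, g.1 (step l W) = step (sh g.2.toAdd l) (g.1 W)) ∧
    ∀ κ W, par κ (g.1 W) = par κ W}
  one_mem' := ⟨fun W l => by simp [sh_zero], fun _ _ => rfl⟩
  mul_mem' := by
    rintro a b ⟨ha1, ha2⟩ ⟨hb1, hb2⟩
    refine ⟨fun W l => ?_, fun κ W => ?_⟩
    · simp only [Prod.fst_mul, Equiv.Perm.coe_mul, Function.comp_apply, Prod.snd_mul, toAdd_mul]
      rw [hb1, ha1, sh_sh]
    · simp only [Prod.fst_mul, Equiv.Perm.coe_mul, Function.comp_apply]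
      rw [ha2, hb2]
  inv_mem' := by
    rintro a ⟨ha1, ha2⟩
    refine ⟨fun W l => ?_, fun κ W => ?_⟩
    · apply a.1.injective
      rw [ha1, sh_sh]
      simp [sh_zero]
    · rw [← ha2]
      simp

abbrev GG : Type := GS

theorem G_ext {g g' : GG} {W : P} (h1 : g.1.1 W = g'.1.1 W) (h2 : g.1.2 = g'.1.2) : g = g' := by
  apply Subtype.ext
  refine Prod.ext (Equiv.ext fun U => ?_) h2
  induction U using tree_ind W with
  | h1 => exact h1
  | h2 U l _ ih => rw [g.2.1, g'.2.1, ih, h2]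

theorem exists_G {W W' : P} (h : ∀ κ, par κ W = par κ W') (m : ℤ × ℤ) :
    ∃ g : GG, g.1.1 W = W' ∧ g.1.2.toAdd = m := by
  let π : Equiv.Perm P :=
    { toFun := fun U => W' * shP m (W⁻¹ * U)
      invFun := fun U => W * shP (-m) (W'⁻¹ * U)
      left_inv := fun U => by simp [shP_shP, shP_zero]
      right_inv := fun U => by simp [shP_shP, shP_zero] }
  have h1 : ∀ U l, π (step l U) = step (sh m l) (π U) := fun U l => by
    show W' * shP m (W⁻¹ * step l U) = step (sh m l) (W' * shP m (W⁻¹ * U))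
    rw [mul_step, shP_step, mul_step]
  have h2 : π W = W' := by
    show W' * shP m (W⁻¹ * W) = W'
    rw [inv_mul_cancel]
    rfl
  refine ⟨⟨(π, Multiplicative.ofAdd m), h1, fun κ U => ?_⟩, h2, rfl⟩
  show par κ (π U) = par κ U
  induction U using tree_ind W with
  | h1 => rw [h2, h]
  | h2 U l _ ih => rw [h1, par_step, par_step, ih]; rfl

theorem pos_G (g : GG) (W : P) (l : L) :
    pos (g.1.1 W) (sh g.1.2.toAdd l) =
      pos W l + 2 * (if l.1 then g.1.2.toAdd.1 else g.1.2.toAdd.2) := by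
  simp only [pos, sh, g.2.2]
  ring

end Pool.Agent.Work.MP_f8dec8_al
end

-- merged part: Pool.Agent.Work.MP_f8dec8_al.Metric
section
/-! The metric on the tree of planes. -/

namespace Pool.Agent.Work.MP_f8dec8_al

abbrev K4 := Fin 4 → ℝ

def lam (d : Bool) : ℝ := if d then 1 else 0

def tau (d κ : Bool) (p : ℝ × ℝ) : ℝ := if κ then p.1 else p.2 - lam d * p.1

def ev (k : K4) (p : ℝ × ℝ) : ℝ :=
  max (max (k 0 + p.1) (k 1 - p.1)) (max (k 2 + p.2) (k 3 - p.2))

theorem ev_le_iff {k : K4} {p : ℝ × ℝ} {M : ℝ} :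
    ev k p ≤ M ↔ k 0 + p.1 ≤ M ∧ k 1 - p.1 ≤ M ∧ k 2 + p.2 ≤ M ∧ k 3 - p.2 ≤ M := by
  simp [ev, and_assoc]

theorem le_ev (k : K4) (p : ℝ × ℝ) :
    k 0 + p.1 ≤ ev k p ∧ k 1 - p.1 ≤ ev k p ∧ k 2 + p.2 ≤ ev k p ∧ k 3 - p.2 ≤ ev k p :=
  ev_le_iff.1 le_rfl

theorem dist_le_iff2 {p q : ℝ × ℝ} {M : ℝ} : dist p q ≤ M ↔
    p.1 - q.1 ≤ M ∧ q.1 - p.1 ≤ M ∧ p.2 - q.2 ≤ M ∧ q.2 - p.2 ≤ M := by
  rw [Prod.dist_eq, max_le_iff, Real.dist_eq, Real.dist_eq, abs_le, abs_le]
  constructor
  · rintro ⟨⟨h1, h2⟩, h3, h4⟩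
    refine ⟨?_, ?_, ?_, ?_⟩ <;> linarith only [h2, h1, h4, h3]
  · rintro ⟨h1, h2, h3, h4⟩
    refine ⟨⟨?_, ?_⟩, ?_, ?_⟩ <;> linarith only [h2, h1, h4, h3]

theorem le_dist2 (p q : ℝ × ℝ) : p.1 - q.1 ≤ dist p q ∧ q.1 - p.1 ≤ dist p q ∧
    p.2 - q.2 ≤ dist p q ∧ q.2 - p.2 ≤ dist p q := dist_le_iff2.1 le_rfl

theorem ev_lip (k : K4) (p q : ℝ × ℝ) : ev k p ≤ ev k q + dist q p := by
  obtain ⟨a1, a2, a3, a4⟩ := le_ev k q
  obtain ⟨b1, b2, b3, b4⟩ := le_dist2 q p
  rw [ev_le_iff]
  refine ⟨?_, ?_, ?_, ?_⟩ <;> linarith only [a1, b2, a2, b1, a3, b4, a4, b3]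

noncomputable def dl (a b c e j : ℝ) : ℝ := max (max (a + j) (b - j)) ((c + e) / 2)

theorem dl_le_iff {a b c e j M : ℝ} :
    dl a b c e j ≤ M ↔ a + j ≤ M ∧ b - j ≤ M ∧ (c + e) / 2 ≤ M := by
  simp [dl, and_assoc]

theorem le_dl (a b c e j : ℝ) :
    a + j ≤ dl a b c e j ∧ b - j ≤ dl a b c e j ∧ (c + e) / 2 ≤ dl a b c e j := dl_le_iff.1 le_rfl

noncomputable def upd (d κ : Bool) (j : ℝ) (k : K4) : K4 :=
  match κ, d with
  | true, _ => ![dl (k 0) (k 1) (k 2) (k 3) j - j, dl (k 0) (k 1) (k 2) (k 3) j + j, k 2, k 3]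
  | false, false => ![k 0, k 1, dl (k 2) (k 3) (k 0) (k 1) j - j, dl (k 2) (k 3) (k 0) (k 1) j + j]
  | false, true => ![max (k 0) (k 2 + j), max (k 1) (k 3 - j), max (k 0) (k 2 + j) - j,
      max (k 1) (k 3 - j) + j]

theorem upd_v (d : Bool) (j : ℝ) (k : K4) :
    upd d true j k 0 = dl (k 0) (k 1) (k 2) (k 3) j - j ∧
    upd d true j k 1 = dl (k 0) (k 1) (k 2) (k 3) j + j ∧
    upd d true j k 2 = k 2 ∧ upd d true j k 3 = k 3 := ⟨rfl, rfl, rfl, rfl⟩

theorem upd_h (j : ℝ) (k : K4) :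
    upd false false j k 0 = k 0 ∧ upd false false j k 1 = k 1 ∧
    upd false false j k 2 = dl (k 2) (k 3) (k 0) (k 1) j - j ∧
    upd false false j k 3 = dl (k 2) (k 3) (k 0) (k 1) j + j := ⟨rfl, rfl, rfl, rfl⟩

theorem upd_d (j : ℝ) (k : K4) :
    upd true false j k 0 = max (k 0) (k 2 + j) ∧ upd true false j k 1 = max (k 1) (k 3 - j) ∧
    upd true false j k 2 = max (k 0) (k 2 + j) - j ∧
    upd true false j k 3 = max (k 1) (k 3 - j) + j := ⟨rfl, rfl, rfl, rfl⟩

theorem ev_upd {d κ : Bool} {j : ℝ} (k : K4) {p : ℝ × ℝ} (h : tau d κ p = j) :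
    ev (upd d κ j k) p = ev k p := by
  refine eq_of_forall_ge_iff fun M => ?_
  rw [ev_le_iff, ev_le_iff]
  rcases κ with _ | _
  · rcases d with _ | _
    · obtain ⟨e0, e1, e2, e3⟩ := upd_h j k
      obtain ⟨a1, a2, a3⟩ := le_dl (k 2) (k 3) (k 0) (k 1) j
      have hp : p.2 = j := by simpa [tau, lam] using h
      rw [e0, e1, e2, e3, hp]
      constructor
      · rintro ⟨h1, h2, h3, h4⟩
        refine ⟨?_, ?_, ?_, ?_⟩ <;> linarith only [h1, h2, a1, h3, a2]
      · rintro ⟨h1, h2, h3, h4⟩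
        have : dl (k 2) (k 3) (k 0) (k 1) j ≤ M := dl_le_iff.2 ⟨h3, h4, by linarith only [h1, h2]⟩
        refine ⟨?_, ?_, ?_, ?_⟩ <;> linarith only [h1, h2, this]
    · obtain ⟨e0, e1, e2, e3⟩ := upd_d j k
      have hp : p.2 = p.1 + j := by
        have : p.2 - p.1 = j := by simpa [tau, lam] using h
        linarith
      rw [e0, e1, e2, e3, hp]
      have a1 := le_max_left (k 0) (k 2 + j)
      have a2 := le_max_right (k 0) (k 2 + j)
      have a3 := le_max_left (k 1) (k 3 - j)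
      have a4 := le_max_right (k 1) (k 3 - j)
      constructor
      · rintro ⟨h1, h2, h3, h4⟩
        refine ⟨?_, ?_, ?_, ?_⟩ <;> linarith only [a1, h1, a3, h2, a2, a4]
      · rintro ⟨h1, h2, h3, h4⟩
        have b1 : max (k 0) (k 2 + j) ≤ M - p.1 := max_le (by linarith) (by linarith)
        have b2 : max (k 1) (k 3 - j) ≤ M + p.1 := max_le (by linarith) (by linarith)
        refine ⟨?_, ?_, ?_, ?_⟩ <;> linarith only [b1, b2]
  · obtain ⟨e0, e1, e2, e3⟩ := upd_v d j k
    obtain ⟨a1, a2, a3⟩ := le_dl (k 0) (k 1) (k 2) (k 3) j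
    have hp : p.1 = j := by simpa [tau] using h
    rw [e0, e1, e2, e3, hp]
    constructor
    · rintro ⟨h1, h2, h3, h4⟩
      refine ⟨?_, ?_, ?_, ?_⟩ <;> linarith only [a1, h1, a2, h3, h4]
    · rintro ⟨h1, h2, h3, h4⟩
      have : dl (k 0) (k 1) (k 2) (k 3) j ≤ M := dl_le_iff.2 ⟨h1, h2, by linarith only [h3, h4]⟩
      refine ⟨?_, ?_, ?_, ?_⟩ <;> linarith only [this, h3, h4]

theorem clamp {lo hi y w : ℝ} (h : lo ≤ hi) (hw : 0 ≤ w) (h1 : y - hi ≤ w) (h2 : lo - y ≤ w) :
    ∃ t, lo ≤ t ∧ t ≤ hi ∧ t - y ≤ w ∧ y - t ≤ w := by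
  rcases le_total y lo with a | a
  · exact ⟨lo, le_rfl, h, h2, by linarith⟩
  · rcases le_total y hi with b | b
    · exact ⟨y, a, b, by linarith, by linarith⟩
    · exact ⟨hi, h, le_rfl, by linarith, h1⟩

theorem exists_gate (d κ : Bool) (j : ℝ) (k : K4) (p : ℝ × ℝ) :
    ∃ q, tau d κ q = j ∧ ev k q + dist q p ≤ ev (upd d κ j k) p := by
  obtain ⟨m1, m2, m3, m4⟩ := le_ev (upd d κ j k) p
  generalize ev (upd d κ j k) p = M at m1 m2 m3 m4
  rcases κ with _ | _
  · rcases d with _ | _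
    · obtain ⟨e0, e1, e2, e3⟩ := upd_h j k
      obtain ⟨a1, a2, a3⟩ := le_dl (k 2) (k 3) (k 0) (k 1) j
      rw [e0] at m1; rw [e1] at m2; rw [e2] at m3; rw [e3] at m4
      generalize dl (k 2) (k 3) (k 0) (k 1) j = δ at *
      obtain ⟨t, t1, t2, t3, t4⟩ := clamp (lo := k 1 - δ) (hi := δ - k 0) (y := p.1) (w := M - δ)
        (by linarith only [a3]) (by linarith only [m3, m4]) (by linarith only [m1]) (by linarith only [m2])
      refine ⟨(t, j), by simp [tau, lam], ?_⟩
      have b1 : ev k (t, j) ≤ δ := ev_le_iff.2 ⟨by linarith only [t2], by linarith only [t1], a1, a2⟩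
      have b2 : dist (t, j) p ≤ M - δ := dist_le_iff2.2 ⟨t3, t4, by linarith only [m4], by linarith only [m3]⟩
      linarith only [b1, b2]
    · obtain ⟨e0, e1, e2, e3⟩ := upd_d j k
      rw [e0] at m1; rw [e1] at m2; rw [e2] at m3; rw [e3] at m4
      have a1 := le_max_left (k 0) (k 2 + j)
      have a2 := le_max_right (k 0) (k 2 + j)
      have a3 := le_max_left (k 1) (k 3 - j)
      have a4 := le_max_right (k 1) (k 3 - j)
      generalize max (k 0) (k 2 + j) = A at *
      generalize max (k 1) (k 3 - j) = B at *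
      refine ⟨((B - A) / 2, (B - A) / 2 + j), by simp [tau, lam], ?_⟩
      have b1 : ev k ((B - A) / 2, (B - A) / 2 + j) ≤ (A + B) / 2 :=
        ev_le_iff.2 ⟨by linarith only [a1], by linarith only [a3], by linarith only [a2], by linarith only [a4]⟩
      have b2 : dist ((B - A) / 2, (B - A) / 2 + j) p ≤ M - (A + B) / 2 :=
        dist_le_iff2.2 ⟨by linarith only [m2], by linarith only [m1], by linarith only [m4], by linarith only [m3]⟩
      linarith only [b1, b2]
  · obtain ⟨e0, e1, e2, e3⟩ := upd_v d j k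
    obtain ⟨a1, a2, a3⟩ := le_dl (k 0) (k 1) (k 2) (k 3) j
    rw [e0] at m1; rw [e1] at m2; rw [e2] at m3; rw [e3] at m4
    generalize dl (k 0) (k 1) (k 2) (k 3) j = δ at *
    obtain ⟨t, t1, t2, t3, t4⟩ := clamp (lo := k 3 - δ) (hi := δ - k 2) (y := p.2) (w := M - δ)
      (by linarith) (by linarith only [m1, m2]) (by linarith) (by linarith only [m4])
    refine ⟨(j, t), by simp [tau], ?_⟩
    have b1 : ev k (j, t) ≤ δ := ev_le_iff.2 ⟨a1, a2, by linarith only [t2], by linarith only [t1]⟩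
    have b2 : dist (j, t) p ≤ M - δ := dist_le_iff2.2 ⟨by linarith only [m2], by linarith only [m1], t3, t4⟩
    linarith only [b1, b2]

abbrev X := P × (ℝ × ℝ)

noncomputable def Kl (d : Bool) (x : X) : List L → K4
  | [] => ![-x.2.1, x.2.1, -x.2.2, x.2.2]
  | l :: u => upd d l.1 (pos (act x.1 u) l) (Kl d x u)

noncomputable def KK (d : Bool) (x : X) (W : P) : K4 := Kl d x (x.1⁻¹ * W).1

noncomputable def D (d : Bool) (x y : X) : ℝ := ev (KK d x y.1) y.2

variable {d : Bool}

theorem KK_self (x : X) : KK d x x.1 = ![-x.2.1, x.2.1, -x.2.2, x.2.2] := by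
  unfold KK
  rw [inv_mul_cancel]
  rfl

theorem KK_self' (x : X) : KK d x x.1 0 = -x.2.1 ∧ KK d x x.1 1 = x.2.1 ∧
    KK d x x.1 2 = -x.2.2 ∧ KK d x x.1 3 = x.2.2 := by
  rw [KK_self]
  exact ⟨rfl, rfl, rfl, rfl⟩

theorem KK_step {x : X} {W : P} {l : L} (h : ¬ beh W l x.1) :
    KK d x (step l W) = upd d l.1 (pos W l) (KK d x W) := by
  unfold KK
  rw [mul_step, step_val_of_ne h, Kl]
  have : act x.1 (x.1⁻¹ * W).1 = W := mul_inv_cancel_left x.1 W
  rw [this]

theorem KK_step' {x : X} {W : P} {l : L} (h : beh W l x.1) :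
    KK d x W = upd d l.1 (pos W l) (KK d x (step l W)) := by
  have := KK_step (d := d) (x := x) (W := step l W) (l := l) (fun h' => beh_step.1 h' h)
  rwa [step_step, pos_step_same rfl] at this

theorem D_plane (W : P) (p q : ℝ × ℝ) : D d (W, p) (W, q) = dist p q := by
  refine eq_of_forall_ge_iff fun M => ?_
  obtain ⟨e0, e1, e2, e3⟩ := KK_self' (d := d) (W, p)
  unfold D
  rw [ev_le_iff, dist_le_iff2]
  simp only at e0 e1 e2 e3 ⊢
  rw [e0, e1, e2, e3]
  constructor
  · rintro ⟨h1, h2, h3, h4⟩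
    refine ⟨?_, ?_, ?_, ?_⟩ <;> linarith only [h2, h1, h4, h3]
  · rintro ⟨h1, h2, h3, h4⟩
    refine ⟨?_, ?_, ?_, ?_⟩ <;> linarith only [h2, h1, h4, h3]

theorem D_self (x : X) : D d x x = 0 := by
  rw [D_plane x.1 x.2 x.2, dist_self]

def Adm (d : Bool) (f : X → ℝ) : Prop :=
  (∀ W p q, f (W, p) ≤ f (W, q) + dist q p) ∧
    ∀ W l p, tau d l.1 p = pos W l → f (step l W, p) = f (W, p)

theorem D_glue (x : X) {W : P} {l : L} {p : ℝ × ℝ} (h : tau d l.1 p = pos W l) :
    D d x (step l W, p) = D d x (W, p) := by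
  unfold D
  by_cases hb : beh W l x.1
  · simp only
    rw [KK_step' hb, ev_upd _ h]
  · simp only
    rw [KK_step hb, ev_upd _ h]

theorem adm_D (x : X) : Adm d (D d x) := ⟨fun _ p q => ev_lip _ p q, fun _ _ _ h => D_glue x h⟩

theorem D_gate {x : X} {W : P} {l : L} (h : ¬ beh W l x.1) (p : ℝ × ℝ) :
    ∃ q, tau d l.1 q = pos W l ∧ D d x (W, q) + dist q p ≤ D d x (step l W, p) := by
  unfold D
  simp only
  rw [KK_step h]
  exact exists_gate _ _ _ _ _

theorem Adm.le {f : X → ℝ} (hf : Adm d f) (x y : X) : f y ≤ f x + D d x y := by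
  obtain ⟨W, p⟩ := y
  induction W using tree_ind x.1 generalizing p with
  | h1 =>
    have := hf.1 x.1 p x.2
    rw [D_plane x.1 x.2 p]
    exact this
  | h2 W l h ih =>
    obtain ⟨q, hq, hq'⟩ := D_gate (d := d) h p
    have h1 := hf.1 (step l W) p q
    rw [hf.2 W l q hq] at h1
    have h2 := ih q
    linarith only [hq', h1, h2]

theorem Adm.neg {f : X → ℝ} (hf : Adm d f) : Adm d fun x => -f x :=
  ⟨fun W p q => by
    have := hf.1 W q p
    rw [dist_comm] at this
    show -f _ ≤ -f _ + _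
    linarith only [this], fun W l p h => by simp only [hf.2 W l p h]⟩

theorem D_triangle (x y z : X) : D d x z ≤ D d x y + D d y z := (adm_D x).le y z

theorem D_comm (x y : X) : D d x y = D d y x := by
  have key : ∀ x y : X, D d y x ≤ D d x y := fun x y => by
    have := (adm_D (d := d) y).neg.le x y
    simp only [D_self] at this
    linarith
  exact le_antisymm (key y x) (key x y)

theorem dev_le (x y : X) : dist x.2 y.2 ≤ D d x y := by
  have h1 : Adm d fun z => z.2.1 :=
    ⟨fun _ p q => by have := (le_dist2 q p).2.1; show p.1 ≤ q.1 + _; linarith, fun _ _ _ _ => rfl⟩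
  have h2 : Adm d fun z => z.2.2 :=
    ⟨fun _ p q => by have := (le_dist2 q p).2.2.2; show p.2 ≤ q.2 + _; linarith, fun _ _ _ _ => rfl⟩
  have a1 := h1.le x y
  have a2 := h1.neg.le x y
  have a3 := h2.le x y
  have a4 := h2.neg.le x y
  rw [dist_le_iff2]
  refine ⟨?_, ?_, ?_, ?_⟩ <;> linarith only [a2, a1, a4, a3]

theorem D_nonneg (x y : X) : 0 ≤ D d x y := dist_nonneg.trans (dev_le x y)

theorem D_glue_zero {W : P} {l : L} {p : ℝ × ℝ} (h : tau d l.1 p = pos W l) :
    D d (W, p) (step l W, p) = 0 := by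
  rw [D_glue _ h, D_self]

/-- Separation lemma. -/
theorem D_sep {x y : X} {W : P} {l : L} (hx : ¬ beh W l x.1) (hy : beh W l y.1) :
    ∃ q, tau d l.1 q = pos W l ∧ D d x (W, q) + D d (W, q) y ≤ D d x y := by
  obtain ⟨W', p⟩ := y
  induction W' using tree_ind x.1 generalizing p with
  | h1 => exact absurd hy hx
  | h2 W' l' h ih =>
    obtain ⟨q', hq, hq'⟩ := D_gate (d := d) h p
    by_cases hb : beh W l W'
    · obtain ⟨q, h1, h2⟩ := ih q' hb
      refine ⟨q, h1, ?_⟩
      have h3 := (adm_D (d := d) (W, q)).1 (step l' W') p q'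
      rw [D_glue _ hq] at h3
      linarith only [hq', h2, h3]
    · obtain ⟨e1, e2⟩ := beh_cross (l' := l') hy (by rwa [step_step])
      subst e2
      have e3 : W' = W := by
        have := congrArg (step l') e1
        rwa [step_step, step_step] at this
      subst e3
      refine ⟨q', hq, ?_⟩
      have h3 := (adm_D (d := d) (W', q')).1 (step l' W') p q'
      rw [D_glue_zero hq] at h3
      linarith

theorem D_btw {x y : X} {W : P} (h : ∀ l, beh W l x.1 → ¬ beh W l y.1) :
    ∃ q, D d x (W, q) + D d (W, q) y ≤ D d x y := by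
  by_cases hx : x.1 = W
  · subst hx
    exact ⟨x.2, by rw [D_self]; simp⟩
  · obtain ⟨l, hl⟩ := exists_beh hx
    obtain ⟨q, -, hq⟩ := D_sep (d := d) (h l hl) hl
    refine ⟨q, ?_⟩
    rw [D_comm x y, D_comm x, D_comm _ y]
    linarith

theorem btw_bounds {x y : X} {W : P} {q : ℝ × ℝ} {M : ℝ}
    (h : D d x (W, q) + D d (W, q) y ≤ M) :
    KK d x W 0 + KK d y W 1 ≤ M ∧ KK d x W 1 + KK d y W 0 ≤ M ∧
      KK d x W 2 + KK d y W 3 ≤ M ∧ KK d x W 3 + KK d y W 2 ≤ M := by
  rw [D_comm _ y] at h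
  obtain ⟨a1, a2, a3, a4⟩ := le_ev (KK d x W) q
  obtain ⟨b1, b2, b3, b4⟩ := le_ev (KK d y W) q
  unfold D at h
  simp only at h
  refine ⟨?_, ?_, ?_, ?_⟩ <;> linarith only [h, a1, b2, a2, b1, a3, b4, a4, b3]

theorem lemma_EH (x y : X) (W : P) :
    (KK d x W 2 + KK d y W 3 ≤ D d x y ∨ KK d x W 2 + KK d y W 3 ≤ KK d x W 0 + KK d y W 1 ∨
      KK d x W 2 + KK d y W 3 ≤ (KK d x W 2 + KK d x W 3 + KK d y W 2 + KK d y W 3) / 2) ∧
    (KK d x W 0 + KK d y W 1 ≤ D d x y ∨ KK d x W 0 + KK d y W 1 ≤ KK d x W 2 + KK d y W 3 ∨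
      KK d x W 0 + KK d y W 1 ≤ (KK d x W 0 + KK d x W 1 + KK d y W 0 + KK d y W 1) / 2) := by
  induction W using tree_ind x.1 with
  | h1 =>
    obtain ⟨q, hq⟩ := D_btw (d := d) (x := x) (y := y) (W := x.1)
      fun l h => absurd h (not_beh_self _ _)
    obtain ⟨a1, -, a3, -⟩ := btw_bounds hq
    exact ⟨Or.inl a3, Or.inl a1⟩
  | h2 W l h ih =>
    by_cases hy : beh W l y.1
    · obtain ⟨q, hq⟩ := D_btw (d := d) (x := x) (y := y) (W := step l W) fun l' h' => by
        rw [← beh_unique (beh_step.2 h) h', beh_step, not_not]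
        exact hy
      obtain ⟨a1, -, a3, -⟩ := btw_bounds hq
      exact ⟨Or.inl a3, Or.inl a1⟩
    · rw [KK_step h, KK_step hy]
      generalize KK d x W = k at ih ⊢
      generalize KK d y W = k' at ih ⊢
      generalize (pos W l : ℝ) = j
      generalize D d x y = M at ih ⊢
      obtain ⟨κ, i⟩ := l
      rcases κ with _ | _
      · rcases d with _ | _
        · obtain ⟨e0, e1, e2, e3⟩ := upd_h j k
          obtain ⟨f0, f1, f2, f3⟩ := upd_h j k'
          obtain ⟨a1, a2, a3⟩ := le_dl (k 2) (k 3) (k 0) (k 1) j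
          obtain ⟨b1, b2, b3⟩ := le_dl (k' 2) (k' 3) (k' 0) (k' 1) j
          simp only [e0, e1, e2, e3, f0, f1, f2, f3]
          refine ⟨Or.inr (Or.inr (by linarith only [])), ?_⟩
          rcases ih.2 with h | h | h
          · exact Or.inl h
          · exact Or.inr (Or.inl (by linarith only [a1, b2, h]))
          · exact Or.inr (Or.inl (by linarith only [a3, b3, h]))
        · obtain ⟨e0, e1, e2, e3⟩ := upd_d j k
          obtain ⟨f0, f1, f2, f3⟩ := upd_d j k'
          simp only [e0, e1, e2, e3, f0, f1, f2, f3]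
          exact ⟨Or.inr (Or.inl (by linarith)), Or.inr (Or.inl (by linarith))⟩
      · obtain ⟨e0, e1, e2, e3⟩ := upd_v d j k
        obtain ⟨f0, f1, f2, f3⟩ := upd_v d j k'
        obtain ⟨a1, a2, a3⟩ := le_dl (k 0) (k 1) (k 2) (k 3) j
        obtain ⟨b1, b2, b3⟩ := le_dl (k' 0) (k' 1) (k' 2) (k' 3) j
        simp only [e0, e1, e2, e3, f0, f1, f2, f3]
        refine ⟨?_, Or.inr (Or.inr (by linarith only []))⟩
        rcases ih.1 with h | h | h
        · exact Or.inl h
        · exact Or.inr (Or.inl (by linarith only [a1, b2, h]))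
        · exact Or.inr (Or.inl (by linarith only [a3, b3, h]))

theorem tau_sub_le (κ : Bool) (p q : ℝ × ℝ) : |tau d κ p - tau d κ q| ≤ 2 * dist p q := by
  obtain ⟨a1, a2, a3, a4⟩ := le_dist2 p q
  have := dist_nonneg (x := p) (y := q)
  rw [abs_le]
  rcases κ with _ | _ <;> rcases d with _ | _ <;> simp only [tau, lam] <;> simp <;>
    constructor <;> linarith only [a1, a2, a4, a3]

theorem half_le_dist {κ : Bool} {p q : ℝ × ℝ} {i j : ℤ} (hp : tau d κ p = i) (hq : tau d κ q = j)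
    (h : i ≠ j) : 1 / 2 ≤ dist p q := by
  have h1 := tau_sub_le (d := d) κ p q
  rw [hp, hq] at h1
  have h2 : (1 : ℝ) ≤ |(i : ℝ) - j| := by
    have : 1 ≤ |i - j| := Int.one_le_abs (sub_ne_zero.2 h)
    exact_mod_cast this
  linarith only [h1, h2]

theorem depth_bound (x : X) (n : ℕ) : ∀ W p, 2 * n + 1 ≤ dep x.1 W → (n : ℝ) / 2 ≤ D d x (W, p) := by
  induction n with
  | zero => intro W p _; simpa using D_nonneg _ _
  | succ n ih =>
    intro W p h
    obtain ⟨m, hm⟩ : ∃ m, dep x.1 W = m + 1 + 1 + 1 := ⟨dep x.1 W - 3, by omega⟩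
    obtain ⟨W2, l3, rfl, b3, hm3⟩ := peel hm
    obtain ⟨W1, l2, rfl, b2, hm2⟩ := peel hm3
    obtain ⟨W0, l1, rfl, b1, hm1⟩ := peel hm2
    obtain ⟨q3, t3, g3⟩ := D_gate (d := d) b3 p
    obtain ⟨q2, t2, g2⟩ := D_gate (d := d) b2 q3
    obtain ⟨q1, t1, g1⟩ := D_gate (d := d) b1 q2
    have h0 := ih (step l1 W0) q1 (by omega)
    rw [D_glue _ t1] at h0
    have n12 : l1 ≠ l2 := by rintro rfl; exact b2 (beh_step.2 b1)
    have n23 : l2 ≠ l3 := by rintro rfl; exact b3 (beh_step.2 b2)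
    have d1 := dist_nonneg (x := q1) (y := q2)
    have d2 := dist_nonneg (x := q2) (y := q3)
    have d3 := dist_nonneg (x := q3) (y := p)
    have key : 1 / 2 ≤ dist q1 q2 + dist q2 q3 := by
      by_cases k12 : l1.1 = l2.1
      · rw [← pos_step_same (l' := l1) rfl] at t1
        rw [← k12] at t2
        have := half_le_dist t1 t2 (pos_ne k12 n12)
        linarith only [d2, this]
      · by_cases k23 : l2.1 = l3.1
        · rw [← pos_step_same (l' := l2) rfl] at t2
          rw [← k23] at t3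
          have := half_le_dist t2 t3 (pos_ne k23 n23)
          linarith only [d1, this]
        · have k13 : l1.1 = l3.1 := by
            revert k12 k23
            cases l1.1 <;> cases l2.1 <;> cases l3.1 <;> simp
          rw [← pos_step_same (l' := l1) rfl] at t1
          rw [← k13] at t3
          have := half_le_dist t1 t3 (pos_ne_step k13 k23)
          have := dist_triangle q1 q2 q3
          linarith
    push_cast
    linarith only [g3, g2, g1, h0, d3, key]

theorem dep_le_of_D {x : X} {W : P} {p : ℝ × ℝ} {R : ℝ} (h : D d x (W, p) ≤ R) :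
    dep x.1 W ≤ 2 * (⌈2 * R⌉₊ + 1) := by
  by_contra hc
  have h1 := depth_bound (d := d) x (⌈2 * R⌉₊ + 1) W p (by omega)
  have h2 := Nat.le_ceil (2 * R)
  push_cast at h1
  linarith only [h, h2, h1]

theorem finite_planes (x : X) (R : ℝ) : {W : P | ∃ p, D d x (W, p) ≤ R}.Finite := by
  have key : ∀ n, {W : P | dep x.1 W = n ∧ ∃ p, D d x (W, p) ≤ R}.Finite := by
    intro n
    induction n with
    | zero => exact (Set.finite_singleton x.1).subset fun W hW => eq_of_dep hW.1
    | succ n ih =>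
      obtain ⟨N, hN⟩ : ∃ N : ℤ, 2 * R + |tau d true x.2| + |tau d false x.2| + 1 ≤ N :=
        ⟨_, Int.le_ceil _⟩
      have hf : (Set.univ ×ˢ Set.Icc (-N) N : Set L).Finite :=
        Set.finite_univ.prod (Set.finite_Icc _ _)
      refine ((hf.prod ih).image fun a => step a.1 a.2).subset ?_
      rintro W ⟨h1, p, hp⟩
      obtain ⟨W', l, rfl, b, hd⟩ := peel h1
      obtain ⟨q, t, g⟩ := D_gate (d := d) b p
      have d1 := dist_nonneg (x := q) (y := p)
      have h2 : D d x (W', q) ≤ R := by linarith only [hp, g, d1]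
      refine ⟨(l, W'), ⟨⟨trivial, ?_⟩, hd, q, h2⟩, rfl⟩
      have h3 := tau_sub_le (d := d) l.1 x.2 q
      have h4 := dev_le (d := d) x (W', q)
      have h5 : |tau d l.1 x.2| ≤ |tau d true x.2| + |tau d false x.2| := by
        cases l.1
        · linarith only [abs_nonneg (tau d true x.2)]
        · linarith only [abs_nonneg (tau d false x.2)]
      rw [t] at h3
      have h6 : |(pos W' l : ℝ)| + 1 ≤ N := by
        have := abs_sub_abs_le_abs_sub (pos W' l : ℝ) (tau d l.1 x.2)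
        rw [abs_sub_comm] at this
        simp only at h4
        linarith only [hN, hp, g, d1, h3, h4, h5, this]
      have h7 : |pos W' l| + 1 ≤ N := by exact_mod_cast h6
      have h8 := par_cases l.1 W'
      unfold pos at h7
      have h9 := abs_le.1 (show |2 * l.2 + par l.1 W'| ≤ N - 1 by omega)
      show -N ≤ l.2 ∧ l.2 ≤ N
      constructor <;> omega
  refine ((Set.finite_le_nat (2 * (⌈2 * R⌉₊ + 1))).biUnion fun n _ => key n).subset ?_
  rintro W ⟨p, hp⟩
  simp only [Set.mem_iUnion]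
  exact ⟨_, dep_le_of_D hp, rfl, p, hp⟩

end Pool.Agent.Work.MP_f8dec8_al
end
end

-- merged part: Pool.Agent.Work.MP_f8dec8_al.Graph
section
-- merged part: Pool.Agent.Work.MP_f8dec8_al.Hyper
section
/-! Hyperconvexity of the tree of planes and integrality. -/

namespace Pool.Agent.Work.MP_f8dec8_al

variable {d : Bool}

theorem bad_norm {x y : X} {W : P} {l : L} {M : ℝ} (hx : ¬ beh W l x.1) (hy : ¬ beh W l y.1)
    (hD : D d x y ≤ M)
    (bad : M < KK d x (step l W) 0 + KK d y (step l W) 1 ∨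
      M < KK d x (step l W) 2 + KK d y (step l W) 3) :
    (l.1 = true ∨ d = true → M < KK d x (step l W) 0 + KK d y (step l W) 1) ∧
    (l.1 = false ∧ d = false → M < KK d x (step l W) 2 + KK d y (step l W) 3) := by
  have hE := lemma_EH (d := d) x y (step l W)
  rw [KK_step hx, KK_step hy] at bad hE ⊢
  generalize KK d x W = k at *
  generalize KK d y W = k' at *
  generalize (pos W l : ℝ) = j at *
  generalize D d x y = E at *
  obtain ⟨κ, i⟩ := l
  rcases κ with _ | _
  · rcases d with _ | _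
    · obtain ⟨e0, e1, e2, e3⟩ := upd_h j k
      obtain ⟨f0, f1, f2, f3⟩ := upd_h j k'
      obtain ⟨a1, a2, a3⟩ := le_dl (k 2) (k 3) (k 0) (k 1) j
      obtain ⟨b1, b2, b3⟩ := le_dl (k' 2) (k' 3) (k' 0) (k' 1) j
      simp only [e0, e1, e2, e3, f0, f1, f2, f3] at bad hE ⊢
      refine ⟨by simp, fun _ => ?_⟩
      rcases bad with h | h
      · rcases hE.2 with h' | h' | h' <;> linarith only [hD, h, h', a3, b3]
      · exact h
    · obtain ⟨e0, e1, e2, e3⟩ := upd_d j k
      obtain ⟨f0, f1, f2, f3⟩ := upd_d j k'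
      simp only [e0, e1, e2, e3, f0, f1, f2, f3] at bad hE ⊢
      refine ⟨fun _ => ?_, by simp⟩
      rcases bad with h | h <;> linarith only [h]
  · obtain ⟨e0, e1, e2, e3⟩ := upd_v d j k
    obtain ⟨f0, f1, f2, f3⟩ := upd_v d j k'
    obtain ⟨a1, a2, a3⟩ := le_dl (k 0) (k 1) (k 2) (k 3) j
    obtain ⟨b1, b2, b3⟩ := le_dl (k' 0) (k' 1) (k' 2) (k' 3) j
    simp only [e0, e1, e2, e3, f0, f1, f2, f3] at bad hE ⊢
    refine ⟨fun _ => ?_, by simp⟩
    rcases bad with h | h
    · exact h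
    · rcases hE.1 with h' | h' | h' <;> linarith only [hD, h, h', a3, b3]

theorem cross_le {x n : X} {W : P} {l : L} (hx : beh W l x.1) (hn : ¬ beh W l n.1) :
    KK d x W 0 + KK d n (step l W) 1 ≤ D d n x ∧ KK d x W 1 + KK d n (step l W) 0 ≤ D d n x ∧
    KK d x W 2 + KK d n (step l W) 3 ≤ D d n x ∧ KK d x W 3 + KK d n (step l W) 2 ≤ D d n x := by
  obtain ⟨q, hq, h⟩ := D_sep (d := d) hn hx
  rw [← D_glue _ hq, D_comm _ x] at h
  obtain ⟨a1, a2, a3, a4⟩ := le_ev (KK d x W) q
  obtain ⟨b1, b2, b3, b4⟩ := le_ev (KK d n (step l W)) q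
  generalize D d n x = E at h ⊢
  unfold D at h
  simp only at h
  refine ⟨?_, ?_, ?_, ?_⟩ <;> linarith only [a1, b2, h, a2, b1, a3, b4, a4, b3]

theorem cross_false {x y m n : X} {W : P} {l : L} {rx ry rm rn : ℝ} (hx : beh W l x.1)
    (hy : beh W l y.1) (hm : ¬ beh W l m.1) (hn : ¬ beh W l n.1) (h1 : D d x y ≤ rx + ry)
    (h2 : D d m n ≤ rm + rn) (h3 : D d n x ≤ rn + rx) (h4 : D d m y ≤ rm + ry)
    (bad1 : rx + ry < KK d x W 0 + KK d y W 1 ∨ rx + ry < KK d x W 2 + KK d y W 3)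
    (bad2 : rm + rn < KK d m (step l W) 0 + KK d n (step l W) 1 ∨
      rm + rn < KK d m (step l W) 2 + KK d n (step l W) 3) : False := by
  have b2 := bad_norm hm hn h2 bad2
  have b1 := bad_norm (W := step l W) (l := l) (fun h => beh_step.1 h hx) (fun h => beh_step.1 h hy)
    h1 (by rw [step_step]; exact bad1)
  rw [step_step] at b1
  obtain ⟨c1, -, c3, -⟩ := cross_le (d := d) hx hn
  obtain ⟨-, c2, -, c4⟩ := cross_le (d := d) hy hm
  by_cases h : l.1 = true ∨ d = true
  · have := b1.1 h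
    have := b2.1 h
    linarith
  · have h' : l.1 = false ∧ d = false := by simpa using h
    have := b1.2 h'
    have := b2.2 h'
    linarith

theorem exists_good_plane {ι : Type} (x : ι → X) (r : ι → ℝ) (i0 : ι)
    (h : ∀ i j, D d (x i) (x j) ≤ r i + r j) :
    ∃ W, ∀ i j, KK d (x i) W 0 + KK d (x j) W 1 ≤ r i + r j ∧
      KK d (x i) W 2 + KK d (x j) W 3 ≤ r i + r j := by
  by_contra hcon
  push Not at hcon
  let Bad : P → L → Prop := fun W l => ∃ i j, beh W l (x i).1 ∧ beh W l (x j).1 ∧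
    (r i + r j < KK d (x i) W 0 + KK d (x j) W 1 ∨ r i + r j < KK d (x i) W 2 + KK d (x j) W 3)
  have hbad : ∀ W, ∃ l, Bad W l := by
    intro W
    obtain ⟨i, j, hij⟩ := hcon W
    have hij' : r i + r j < KK d (x i) W 0 + KK d (x j) W 1 ∨
        r i + r j < KK d (x i) W 2 + KK d (x j) W 3 := by
      by_cases c : KK d (x i) W 0 + KK d (x j) W 1 ≤ r i + r j
      · exact Or.inr (hij c)
      · exact Or.inl (not_le.1 c)
    by_contra hc
    obtain ⟨q, hq⟩ := D_btw (d := d) (x := x i) (y := x j) (W := W) fun l a b =>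
      hc ⟨l, i, j, a, b, hij'⟩
    obtain ⟨a1, -, a3, -⟩ := btw_bounds (hq.trans (h i j))
    rcases hij' with c | c <;> linarith only [a1, c, a3]
  have key : ∀ n, ∃ W, dep (x i0).1 W = n ∧ (∃ p, D d (x i0) (W, p) ≤ r i0) ∧
      ∀ l, beh W l (x i0).1 → ¬ Bad W l := by
    intro n
    induction n with
    | zero =>
      refine ⟨(x i0).1, dep_self _, ⟨(x i0).2, ?_⟩, fun l hl => absurd hl (not_beh_self _ _)⟩
      have := h i0 i0
      rw [D_self] at this ⊢
      linarith
    | succ n ih =>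
      obtain ⟨W, h1, -, h3⟩ := ih
      obtain ⟨l, hl⟩ := hbad W
      have hb : ¬ beh W l (x i0).1 := fun c => h3 l c hl
      obtain ⟨i, j, bi, bj, hij⟩ := hl
      refine ⟨step l W, by rw [dep_step hb, h1], ?_, ?_⟩
      · have a : ¬ (r i0 + r i0 < KK d (x i0) (step l W) 0 + KK d (x i0) (step l W) 1 ∨
            r i0 + r i0 < KK d (x i0) (step l W) 2 + KK d (x i0) (step l W) 3) := fun c =>
          cross_false bi bj hb hb (h _ _) (h _ _) (h _ _) (h _ _) hij c
        push Not at a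
        refine ⟨(KK d (x i0) (step l W) 1 - r i0, KK d (x i0) (step l W) 3 - r i0), ?_⟩
        unfold D
        rw [ev_le_iff]
        refine ⟨?_, ?_, ?_, ?_⟩ <;> simp only <;> linarith only [a, a.1, a.2]
      · rintro l' hl' ⟨m, n, bm, bn, hmn⟩
        have e := beh_unique (beh_step.2 hb) hl'
        subst e
        exact cross_false bi bj (beh_step.1 bm) (beh_step.1 bn) (h _ _) (h _ _) (h _ _) (h _ _)
          hij hmn
  obtain ⟨W, h1, ⟨p, hp⟩, -⟩ := key (2 * (⌈2 * r i0⌉₊ + 1) + 1)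
  have := dep_le_of_D hp
  omega

theorem hyperconvex {ι : Type} (x : ι → X) (r : ι → ℝ) (i0 : ι)
    (h : ∀ i j, D d (x i) (x j) ≤ r i + r j) : ∃ z, ∀ i, D d (x i) z ≤ r i := by
  obtain ⟨W, hW⟩ := exists_good_plane x r i0 h
  have : Nonempty ι := ⟨i0⟩
  have b1 : BddAbove (Set.range fun j => KK d (x j) W 1 - r j) :=
    ⟨r i0 - KK d (x i0) W 0, by rintro _ ⟨j, rfl⟩; have := (hW i0 j).1; show _ - _ ≤ _; linarith⟩
  have b3 : BddAbove (Set.range fun j => KK d (x j) W 3 - r j) :=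
    ⟨r i0 - KK d (x i0) W 2, by rintro _ ⟨j, rfl⟩; have := (hW i0 j).2; show _ - _ ≤ _; linarith⟩
  refine ⟨(W, (⨆ j, KK d (x j) W 1 - r j, ⨆ j, KK d (x j) W 3 - r j)), fun i => ?_⟩
  have a1 : (⨆ j, KK d (x j) W 1 - r j) ≤ r i - KK d (x i) W 0 :=
    ciSup_le fun j => by have := (hW i j).1; linarith
  have a2 : (⨆ j, KK d (x j) W 3 - r j) ≤ r i - KK d (x i) W 2 :=
    ciSup_le fun j => by have := (hW i j).2; linarith
  have a3 := le_ciSup b1 i
  have a4 := le_ciSup b3 i
  unfold D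
  rw [ev_le_iff]
  refine ⟨?_, ?_, ?_, ?_⟩ <;> simp only <;> linarith only [a1, a3, a2, a4]

abbrev XZ := P × (ℤ × ℤ)

def XZ.toX (a : XZ) : X := (a.1, ((a.2.1 : ℝ), (a.2.2 : ℝ)))

theorem dl_int {a b c e j : ℤ} (h : c + e ≤ a + b ∨ Even (c + e)) :
    ∃ δ : ℤ, dl a b c e j = δ ∧ c + e ≤ 2 * δ := by
  rcases h with h | ⟨t, ht⟩
  · refine ⟨max (a + j) (b - j), ?_, by omega⟩
    have h' : (c : ℝ) + e ≤ a + b := by exact_mod_cast h
    have a1 := le_max_left ((a : ℝ) + j) (b - j)
    have a2 := le_max_right ((a : ℝ) + j) (b - j)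
    unfold dl
    rw [max_eq_left (by linarith only [h', a1, a2])]
    push_cast
    rfl
  · refine ⟨max (max (a + j) (b - j)) t, ?_, by omega⟩
    have h' : ((c : ℝ) + e) / 2 = t := by
      have : (c : ℝ) + e = t + t := by exact_mod_cast ht
      linarith only [this]
    unfold dl
    rw [h']
    push_cast
    rfl

theorem KK_int (x : XZ) (W : P) : ∃ a b c e : ℤ, KK d x.toX W 0 = a ∧ KK d x.toX W 1 = b ∧
    KK d x.toX W 2 = c ∧ KK d x.toX W 3 = e ∧ (c + e ≤ a + b ∨ Even (c + e)) ∧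
    (a + b ≤ c + e ∨ Even (a + b)) := by
  induction W using tree_ind x.1 with
  | h1 =>
    obtain ⟨e0, e1, e2, e3⟩ := KK_self' (d := d) x.toX
    refine ⟨-x.2.1, x.2.1, -x.2.2, x.2.2, ?_, e1, ?_, e3, Or.inl (by omega), Or.inl (by omega)⟩
    · push_cast; exact e0
    · push_cast; exact e2
  | h2 W l h ih =>
    obtain ⟨a, b, c, e, h0, h1, h2, h3, i1, i2⟩ := ih
    rw [KK_step (x := x.toX) h]
    generalize KK d x.toX W = k at *
    generalize pos W l = j
    obtain ⟨κ, i⟩ := l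
    rcases κ with _ | _
    · rcases d with _ | _
      · obtain ⟨e0, e1, e2, e3⟩ := upd_h j k
        obtain ⟨δ, d1, d2⟩ := dl_int (j := j) i2
        simp only [e0, e1, e2, e3, h0, h1, h2, h3, d1]
        exact ⟨a, b, δ - j, δ + j, rfl, rfl, by push_cast; rfl, by push_cast; rfl,
          Or.inr ⟨δ, by ring⟩, Or.inl (by omega)⟩
      · obtain ⟨e0, e1, e2, e3⟩ := upd_d j k
        simp only [e0, e1, e2, e3, h0, h1, h2, h3]
        exact ⟨max a (c + j), max b (e - j), max a (c + j) - j, max b (e - j) + j,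
          by push_cast; rfl, by push_cast; rfl, by push_cast; rfl, by push_cast; rfl,
          Or.inl (by omega), Or.inl (by omega)⟩
    · obtain ⟨e0, e1, e2, e3⟩ := upd_v d j k
      obtain ⟨δ, d1, d2⟩ := dl_int (j := j) i1
      simp only [e0, e1, e2, e3, h0, h1, h2, h3, d1]
      exact ⟨δ - j, δ + j, c, e, by push_cast; rfl, by push_cast; rfl, rfl, rfl,
        Or.inl (by omega), Or.inr ⟨δ, by ring⟩⟩

theorem D_int (x y : XZ) : ∃ n : ℕ, D d x.toX y.toX = n := by
  obtain ⟨a, b, c, e, h0, h1, h2, h3, -, -⟩ := KK_int (d := d) x y.1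
  have h : D d x.toX y.toX =
      ((max (max (a + y.2.1) (b - y.2.1)) (max (c + y.2.2) (e - y.2.2)) : ℤ) : ℝ) := by
    show ev (KK d x.toX y.1) _ = _
    unfold ev
    rw [h0, h1, h2, h3]
    push_cast
    rfl
  have h' := D_nonneg (d := d) x.toX y.toX
  rw [h] at h' ⊢
  have h'' : 0 ≤ (max (max (a + y.2.1) (b - y.2.1)) (max (c + y.2.2) (e - y.2.2)) : ℤ) := by
    exact_mod_cast h'
  obtain ⟨n, hn⟩ := Int.eq_ofNat_of_zero_le h''
  exact ⟨n, by rw [hn]; simp⟩

theorem exists_int_sep {ι : Type} (f g : ι → ℝ) (i0 : ι) (hf : ∀ i, ∃ a : ℤ, f i = a)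
    (h : ∀ i j, f j ≤ g i) : ∃ m : ℤ, (∀ j, f j ≤ m) ∧ ∀ i, (m : ℝ) ≤ g i := by
  obtain ⟨m, ⟨j, hj⟩, hm⟩ := Int.exists_greatest_of_bdd (P := fun a => ∃ j, f j = a)
    ⟨⌊g i0⌋, fun z ⟨j, hj⟩ => Int.le_floor.2 (hj ▸ h i0 j)⟩ (by
      obtain ⟨a, ha⟩ := hf i0
      exact ⟨a, i0, ha⟩)
  refine ⟨m, fun i => ?_, fun i => hj ▸ h i j⟩
  obtain ⟨a, ha⟩ := hf i
  rw [ha]
  exact_mod_cast hm a ⟨i, ha⟩

theorem hyperconvex_int {ι : Type} (x : ι → XZ) (r : ι → ℕ) (i0 : ι)
    (h : ∀ i j, D d (x i).toX (x j).toX ≤ r i + r j) :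
    ∃ z : XZ, ∀ i, D d (x i).toX z.toX ≤ r i := by
  obtain ⟨W, hW⟩ := exists_good_plane (fun i => (x i).toX) (fun i => (r i : ℝ)) i0 h
  obtain ⟨m, m1, m2⟩ := exists_int_sep (fun j => KK d (x j).toX W 1 - r j)
    (fun i => r i - KK d (x i).toX W 0) i0 (fun i => by
      obtain ⟨a, b, c, e, h0, h1, h2, h3, -, -⟩ := KK_int (d := d) (x i) W
      exact ⟨b - r i, by rw [h1]; push_cast; rfl⟩) (fun i j => by have := (hW i j).1; linarith)
  obtain ⟨n, n1, n2⟩ := exists_int_sep (fun j => KK d (x j).toX W 3 - r j)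
    (fun i => r i - KK d (x i).toX W 2) i0 (fun i => by
      obtain ⟨a, b, c, e, h0, h1, h2, h3, -, -⟩ := KK_int (d := d) (x i) W
      exact ⟨e - r i, by rw [h3]; push_cast; rfl⟩) (fun i j => by have := (hW i j).2; linarith)
  refine ⟨(W, (m, n)), fun i => ?_⟩
  have a1 := m1 i
  have a2 := m2 i
  have a3 := n1 i
  have a4 := n2 i
  show ev (KK d (x i).toX W) ((m : ℝ), (n : ℝ)) ≤ _
  rw [ev_le_iff]
  refine ⟨?_, ?_, ?_, ?_⟩ <;> simp only <;> linarith only [a2, a1, a4, a3]

/-- Geodesics extend to a nearby integer point. -/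
theorem exists_ext (x y : X) :
    ∃ v : XZ, v.1 = y.1 ∧ D d y v.toX ≤ 2 ∧ D d x v.toX = D d x y + D d y v.toX := by
  obtain ⟨W, p⟩ := y
  have key : ∀ a b : ℤ, dist p ((a : ℝ), (b : ℝ)) ≤ 2 →
      D d x (W, p) + dist p ((a : ℝ), (b : ℝ)) ≤ ev (KK d x W) ((a : ℝ), (b : ℝ)) →
      ∃ v : XZ, v.1 = W ∧ D d (W, p) v.toX ≤ 2 ∧ D d x v.toX = D d x (W, p) + D d (W, p) v.toX := by
    intro a b h1 h2
    have e : D d (W, p) (XZ.toX (W, (a, b))) = dist p ((a : ℝ), (b : ℝ)) := D_plane W _ _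
    refine ⟨(W, (a, b)), rfl, e ▸ h1, le_antisymm (D_triangle _ _ _) ?_⟩
    rw [e]
    exact h2
  have f1 := Int.floor_le p.1
  have f2 := Int.lt_floor_add_one p.1
  have f3 := Int.floor_le p.2
  have f4 := Int.lt_floor_add_one p.2
  have hD : D d x (W, p) = ev (KK d x W) p := rfl
  have hc : ev (KK d x W) p = KK d x W 0 + p.1 ∨ ev (KK d x W) p = KK d x W 1 - p.1 ∨
      ev (KK d x W) p = KK d x W 2 + p.2 ∨ ev (KK d x W) p = KK d x W 3 - p.2 := by
    unfold ev
    rcases max_choice (max (KK d x W 0 + p.1) (KK d x W 1 - p.1))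
      (max (KK d x W 2 + p.2) (KK d x W 3 - p.2)) with h | h <;> rw [h]
    · rcases max_choice (KK d x W 0 + p.1) (KK d x W 1 - p.1) with h | h <;> simp [h]
    · rcases max_choice (KK d x W 2 + p.2) (KK d x W 3 - p.2) with h | h <;> simp [h]
  rcases hc with h | h | h | h
  · have b : dist p (((⌊p.1⌋ + 2 : ℤ) : ℝ), ((⌊p.2⌋ : ℤ) : ℝ)) ≤ ⌊p.1⌋ + 2 - p.1 := by
      rw [dist_le_iff2]; push_cast; refine ⟨?_, ?_, ?_, ?_⟩ <;> linarith only [f2, f4, f3]
    refine key _ _ (b.trans (by linarith)) (le_trans ?_ (le_ev _ _).1)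
    rw [hD, h]; push_cast at b ⊢; linarith
  · have b : dist p (((⌊p.1⌋ - 1 : ℤ) : ℝ), ((⌊p.2⌋ : ℤ) : ℝ)) ≤ p.1 - (⌊p.1⌋ - 1) := by
      rw [dist_le_iff2]; push_cast; refine ⟨?_, ?_, ?_, ?_⟩ <;> linarith only [f1, f4, f3]
    refine key _ _ (b.trans (by linarith)) (le_trans ?_ (le_ev _ _).2.1)
    rw [hD, h]; push_cast at b ⊢; linarith
  · have b : dist p (((⌊p.1⌋ : ℤ) : ℝ), ((⌊p.2⌋ + 2 : ℤ) : ℝ)) ≤ ⌊p.2⌋ + 2 - p.2 := by
      rw [dist_le_iff2]; push_cast; refine ⟨?_, ?_, ?_, ?_⟩ <;> linarith only [f2, f4, f1]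
    refine key _ _ (b.trans (by linarith)) (le_trans ?_ (le_ev _ _).2.2.1)
    rw [hD, h]; push_cast at b ⊢; linarith
  · have b : dist p (((⌊p.1⌋ : ℤ) : ℝ), ((⌊p.2⌋ - 1 : ℤ) : ℝ)) ≤ p.2 - (⌊p.2⌋ - 1) := by
      rw [dist_le_iff2]; push_cast; refine ⟨?_, ?_, ?_, ?_⟩ <;> linarith only [f2, f3, f1]
    refine key _ _ (b.trans (by linarith only [f4])) (le_trans ?_ (le_ev _ _).2.2.2)
    rw [hD, h]; push_cast at b ⊢; linarith

theorem finite_int_ball (x : X) (R : ℝ) : {v : XZ | D d x v.toX ≤ R}.Finite := by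
  obtain ⟨N, hN⟩ : ∃ N : ℤ, R + |x.2.1| + |x.2.2| ≤ N := ⟨_, Int.le_ceil _⟩
  refine ((finite_planes (d := d) x R).prod
    ((Set.finite_Icc (-N) N).prod (Set.finite_Icc (-N) N))).subset ?_
  rintro ⟨W, a, b⟩ hv
  have hv' : D d x (W, ((a : ℝ), (b : ℝ))) ≤ R := hv
  obtain ⟨a1, a2, a3, a4⟩ := dist_le_iff2.1 ((dev_le _ _).trans hv')
  simp only at a1 a2 a3 a4
  have b1 := le_abs_self x.2.1
  have b2 := neg_abs_le x.2.1
  have b3 := le_abs_self x.2.2
  have b4 := neg_abs_le x.2.2
  have b5 := abs_nonneg x.2.1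
  have b6 := abs_nonneg x.2.2
  refine ⟨⟨_, hv'⟩, ⟨?_, ?_⟩, ?_, ?_⟩
  · have : ((-N : ℤ) : ℝ) ≤ a := by push_cast; linarith only [hN, a1, b2, b3, b4]
    exact_mod_cast this
  · have : (a : ℝ) ≤ N := by linarith only [hN, a2, b1, b3, b4]
    exact_mod_cast this
  · have : ((-N : ℤ) : ℝ) ≤ b := by push_cast; linarith only [hN, a3, b1, b2, b4]
    exact_mod_cast this
  · have : (b : ℝ) ≤ N := by linarith only [hN, a4, b1, b2, b3]
    exact_mod_cast this

end Pool.Agent.Work.MP_f8dec8_al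
end

-- merged part: Pool.Agent.Work.MP_f8dec8_al.HullMid
section
/-! A conical midpoint map on the injective hull (Dress retraction). -/

namespace Pool.Agent.Work.MP_f8dec8_al

open Set Filter Topology

variable {V : Type} (Γ : SimpleGraph V)

def Dl (f : V → ℝ) : Prop := ∀ u v, (Γ.dist u v : ℝ) ≤ f u + f v

noncomputable def starF (f : V → ℝ) (u : V) : ℝ := ⨆ v, (Γ.dist u v : ℝ) - f v

noncomputable def qF (f : V → ℝ) (u : V) : ℝ := (f u + starF Γ f u) / 2

noncomputable def pF (f : V → ℝ) (u : V) : ℝ := ⨅ n : ℕ, (qF Γ)^[n] f u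

variable {Γ}

theorem le_starF {f : V → ℝ} (hf : Dl Γ f) (u v : V) : (Γ.dist u v : ℝ) - f v ≤ starF Γ f u :=
  le_ciSup (f := fun v => (Γ.dist u v : ℝ) - f v)
    ⟨f u, by rintro _ ⟨w, rfl⟩; have := hf u w; show _ - _ ≤ _; linarith⟩ v

theorem starF_le {f : V → ℝ} {u : V} {b : ℝ} (h : ∀ v, (Γ.dist u v : ℝ) - f v ≤ b) :
    starF Γ f u ≤ b := by
  have : Nonempty V := ⟨u⟩
  exact ciSup_le h

theorem Dl.qF {f : V → ℝ} (hf : Dl Γ f) : Dl Γ (qF Γ f) := by
  intro u v
  have h1 := le_starF hf u v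
  have h2 := le_starF hf v u
  rw [Γ.dist_comm (u := v) (v := u)] at h2
  simp only [MP_f8dec8_al.qF]
  linarith only [h1, h2]

theorem Dl.qF_le {f : V → ℝ} (hf : Dl Γ f) (u : V) : MP_f8dec8_al.qF Γ f u ≤ f u := by
  have : starF Γ f u ≤ f u := starF_le fun v => by have := hf u v; linarith
  simp only [MP_f8dec8_al.qF]
  linarith only [this]

theorem Dl.iter {f : V → ℝ} (hf : Dl Γ f) (n : ℕ) : Dl Γ ((MP_f8dec8_al.qF Γ)^[n] f) := by
  induction n with
  | zero => exact hf
  | succ n ih => rw [Function.iterate_succ_apply']; exact ih.qF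

theorem Dl.bdd {f : V → ℝ} (hf : Dl Γ f) (u : V) :
    BddBelow (range fun n : ℕ => (MP_f8dec8_al.qF Γ)^[n] f u) := by
  refine ⟨0, ?_⟩
  rintro _ ⟨n, rfl⟩
  have := hf.iter n u u
  simp only [SimpleGraph.dist_self, Nat.cast_zero] at this
  show 0 ≤ _
  linarith

theorem Dl.tendsto {f : V → ℝ} (hf : Dl Γ f) (u : V) :
    Tendsto (fun n : ℕ => (MP_f8dec8_al.qF Γ)^[n] f u) atTop (𝓝 (pF Γ f u)) := by
  refine tendsto_atTop_ciInf (antitone_nat_of_succ_le fun n => ?_) (hf.bdd u)
  rw [Function.iterate_succ_apply']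
  exact (hf.iter n).qF_le u

theorem Dl.isLUB {f : V → ℝ} (hf : Dl Γ f) (u : V) :
    IsLUB (Set.range fun v => (Γ.dist u v : ℝ) - pF Γ f v) (pF Γ f u) := by
  constructor
  · rintro _ ⟨v, rfl⟩
    have : (Γ.dist u v : ℝ) ≤ pF Γ f u + pF Γ f v :=
      ge_of_tendsto' ((hf.tendsto u).add (hf.tendsto v)) fun n => hf.iter n u v
    show _ - _ ≤ _
    linarith
  · intro b hb
    have h1 : ∀ n : ℕ, 2 * (MP_f8dec8_al.qF Γ)^[n + 1] f u - (MP_f8dec8_al.qF Γ)^[n] f u ≤ b := by
      intro n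
      have h2 : starF Γ ((MP_f8dec8_al.qF Γ)^[n] f) u ≤ b := starF_le fun v => by
        have a1 : (Γ.dist u v : ℝ) - pF Γ f v ≤ b := hb ⟨v, rfl⟩
        have a2 : pF Γ f v ≤ (MP_f8dec8_al.qF Γ)^[n] f v := ciInf_le (hf.bdd v) n
        linarith
      rw [Function.iterate_succ_apply']
      simp only [MP_f8dec8_al.qF] at h2 ⊢
      linarith only [h2]
    have h3 := (((hf.tendsto u).comp (tendsto_add_atTop_nat 1)).const_mul 2).sub (hf.tendsto u)
    have := le_of_tendsto' h3 h1
    linarith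

theorem qF_lip {f g : V → ℝ} {c : ℝ} (hg : Dl Γ g) (h1 : ∀ v, f v ≤ g v + c)
    (h2 : ∀ v, g v ≤ f v + c) (u : V) : qF Γ f u ≤ qF Γ g u + c := by
  have : starF Γ f u ≤ starF Γ g u + c := starF_le fun v => by
    have := le_starF hg u v
    have := h2 v
    linarith
  have := h1 u
  simp only [qF]
  linarith

theorem pF_lip {f g : V → ℝ} {c : ℝ} (hf : Dl Γ f) (hg : Dl Γ g) (h1 : ∀ v, f v ≤ g v + c)
    (h2 : ∀ v, g v ≤ f v + c) (u : V) : pF Γ f u ≤ pF Γ g u + c := by
  have key : ∀ n : ℕ, (∀ v, (qF Γ)^[n] f v ≤ (qF Γ)^[n] g v + c) ∧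
      ∀ v, (qF Γ)^[n] g v ≤ (qF Γ)^[n] f v + c := by
    intro n
    induction n with
    | zero => exact ⟨h1, h2⟩
    | succ n ih =>
      simp only [Function.iterate_succ_apply']
      exact ⟨qF_lip (hg.iter n) ih.1 ih.2, qF_lip (hf.iter n) ih.2 ih.1⟩
  exact le_of_tendsto_of_tendsto' (hf.tendsto u) ((hg.tendsto u).add_const c) fun n => (key n).1 u

theorem pF_hull (f : Hull Γ) : pF Γ f.1 = f.1 := by
  have h1 : qF Γ f.1 = f.1 := by
    funext u
    have : Nonempty V := ⟨u⟩
    have : starF Γ f.1 u = f.1 u := (f.2 u).ciSup_eq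
    simp only [qF, this]
    ring
  funext u
  simp only [pF, Function.iterate_fixed h1, ciInf_const]

theorem Hull.abs_le [hc : Fact Γ.Connected] (f g : Hull Γ) (v : V) :
    |f.1 v - g.1 v| ≤ dist f g :=
  le_ciSup (f.bdd hc.out g) v

theorem Hull.dist_le [hc : Fact Γ.Connected] {f g : Hull Γ} {c : ℝ}
    (h : ∀ v, |f.1 v - g.1 v| ≤ c) : dist f g ≤ c := by
  have := hc.out.nonempty
  exact ciSup_le h

theorem hull_midpoint [Fact Γ.Connected] : ∃ m : Hull Γ → Hull Γ → Hull Γ, (∀ x, m x x = x) ∧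
    ∀ x y x' y', dist (m x y) (m x' y') ≤ (dist x x' + dist y y') / 2 := by
  have hd : ∀ x y : Hull Γ, Dl Γ fun v => (x.1 v + y.1 v) / 2 := by
    intro x y u v
    have := x.le u v
    have := y.le u v
    show _ ≤ _ / 2 + _ / 2
    linarith
  refine ⟨fun x y => ⟨pF Γ fun v => (x.1 v + y.1 v) / 2, (hd x y).isLUB⟩, fun x => ?_, ?_⟩
  · apply Subtype.ext
    show pF Γ _ = x.1
    simp only [add_self_div_two]
    exact pF_hull x
  · intro x y x' y'
    have h1 : ∀ v, (x.1 v + y.1 v) / 2 ≤ (x'.1 v + y'.1 v) / 2 + (dist x x' + dist y y') / 2 := by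
      intro v
      have a1 := abs_le.1 (x.abs_le x' v)
      have a2 := abs_le.1 (y.abs_le y' v)
      linarith [a1.2, a2.2]
    have h2 : ∀ v, (x'.1 v + y'.1 v) / 2 ≤ (x.1 v + y.1 v) / 2 + (dist x x' + dist y y') / 2 := by
      intro v
      have a1 := abs_le.1 (x.abs_le x' v)
      have a2 := abs_le.1 (y.abs_le y' v)
      linarith [a1.1, a2.1]
    refine Hull.dist_le fun v => abs_le.2 ⟨?_, ?_⟩
    · have := pF_lip (hd x' y') (hd x y) h2 h1 v
      show _ ≤ pF Γ _ v - pF Γ _ v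
      linarith
    · have := pF_lip (hd x y) (hd x' y') h1 h2 v
      show pF Γ _ v - pF Γ _ v ≤ _
      linarith

end Pool.Agent.Work.MP_f8dec8_al
end

-- merged part: Pool.Agent.Work.MP_f8dec8_al.Exist
section
/-! Existence of a convex consistent reversible bicombing from a conical midpoint map. -/

namespace Pool.Agent.Work.MP_f8dec8_al

open Set Filter Topology

theorem locmid_nonpos {g : ℝ → ℝ} {a b : ℝ} (hab : a ≤ b) (hg : ContinuousOn g (Icc a b))
    (hloc : ∀ t ∈ Ioo a b, ∀ᶠ ε in 𝓝[>] (0 : ℝ), g t ≤ (g (t - ε) + g (t + ε)) / 2)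
    (ha : g a ≤ 0) (hb : g b ≤ 0) : ∀ t ∈ Icc a b, g t ≤ 0 := by
  obtain ⟨t1, ht1, hmax⟩ := isCompact_Icc.exists_isMaxOn (nonempty_Icc.2 hab) hg
  by_contra hcon
  push Not at hcon
  obtain ⟨t2, ht2, hpos⟩ := hcon
  have hM : 0 < g t1 := hpos.trans_le (hmax ht2)
  have hS : IsCompact (Icc a b ∩ g ⁻¹' {g t1}) :=
    isCompact_Icc.of_isClosed_subset
      (hg.preimage_isClosed_of_isClosed isClosed_Icc isClosed_singleton) inter_subset_left
  obtain ⟨t0, ⟨ht0, hg0⟩, hleast⟩ := hS.exists_isLeast ⟨t1, ht1, rfl⟩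
  have hg0' : g t0 = g t1 := hg0
  have h1 : a < t0 := lt_of_le_of_ne ht0.1 (by rintro rfl; linarith)
  have h2 : t0 < b := lt_of_le_of_ne ht0.2 (by rintro rfl; linarith)
  have e1 : ∀ᶠ ε in 𝓝[>] (0 : ℝ), ε < min (t0 - a) (b - t0) :=
    nhdsWithin_le_nhds (Iio_mem_nhds (by simp [h1, h2]))
  obtain ⟨ε, ⟨h3, h4⟩, h5⟩ := (((hloc t0 ⟨h1, h2⟩).and e1).and self_mem_nhdsWithin).exists
  have h5' : 0 < ε := h5
  rw [lt_min_iff] at h4
  have m1 : t0 - ε ∈ Icc a b := ⟨by linarith only [h4, h4.1], by linarith only [h5, h4]⟩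
  have m2 : t0 + ε ∈ Icc a b := ⟨by linarith only [h5, h4], by linarith only [h4, h4.2]⟩
  have k1 : g (t0 - ε) ≤ g t1 := hmax m1
  have k2 : g (t0 + ε) ≤ g t1 := hmax m2
  have k3 : g (t0 - ε) ≠ g t1 := fun h => by
    have := hleast ⟨m1, h⟩
    linarith
  have k4 := lt_of_le_of_ne k1 k3
  linarith only [hg0', h3, k2, k4]

theorem cmb_mem {a b s t : ℝ} (hab : a ≤ b) (hs : 0 ≤ s) (ht : 0 ≤ t) (hst : s + t = 1) :
    s * a + t * b ∈ Icc a b := by
  have e : s = 1 - t := by linarith only [hst]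
  subst e
  constructor <;> linarith only [hab, ht, hs, mul_nonneg_of_nonpos_of_nonpos (Mathlib.Tactic.Linarith.sub_nonpos_of_le hab) (Mathlib.Tactic.Linarith.sub_nonpos_of_le ht), mul_nonneg_of_nonpos_of_nonpos (Mathlib.Tactic.Linarith.sub_nonpos_of_le hab) (Mathlib.Tactic.Linarith.sub_nonpos_of_le hs)]

variable {Y : Type} [MetricSpace Y]

/-- Straight curves. -/
def Str (c : ℝ → Y) : Prop :=
  ContinuousOn c (Icc 0 1) ∧ ∀ z, ConvexOn ℝ (Icc (0 : ℝ) 1) fun t => dist z (c t)

/-- The local inequality of Descombes and Lang. -/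
def LocIneq (Y : Type) [MetricSpace Y] : Prop :=
  ∀ x0 y0 : Y, ∀ᶠ p in 𝓝 (x0, y0), dist x0 y0 + dist p.1 p.2 ≤ dist p.1 y0 + dist x0 p.2

theorem locIneq_of_finite
    (h : ∀ y0 : Y, ∃ F : Set Y, F.Finite ∧ ∀ x y, dist y y0 < 1 →
      ∃ v ∈ F, dist x v = dist x y + dist y v) : LocIneq Y := by
  intro x0 y0
  obtain ⟨F, hF, hv⟩ := h y0
  have e1 : ∀ᶠ p : Y × Y in 𝓝 (x0, y0), dist p.2 y0 < 1 := by
    have : Continuous fun p : Y × Y => dist p.2 y0 := by fun_prop
    exact this.continuousAt.eventually_lt continuousAt_const (by simp)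
  have e2 : ∀ᶠ p : Y × Y in 𝓝 (x0, y0), ∀ v ∈ F, dist x0 v < dist x0 y0 + dist y0 v →
      dist p.1 v < dist p.1 p.2 + dist p.2 v := by
    rw [hF.eventually_all]
    intro v _
    by_cases hlt : dist x0 v < dist x0 y0 + dist y0 v
    · have c1 : Continuous fun p : Y × Y => dist p.1 v := by fun_prop
      have c2 : Continuous fun p : Y × Y => dist p.1 p.2 + dist p.2 v := by fun_prop
      filter_upwards [c1.continuousAt.eventually_lt c2.continuousAt hlt] with p hp _ using hp
    · exact Eventually.of_forall fun p h => absurd h hlt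
  filter_upwards [e1, e2] with p h1 h2
  obtain ⟨v, hvF, hv⟩ := hv p.1 p.2 h1
  have h3 : dist x0 y0 + dist y0 v ≤ dist x0 v := by
    by_contra hc
    have := h2 v hvF (not_le.1 hc)
    linarith
  have h4 := dist_triangle p.1 y0 v
  have h5 := dist_triangle x0 p.2 v
  linarith

theorem Str.mid {c : ℝ → Y} (hc : Str c) (z : Y) {t ε : ℝ} (h1 : t - ε ∈ Icc (0 : ℝ) 1)
    (h2 : t + ε ∈ Icc (0 : ℝ) 1) :
    dist z (c t) ≤ (dist z (c (t - ε)) + dist z (c (t + ε))) / 2 := by
  have := (hc.2 z).2 h1 h2 (show (0 : ℝ) ≤ 1 / 2 by norm_num) (show (0 : ℝ) ≤ 1 / 2 by norm_num)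
    (by norm_num)
  simp only [smul_eq_mul] at this
  rw [show 1 / 2 * (t - ε) + 1 / 2 * (t + ε) = t by ring] at this
  linarith only [this]

theorem Str.convex (hL : LocIneq Y) {c c' : ℝ → Y} (hc : Str c) (hc' : Str c') :
    ConvexOn ℝ (Icc (0 : ℝ) 1) fun t => dist (c t) (c' t) := by
  refine LinearOrder.convexOn_of_lt (convex_Icc 0 1) ?_
  intro a ha b hb hab s t hs ht hst
  simp only [smul_eq_mul]
  have hsub : Icc a b ⊆ Icc (0 : ℝ) 1 := Icc_subset_Icc ha.1 hb.2
  have hba : 0 < b - a := sub_pos.2 hab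
  have key := locmid_nonpos (g := fun r => dist (c r) (c' r) -
      (((b - r) * dist (c a) (c' a) + (r - a) * dist (c b) (c' b)) / (b - a))) hab.le ?_ ?_ ?_ ?_
      (s * a + t * b) (cmb_mem hab.le hs.le ht.le hst)
  · have e : ((b - (s * a + t * b)) * dist (c a) (c' a) + (s * a + t * b - a) * dist (c b) (c' b))
        / (b - a) = s * dist (c a) (c' a) + t * dist (c b) (c' b) := by
      rw [div_eq_iff hba.ne']
      have : s = 1 - t := by linarith only [hst]
      subst this
      ring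
    simp only [e] at key
    linarith
  · exact (continuous_dist.comp_continuousOn ((hc.1.mono hsub).prodMk (hc'.1.mono hsub))).sub
      (by fun_prop)
  · intro r hr
    have hr0 : 0 < r := lt_of_le_of_lt ha.1 hr.1
    have hr1 : r < 1 := lt_of_lt_of_le hr.2 hb.2
    have hn : Icc (0 : ℝ) 1 ∈ 𝓝 r := Icc_mem_nhds hr0 hr1
    have t1 : Tendsto (fun ε : ℝ => r + ε) (𝓝[>] 0) (𝓝 r) := by
      have : Tendsto (fun ε : ℝ => r + ε) (𝓝 0) (𝓝 (r + 0)) :=
        (continuous_const.add continuous_id).tendsto 0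
      rw [add_zero] at this
      exact this.mono_left nhdsWithin_le_nhds
    have t2 : Tendsto (fun ε : ℝ => r - ε) (𝓝[>] 0) (𝓝 r) := by
      have : Tendsto (fun ε : ℝ => r - ε) (𝓝 0) (𝓝 (r - 0)) :=
        (continuous_const.sub continuous_id).tendsto 0
      rw [sub_zero] at this
      exact this.mono_left nhdsWithin_le_nhds
    have t3 := ((hc.1.continuousAt hn).tendsto.comp t1).prodMk_nhds
      ((hc'.1.continuousAt hn).tendsto.comp t2)
    filter_upwards [t3 (hL (c r) (c' r)), t1 hn, t2 hn] with ε h1 h2 h3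
    have h1' : dist (c r) (c' r) + dist (c (r + ε)) (c' (r - ε)) ≤
      dist (c (r + ε)) (c' r) + dist (c r) (c' (r - ε)) := h1
    have h4 := hc'.mid (c (r + ε)) h3 h2
    have h5 := hc.mid (c' (r - ε)) h3 h2
    rw [dist_comm (c' (r - ε)), dist_comm (c' (r - ε)), dist_comm (c' (r - ε))] at h5
    have e : ((b - (r - ε)) * dist (c a) (c' a) + (r - ε - a) * dist (c b) (c' b)) / (b - a) +
        ((b - (r + ε)) * dist (c a) (c' a) + (r + ε - a) * dist (c b) (c' b)) / (b - a) =
        2 * (((b - r) * dist (c a) (c' a) + (r - a) * dist (c b) (c' b)) / (b - a)) := by ring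
    linarith only [h1', h4, h5, e]
  · simp only [sub_self, zero_mul, add_zero]
    rw [mul_div_cancel_left₀ _ hba.ne']
    simp
  · simp only [sub_self, zero_mul, zero_add]
    rw [mul_div_cancel_left₀ _ hba.ne']
    simp

theorem Str.unique (hL : LocIneq Y) {c c' : ℝ → Y} (hc : Str c) (hc' : Str c')
    (h0 : c 0 = c' 0) (h1 : c 1 = c' 1) : ∀ t ∈ Icc (0 : ℝ) 1, c t = c' t := by
  intro t ht
  have := (hc.convex hL hc').2 (left_mem_Icc.2 zero_le_one) (right_mem_Icc.2 zero_le_one)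
    (show 0 ≤ 1 - t by linarith [ht.2]) ht.1 (by ring)
  simp only [smul_eq_mul, mul_zero, mul_one, zero_add, h0, h1, dist_self, add_zero] at this
  exact dist_le_zero.1 this

theorem Str.comp {c : ℝ → Y} (hc : Str c) {s t : ℝ} (hs : s ∈ Icc (0 : ℝ) 1)
    (ht : t ∈ Icc (0 : ℝ) 1) : Str fun u => c ((1 - u) * s + u * t) := by
  have hm : ∀ u ∈ Icc (0 : ℝ) 1, (1 - u) * s + u * t ∈ Icc (0 : ℝ) 1 := fun u hu =>
    ⟨by linarith only [hu, ht, hs, hu.1, hu.2, hs.1, ht.1, mul_nonneg_of_nonpos_of_nonpos (Mathlib.Tactic.Linarith.sub_nonpos_of_le hu.left) (Mathlib.Tactic.Linarith.sub_nonpos_of_le ht.left), mul_nonneg_of_nonpos_of_nonpos (Mathlib.Tactic.Linarith.sub_nonpos_of_le hu.right) (Mathlib.Tactic.Linarith.sub_nonpos_of_le hs.left)], by nlinarith [hu.1, hu.2, hs.2, ht.2]⟩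
  refine ⟨hc.1.comp (by fun_prop) hm, fun z => ⟨convex_Icc 0 1, ?_⟩⟩
  intro u hu v hv a b ha hb hab
  have := (hc.2 z).2 (hm u hu) (hm v hv) ha hb hab
  simp only [smul_eq_mul] at this ⊢
  have e : (1 - (a * u + b * v)) * s + (a * u + b * v) * t =
      a * ((1 - u) * s + u * t) + b * ((1 - v) * s + v * t) := by
    have : a = 1 - b := by linarith
    subst this
    ring
  rw [e]
  exact this

theorem exists_bicombing_of_str (hL : LocIneq Y)
    (hex : ∀ x y : Y, ∃ c : ℝ → Y, c 0 = x ∧ c 1 = y ∧ Str c ∧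
      ∀ s ∈ Icc (0 : ℝ) 1, ∀ t ∈ Icc (0 : ℝ) 1, dist (c s) (c t) ≤ |s - t| * dist x y) :
    ∃ σ : Y → Y → ℝ → Y, IsBicombing σ := by
  choose σ h0 h1 hs hl using hex
  refine ⟨σ, h0, h1, ?_, fun x y x' y' => (hs x y).convex hL (hs x' y'), ?_, ?_⟩
  · have key : ∀ x y, ∀ s ∈ Icc (0 : ℝ) 1, ∀ t ∈ Icc (0 : ℝ) 1, s ≤ t →
        dist (σ x y s) (σ x y t) = |s - t| * dist x y := by
      intro x y s hs' t ht hst
      refine le_antisymm (hl x y s hs' t ht) ?_
      have a1 := hl x y 0 (left_mem_Icc.2 zero_le_one) s hs'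
      have a2 := hl x y t ht 1 (right_mem_Icc.2 zero_le_one)
      have a3 := dist_triangle4 x (σ x y s) (σ x y t) y
      rw [h0, abs_of_nonpos (by linarith [hs'.1])] at a1
      rw [h1, abs_of_nonpos (by linarith [ht.2])] at a2
      rw [abs_of_nonpos (by linarith only [hst])]
      linarith
    intro x y s hs' t ht
    rcases le_total s t with h | h
    · exact key x y s hs' t ht h
    · rw [dist_comm, abs_sub_comm]
      exact key x y t ht s hs' h
  · intro x y s hs' t ht _ u hu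
    exact (hs _ _).unique hL ((hs x y).comp hs' ht) (by simp [h0]) (by simp [h1]) u hu
  · intro x y t ht
    have := (hs x y).unique hL ((hs y x).comp (right_mem_Icc.2 zero_le_one)
      (left_mem_Icc.2 zero_le_one)) (by simp [h0, h1]) (by simp [h0, h1]) t ht
    simpa using this

theorem disc_convex {a : ℕ → ℝ} {n : ℕ}
    (h : ∀ i, i + 2 ≤ n → a (i + 1) ≤ (a i + a (i + 2)) / 2) {i j k : ℕ} (hij : i ≤ j)
    (hjk : j ≤ k) (hk : k ≤ n) :
    ((k : ℝ) - i) * a j ≤ ((k : ℝ) - j) * a i + ((j : ℝ) - i) * a k := by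
  rcases eq_or_lt_of_le hjk with rfl | hlt
  · simp
  have mono : ∀ d i, i + d + 1 ≤ n → a (i + 1) - a i ≤ a (i + d + 1) - a (i + d) := by
    intro d
    induction d with
    | zero => intro i _; simp
    | succ d ih =>
      intro i hi
      have h1 := ih i (by omega)
      have h2 := h (i + d) (by omega)
      have e1 : i + (d + 1) + 1 = i + d + 2 := by ring
      have e2 : i + (d + 1) = i + d + 1 := by ring
      rw [e1, e2]
      linarith only [h1, h2]
  have up : ∀ d, j + d ≤ n → d * (a (j + 1) - a j) ≤ a (j + d) - a j := by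
    intro d
    induction d with
    | zero => intro _; simp
    | succ d ih =>
      intro hd
      have h1 := ih (by omega)
      have h2 := mono d j (by omega)
      rw [← add_assoc]
      push_cast
      linarith only [h1, h2]
  have down : ∀ d i, i + d = j → a j - a i ≤ d * (a (j + 1) - a j) := by
    intro d
    induction d with
    | zero => intro i hi; simp [← hi]
    | succ d ih =>
      intro i hi
      have h1 := ih (i + 1) (by omega)
      have h2 := mono (d + 1) i (by omega)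
      rw [hi] at h2
      push_cast
      linarith only [h1, h2]
  obtain ⟨d, rfl⟩ := Nat.exists_eq_add_of_le hij
  obtain ⟨e, rfl⟩ := Nat.exists_eq_add_of_le hjk
  have h1 := up e hk
  have h2 := down d i rfl
  have hd : (0 : ℝ) ≤ d := Nat.cast_nonneg d
  have he : (0 : ℝ) ≤ e := Nat.cast_nonneg e
  push_cast
  linarith only [h1, hd, h2, he, mul_le_mul_of_nonneg_left h1 hd, mul_le_mul_of_nonneg_left h2 he]

/-- Chains of midpoints. -/
theorem exists_chain [CompleteSpace Y] {m : Y → Y → Y}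
    (hm : ∀ x y x' y', dist (m x y) (m x' y') ≤ (dist x x' + dist y y') / 2) (x y : Y) (n : ℕ)
    (hn : 0 < n) : ∃ p : ℕ → Y, p 0 = x ∧ p n = y ∧
      ∀ i, i + 2 ≤ n → p (i + 1) = m (p i) (p (i + 2)) := by
  have : Nonempty Y := ⟨x⟩
  let ex : (Fin (n + 1) → Y) → ℕ → Y := fun p i => if h : i < n + 1 then p ⟨i, h⟩ else y
  let T : (Fin (n + 1) → Y) → Fin (n + 1) → Y := fun p i =>
    if i.val = 0 then x else if i.val = n then y else m (ex p (i.val - 1)) (ex p (i.val + 1))
  let w : ℕ → ℝ := fun i => ((i : ℝ) + 1) * ((n : ℝ) + 1 - i)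
  let M : ℝ := ((n : ℝ) + 1) ^ 2
  have hn0 : (0 : ℝ) ≤ n := Nat.cast_nonneg n
  have hM : 1 ≤ M := by simp only [M]; linarith only [mul_nonneg_of_nonpos_of_nonpos (Mathlib.Tactic.Linarith.sub_nonpos_of_le (Mathlib.Tactic.Linarith.natCast_nonneg ℝ n)) (Mathlib.Tactic.Linarith.sub_nonpos_of_le (Mathlib.Tactic.Linarith.natCast_nonneg ℝ n))]
  have hw1 : ∀ i, i ≤ n → 1 ≤ w i := by
    intro i hi
    have h1 : (i : ℝ) ≤ n := by exact_mod_cast hi
    have h2 : (0 : ℝ) ≤ i := Nat.cast_nonneg i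
    simp only [w]
    linarith only [h1, mul_nonneg_of_nonpos_of_nonpos (Mathlib.Tactic.Linarith.sub_nonpos_of_le (Mathlib.Tactic.Linarith.natCast_nonneg ℝ i)) (Mathlib.Tactic.Linarith.sub_nonpos_of_le h1)]
  have hwM : ∀ i, i ≤ n → w i ≤ M := by
    intro i hi
    have h1 : (i : ℝ) ≤ n := by exact_mod_cast hi
    have h2 : (0 : ℝ) ≤ i := Nat.cast_nonneg i
    simp only [w, M]
    linarith only [h1, mul_nonneg_of_nonpos_of_nonpos (Mathlib.Tactic.Linarith.sub_nonpos_of_le (Mathlib.Tactic.Linarith.natCast_nonneg ℝ n)) (Mathlib.Tactic.Linarith.sub_nonpos_of_le h1), mul_nonneg_of_nonpos_of_nonpos (Mathlib.Tactic.Linarith.sub_nonpos_of_le (Mathlib.Tactic.Linarith.natCast_nonneg ℝ i)) (Mathlib.Tactic.Linarith.sub_nonpos_of_le (Mathlib.Tactic.Linarith.natCast_nonneg ℝ i))]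
  set θ : ℝ := 1 - 1 / M with hθ
  have hθ0 : 0 ≤ θ := by
    have : 1 / M ≤ 1 := by rw [div_le_one (by linarith only [hM])]; exact hM
    linarith only [this]
  have hθ1 : θ < 1 := by
    have : 0 < 1 / M := by positivity
    linarith only [this]
  have est : ∀ k p q, ∀ i, i ≤ n →
      dist (ex (T^[k] p) i) (ex (T^[k] q) i) ≤ θ ^ k * w i * dist p q := by
    intro k p q
    induction k with
    | zero =>
      intro i hi
      have h1 : i < n + 1 := by omega
      simp only [ex, h1, dite_true, Function.iterate_zero, id, pow_zero, one_mul]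
      have := dist_le_pi_dist p q ⟨i, h1⟩
      nlinarith only [h1, this, hw1, hi, hw1 i hi, dist_nonneg (x := p) (y := q)]
    | succ k ih =>
      intro i hi
      have h1 : i < n + 1 := by omega
      have hpos : 0 ≤ θ ^ (k + 1) * w i * dist p q := by
        have := hw1 i hi
        positivity
      rw [Function.iterate_succ_apply', Function.iterate_succ_apply']
      generalize T^[k] p = P at ih
      generalize T^[k] q = Q at ih
      simp only [ex, h1, dite_true]
      simp only [T]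
      split_ifs with c1 c2
      · simpa using hpos
      · simpa using hpos
      · obtain ⟨j, rfl⟩ : ∃ j, i = j + 1 := ⟨i - 1, by omega⟩
        have a1 := ih j (by omega)
        have a2 := ih (j + 1 + 1) (by omega)
        have a3 := hm (ex P j) (ex P (j + 1 + 1)) (ex Q j) (ex Q (j + 1 + 1))
        have a4 : w j + w (j + 1 + 1) = 2 * w (j + 1) - 2 := by
          simp only [w]; push_cast; ring
        have a5 : w (j + 1) - 1 ≤ θ * w (j + 1) := by
          have : w (j + 1) / M ≤ 1 := by rw [div_le_one (by linarith only [hM])]; exact hwM _ hi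
          have e : θ * w (j + 1) = w (j + 1) - w (j + 1) / M := by rw [hθ]; ring
          linarith only [this, e]
        have a6 : 0 ≤ θ ^ k * dist p q := by positivity
        have a7 := mul_le_mul_of_nonneg_left a5 a6
        simp only [Nat.add_sub_cancel]
        refine a3.trans ?_
        have e : θ ^ (k + 1) * w (j + 1) * dist p q = θ ^ k * dist p q * (θ * w (j + 1)) := by ring
        rw [e]
        linarith only [a1, a2, a7, a4, a6, Mathlib.Tactic.Linarith.zero_mul_eq (sub_eq_zero_of_eq a4) (Mathlib.Tactic.Linarith.sub_nonpos_of_le a6)]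
  obtain ⟨k, hk⟩ : ∃ k : ℕ, θ ^ k < 1 / (2 * M) :=
    exists_pow_lt_of_lt_one (by positivity) hθ1
  have hc : ContractingWith (1 / 2) T^[k] := by
    refine ⟨by norm_num, LipschitzWith.of_dist_le_mul fun p q => ?_⟩
    have hd : 0 ≤ dist p q := dist_nonneg
    refine (dist_pi_le_iff (by positivity)).2 fun i => ?_
    have a1 := est k p q i.val (by omega)
    simp only [ex, i.2, dite_true] at a1
    refine a1.trans ?_
    have a2 : θ ^ k * w i ≤ 1 / 2 := by
      have b1 : θ ^ k * w i ≤ 1 / (2 * M) * M :=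
        mul_le_mul hk.le (hwM _ (by omega)) (by linarith only [hw1, hw1 i.val (by omega)]) (by positivity)
      have b2 : 1 / (2 * M) * M = 1 / 2 := by field_simp
      linarith only [b1, b2]
    simpa using mul_le_mul_of_nonneg_right a2 hd
  have hfix := hc.isFixedPt_fixedPoint_iterate
  generalize ContractingWith.fixedPoint (T^[k]) hc = p at hfix
  have hp : ∀ i, p i = T p i := fun i => (congrFun hfix i).symm
  refine ⟨ex p, ?_, ?_, ?_⟩
  · simp only [ex, Nat.zero_lt_succ, dite_true]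
    rw [hp]
    simp [T]
  · simp only [ex, Nat.lt_succ_self, dite_true]
    rw [hp]
    simp [T, hn.ne']
  · intro i hi
    have h1 : i + 1 < n + 1 := by omega
    have h2 : i + 1 ≠ n := by omega
    conv_lhs => simp only [ex, h1, dite_true]
    rw [hp]
    simp [T, h2]

theorem exists_str [ProperSpace Y] {m : Y → Y → Y} (hmx : ∀ x, m x x = x)
    (hm : ∀ x y x' y', dist (m x y) (m x' y') ≤ (dist x x' + dist y y') / 2) (x y : Y) :
    ∃ c : ℝ → Y, c 0 = x ∧ c 1 = y ∧ Str c ∧
      ∀ s ∈ Icc (0 : ℝ) 1, ∀ t ∈ Icc (0 : ℝ) 1, dist (c s) (c t) ≤ |s - t| * dist x y := by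
  have hz : ∀ z a b, dist z (m a b) ≤ (dist z a + dist z b) / 2 := fun z a b => by
    have := hm z z a b
    rwa [hmx] at this
  have h1 : ∀ n : ℕ, ∃ p : ℕ → Y, 0 < n → p 0 = x ∧ p n = y ∧
      (∀ z, ∀ i j k : ℕ, i ≤ j → j ≤ k → k ≤ n → ((k : ℝ) - i) * dist z (p j) ≤
        ((k : ℝ) - j) * dist z (p i) + ((j : ℝ) - i) * dist z (p k)) ∧
      ∀ i j : ℕ, i ≤ j → j ≤ n → dist (p i) (p j) ≤ ((j : ℝ) / n - i / n) * dist x y := by
    intro n
    rcases Nat.eq_zero_or_pos n with rfl | hn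
    · exact ⟨fun _ => x, fun h => absurd h (lt_irrefl 0)⟩
    obtain ⟨p, h0, hn', hp⟩ := exists_chain hm x y n hn
    have hc : ∀ z, ∀ i j k : ℕ, i ≤ j → j ≤ k → k ≤ n → ((k : ℝ) - i) * dist z (p j) ≤
        ((k : ℝ) - j) * dist z (p i) + ((j : ℝ) - i) * dist z (p k) := by
      intro z i j k hij hjk hk
      refine disc_convex (a := fun i => dist z (p i)) (n := n) ?_ hij hjk hk
      intro i hi
      show dist z (p (i + 1)) ≤ _
      rw [hp i hi]
      exact hz _ _ _
    refine ⟨p, fun _ => ⟨h0, hn', hc, ?_⟩⟩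
    have hnR : (0 : ℝ) < n := by exact_mod_cast hn
    have s0 : dist (p 0) (p 1) ≤ dist x y / n := by
      have := hc x 0 1 n zero_le_one hn le_rfl
      rw [h0, hn'] at this
      rw [h0, le_div_iff₀ hnR]
      simp at this
      linarith only [this]
    have s1 : ∀ i, i + 1 ≤ n → dist (p i) (p (i + 1)) ≤ dist x y / n := by
      intro i
      induction i with
      | zero => intro _; simpa using s0
      | succ i ih =>
        intro hi
        have a1 := ih (by omega)
        have a2 := hz (p (i + 2)) (p i) (p (i + 2))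
        rw [← hp i hi, dist_self] at a2
        have a3 := dist_triangle (p (i + 2)) (p (i + 1)) (p i)
        rw [dist_comm (p (i + 1)) (p i)] at a3
        rw [dist_comm]
        show dist (p (i + 2)) (p (i + 1)) ≤ _
        linarith only [a1, a2, a3]
    intro i j hij hj
    obtain ⟨d, rfl⟩ := Nat.exists_eq_add_of_le hij
    induction d with
    | zero => simp
    | succ d ih =>
      have a1 := ih (by omega) (by omega)
      have a2 := s1 (i + d) hj
      have a3 := dist_triangle (p i) (p (i + d)) (p (i + d + 1))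
      rw [← add_assoc]
      push_cast at a1 ⊢
      have e : (((i : ℝ) + d + 1) / n - i / n) * dist x y =
        ((i + d) / n - i / n) * dist x y + dist x y / n := by ring
      linarith only [a2, a3, a1, e]
  choose p hp using h1
  let U : Ultrafilter ℕ := hyperfilter ℕ
  have hU : (U : Filter ℕ) ≤ atTop := by
    rw [← Nat.cofinite_eq_atTop]; exact hyperfilter_le_cofinite
  have hpos : ∀ᶠ n in (U : Filter ℕ), 0 < n := hU (eventually_gt_atTop 0)
  have hfl : ∀ t ∈ Icc (0 : ℝ) 1, ∀ n : ℕ, ⌊t * n⌋₊ ≤ n := by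
    intro t ht n
    refine Nat.floor_le_of_le ?_
    have : (0 : ℝ) ≤ n := Nat.cast_nonneg n
    linarith only [ht, ht.2, mul_nonneg_of_nonpos_of_nonpos (Mathlib.Tactic.Linarith.sub_nonpos_of_le (Mathlib.Tactic.Linarith.natCast_nonneg ℝ n)) (Mathlib.Tactic.Linarith.sub_nonpos_of_le ht.right)]
  have hlim : ∀ t ∈ Icc (0 : ℝ) 1, Tendsto (fun n : ℕ => (⌊t * n⌋₊ : ℝ) / n) U (𝓝 t) :=
    fun t ht => ((tendsto_nat_floor_mul_div_atTop ht.1).comp tendsto_natCast_atTop_atTop).mono_left hU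
  have h2 : ∀ t : ℝ, ∃ z : Y, t ∈ Icc (0 : ℝ) 1 → Tendsto (fun n => p n ⌊t * n⌋₊) U (𝓝 z) := by
    intro t
    by_cases ht : t ∈ Icc (0 : ℝ) 1
    · obtain ⟨z, -, hz⟩ := (isCompact_closedBall x (dist x y)).ultrafilter_le_nhds
        (U.map fun n => p n ⌊t * n⌋₊) (by
          rw [Ultrafilter.coe_map, le_principal_iff, mem_map]
          filter_upwards [hpos] with n hn
          obtain ⟨a1, -, -, a2⟩ := hp n hn
          have a3 := a2 0 _ (Nat.zero_le _) (hfl t ht n)
          have hnR : (0 : ℝ) < n := by exact_mod_cast hn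
          have a4 : (⌊t * n⌋₊ : ℝ) / n ≤ 1 := by
            rw [div_le_one hnR]; exact_mod_cast hfl t ht n
          rw [a1] at a3
          simp only [Nat.cast_zero, zero_div, sub_zero] at a3
          show dist _ x ≤ _
          rw [dist_comm]
          nlinarith only [a3, a4, dist_nonneg (x := x) (y := y)])
      exact ⟨z, fun _ => hz⟩
    · exact ⟨x, fun h => absurd h ht⟩
  choose c hc using h2
  have hlip' : ∀ s ∈ Icc (0 : ℝ) 1, ∀ t ∈ Icc (0 : ℝ) 1, s ≤ t →
      dist (c s) (c t) ≤ |s - t| * dist x y := by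
    intro s hs t ht hst
    rw [abs_of_nonpos (by linarith), neg_sub]
    refine le_of_tendsto_of_tendsto ((hc s hs).dist (hc t ht))
      (((hlim t ht).sub (hlim s hs)).mul_const (dist x y)) ?_
    filter_upwards [hpos] with n hn
    exact (hp n hn).2.2.2 _ _ (Nat.floor_le_floor (by
      have : (0 : ℝ) ≤ n := Nat.cast_nonneg n
      nlinarith)) (hfl t ht n)
  have hlip : ∀ s ∈ Icc (0 : ℝ) 1, ∀ t ∈ Icc (0 : ℝ) 1,
      dist (c s) (c t) ≤ |s - t| * dist x y := by
    intro s hs t ht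
    rcases le_total s t with h | h
    · exact hlip' s hs t ht h
    · rw [dist_comm, abs_sub_comm]; exact hlip' t ht s hs h
  refine ⟨c, ?_, ?_, ⟨?_, ?_⟩, hlip⟩
  · refine tendsto_nhds_unique (hc 0 (left_mem_Icc.2 zero_le_one)) ?_
    refine tendsto_const_nhds.congr' ?_
    filter_upwards [hpos] with n hn
    simp [(hp n hn).1]
  · refine tendsto_nhds_unique (hc 1 (right_mem_Icc.2 zero_le_one)) ?_
    refine tendsto_const_nhds.congr' ?_
    filter_upwards [hpos] with n hn
    simp [(hp n hn).2.1]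
  · have : LipschitzOnWith (nndist x y) c (Icc 0 1) := by
      refine LipschitzOnWith.of_dist_le_mul fun s hs t ht => ?_
      rw [Real.dist_eq, mul_comm]
      exact hlip s hs t ht
    exact this.continuousOn
  · intro z
    refine LinearOrder.convexOn_of_lt (convex_Icc 0 1) ?_
    intro a ha b hb hab s t hs ht hst
    simp only [smul_eq_mul]
    have m1 : a ≤ s * a + t * b := (cmb_mem hab.le hs.le ht.le hst).1
    have m2 : s * a + t * b ≤ b := (cmb_mem hab.le hs.le ht.le hst).2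
    have hr : s * a + t * b ∈ Icc (0 : ℝ) 1 := ⟨ha.1.trans m1, m2.trans hb.2⟩
    have key : (b - a) * dist z (c (s * a + t * b)) ≤
        (b - (s * a + t * b)) * dist z (c a) + ((s * a + t * b) - a) * dist z (c b) := by
      refine le_of_tendsto_of_tendsto
        (((hlim b hb).sub (hlim a ha)).mul (tendsto_const_nhds.dist (hc _ hr)))
        ((((hlim b hb).sub (hlim _ hr)).mul (tendsto_const_nhds.dist (hc a ha))).add
          (((hlim _ hr).sub (hlim a ha)).mul (tendsto_const_nhds.dist (hc b hb)))) ?_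
      filter_upwards [hpos] with n hn
      have hnR : (0 : ℝ) < n := by exact_mod_cast hn
      have a1 := (hp n hn).2.2.1 z ⌊a * n⌋₊ ⌊(s * a + t * b) * n⌋₊ ⌊b * n⌋₊
        (Nat.floor_le_floor (by linarith only [m1, mul_nonneg_of_nonpos_of_nonpos (Mathlib.Tactic.Linarith.sub_nonpos_of_le (Mathlib.Tactic.Linarith.natCast_nonneg ℝ n)) (Mathlib.Tactic.Linarith.sub_nonpos_of_le m1)])) (Nat.floor_le_floor (by linarith only [m2, mul_nonneg_of_nonpos_of_nonpos (Mathlib.Tactic.Linarith.sub_nonpos_of_le (Mathlib.Tactic.Linarith.natCast_nonneg ℝ n)) (Mathlib.Tactic.Linarith.sub_nonpos_of_le m2)])) (hfl b hb n)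
      have a2 := div_le_div_of_nonneg_right a1 hnR.le
      refine le_of_eq_of_le ?_ (a2.trans (le_of_eq ?_)) <;> ring
    have hba : 0 < b - a := sub_pos.2 hab
    have e1 : b - (s * a + t * b) = (b - a) * s := by
      have : t = 1 - s := by linarith only [hst]
      subst this
      ring
    have e2 : s * a + t * b - a = (b - a) * t := by
      have : s = 1 - t := by linarith only [hst]
      subst this
      ring
    rw [e1, e2] at key
    refine le_of_mul_le_mul_left ?_ hba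
    linarith

theorem exists_bicombing [ProperSpace Y] (hL : LocIneq Y) {m : Y → Y → Y} (hmx : ∀ x, m x x = x)
    (hm : ∀ x y x' y', dist (m x y) (m x' y') ≤ (dist x x' + dist y y') / 2) :
    ∃ σ : Y → Y → ℝ → Y, IsBicombing σ :=
  exists_bicombing_of_str hL (exists_str hmx hm)

end Pool.Agent.Work.MP_f8dec8_al
end

-- merged part: Pool.Agent.Work.MP_f8dec8_al.Graph
section
/-! The two Helly graphs, the action and the identification of the injective hull. -/

namespace Pool.Agent.Work.MP_f8dec8_al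

variable {d : Bool}

theorem D_congr {x y y' : X} (h : D d y y' = 0) : D d x y = D d x y' := by
  have h1 := D_triangle (d := d) x y y'
  have h2 := D_triangle (d := d) x y' y
  rw [D_comm y' y] at h2
  linarith only [h, h1, h2]

def sZ (d : Bool) : Setoid XZ :=
  ⟨fun a b => D d a.toX b.toX = 0, fun _ => D_self _, fun h => by rwa [D_comm],
    fun h h' => by rwa [D_congr h'] at h⟩

def V (d : Bool) : Type := Quotient (sZ d)

def mkV (d : Bool) (a : XZ) : V d := Quotient.mk (sZ d) a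

noncomputable def rep (v : V d) : XZ := Quotient.out (s := sZ d) v

theorem mk_rep (v : V d) : mkV d (rep v) = v := Quotient.out_eq _

theorem D_rep (x : X) (a : XZ) : D d x (rep (mkV d a)).toX = D d x a.toX :=
  D_congr (Quotient.exact (mk_rep (mkV d a)))

noncomputable def dV (u v : V d) : ℝ := D d (rep u).toX (rep v).toX

theorem dV_mk (a b : XZ) : dV (mkV d a) (mkV d b) = D d a.toX b.toX := by
  unfold dV
  rw [D_rep, D_comm, D_rep, D_comm]

theorem dV_comm (u v : V d) : dV u v = dV v u := D_comm _ _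

theorem dV_self (u : V d) : dV u u = 0 := D_self _

theorem dV_triangle (u v w : V d) : dV u w ≤ dV u v + dV v w := D_triangle _ _ _

theorem eq_of_dV {u v : V d} (h : dV u v = 0) : u = v := by
  rw [← mk_rep u, ← mk_rep v]
  exact Quotient.sound h

def Gr (d : Bool) : SimpleGraph (V d) where
  Adj u v := dV u v = 1
  symm := ⟨fun u v h => by rwa [dV_comm]⟩
  loopless := ⟨fun u h => by rw [dV_self] at h; exact zero_ne_one h⟩

theorem walk_ge {u v : V d} (w : (Gr d).Walk u v) : dV u v ≤ w.length := by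
  induction w with
  | nil => simp [dV_self]
  | @cons a b c h w ih =>
    have h1 : dV a b = 1 := h
    have := dV_triangle a b c
    simp only [SimpleGraph.Walk.length_cons, Nat.cast_add, Nat.cast_one]
    linarith

theorem helly_dV {ι : Type} (x : ι → V d) (r : ι → ℕ) (i0 : ι)
    (h : ∀ i j, dV (x i) (x j) ≤ r i + r j) : ∃ z, ∀ i, dV (x i) z ≤ r i := by
  obtain ⟨z, hz⟩ := hyperconvex_int (d := d) (fun i => rep (x i)) r i0 h
  exact ⟨mkV d z, fun i => by unfold dV; rw [D_rep]; exact hz i⟩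

theorem exists_walk (n : ℕ) : ∀ u v : V d, dV u v = n → ∃ w : (Gr d).Walk u v, w.length = n := by
  induction n with
  | zero =>
    intro u v h
    obtain rfl := eq_of_dV (by simpa using h)
    exact ⟨.nil, rfl⟩
  | succ n ih =>
    intro u v h
    push_cast at h
    have hn : (0 : ℝ) ≤ n := Nat.cast_nonneg n
    obtain ⟨z, hz⟩ := helly_dV (fun b : Bool => if b then u else v) (fun b => if b then 1 else n)
      true (by
        rintro (_ | _) (_ | _)
        · simp [dV_self]
        · simp [dV_comm v u, h]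
        · simp [h, add_comm]
        · simp [dV_self])
    have h1 : dV u z ≤ 1 := by simpa using hz true
    have h2 : dV v z ≤ n := by simpa using hz false
    have h3 := dV_triangle u z v
    rw [dV_comm v z] at h2
    obtain ⟨w, hw⟩ := ih z v (by linarith only [h, h1, h3, h2])
    exact ⟨.cons (show dV u z = 1 by linarith only [h, h2, h3, h1]) w, by simp [hw]⟩

theorem gr_connected : (Gr d).Connected := by
  have : Nonempty (V d) := ⟨mkV d (1, (0, 0))⟩
  refine ⟨fun u v => ?_⟩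
  obtain ⟨n, hn⟩ := D_int (d := d) (rep u) (rep v)
  obtain ⟨w, -⟩ := exists_walk n u v hn
  exact ⟨w⟩

instance : Fact (Gr d).Connected := ⟨gr_connected⟩

theorem gr_dist (u v : V d) : ((Gr d).dist u v : ℝ) = dV u v := by
  apply le_antisymm
  · obtain ⟨n, hn⟩ := D_int (d := d) (rep u) (rep v)
    obtain ⟨w, hw⟩ := exists_walk n u v hn
    have := SimpleGraph.dist_le w
    rw [show dV u v = n from hn, ← hw]
    exact_mod_cast this
  · obtain ⟨w, hw⟩ := gr_connected.exists_walk_length_eq_dist u v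
    rw [← hw]
    exact walk_ge w

theorem gr_helly : IsHelly (Gr d) := by
  intro S hS
  rcases S.eq_empty_or_nonempty with rfl | ⟨a0, ha0⟩
  · exact ⟨mkV d (1, (0, 0)), fun a ha => absurd ha (Set.notMem_empty a)⟩
  obtain ⟨z, hz⟩ := helly_dV (fun a : S => a.1.1) (fun a => a.1.2) ⟨a0, ha0⟩ (by
    intro a b
    obtain ⟨w, h1, h2⟩ := hS a.1 a.2 b.1 b.2
    have h1' : dV a.1.1 w ≤ a.1.2 := by rw [← gr_dist]; exact_mod_cast h1
    have h2' : dV b.1.1 w ≤ b.1.2 := by rw [← gr_dist]; exact_mod_cast h2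
    have := dV_triangle a.1.1 w b.1.1
    rw [dV_comm w] at this
    linarith only [h1', h2', this])
  refine ⟨z, fun a ha => ?_⟩
  have := hz ⟨a, ha⟩
  rw [← gr_dist] at this
  exact_mod_cast this

/-! The action. -/

def gX (d : Bool) (g : GG) (x : X) : X :=
  (g.1.1 x.1, (x.2.1 + 2 * g.1.2.toAdd.1, x.2.2 + 2 * g.1.2.toAdd.2 + 2 * lam d * g.1.2.toAdd.1))

def gZ (d : Bool) (g : GG) (x : XZ) : XZ :=
  (g.1.1 x.1, (x.2.1 + 2 * g.1.2.toAdd.1,
    x.2.2 + 2 * g.1.2.toAdd.2 + 2 * (if d then 1 else 0) * g.1.2.toAdd.1))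

theorem gZ_toX (g : GG) (x : XZ) : (gZ d g x).toX = gX d g x.toX := by
  cases d <;> simp [gZ, gX, XZ.toX, lam]

theorem gZ_one (x : XZ) : gZ d 1 x = x := by simp [gZ]

theorem gZ_mul (g h : GG) (x : XZ) : gZ d (g * h) x = gZ d g (gZ d h x) := by
  simp only [gZ, Subgroup.coe_mul, Prod.fst_mul, Equiv.Perm.coe_mul, Function.comp_apply,
    Prod.snd_mul, toAdd_mul, Prod.fst_add, Prod.snd_add]
  congr 2 <;> ring

theorem D_gX_le (g : GG) (x y : X) : D d (gX d g x) (gX d g y) ≤ D d x y := by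
  have h : Adm d fun z => D d (gX d g x) (gX d g z) := by
    refine ⟨fun W p q => ?_, fun W l p hp => ?_⟩
    · refine ((adm_D (d := d) (gX d g x)).1 _ _ (gX d g (W, q)).2).trans (le_of_eq ?_)
      congr 1
      simp [gX, Prod.dist_eq]
    · show D d _ (g.1.1 (step l W), _) = D d _ (g.1.1 W, _)
      rw [g.2.1]
      apply D_glue
      rw [pos_G]
      push_cast
      rw [← hp]
      rcases l with ⟨_ | _, i⟩ <;> simp [tau, sh] <;> ring
  have := h.le x y
  simpa [D_self] using this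

theorem D_gZ (g : GG) (x y : XZ) : D d (gZ d g x).toX (gZ d g y).toX = D d x.toX y.toX := by
  apply le_antisymm
  · rw [gZ_toX, gZ_toX]
    exact D_gX_le g _ _
  · have := D_gX_le (d := d) g⁻¹ (gZ d g x).toX (gZ d g y).toX
    rwa [← gZ_toX, ← gZ_toX, ← gZ_mul, ← gZ_mul, inv_mul_cancel, gZ_one, gZ_one] at this

instance : MulAction GG (V d) where
  smul g := Quotient.map (gZ d g) fun a b h => (D_gZ g a b).trans h
  one_smul v := by
    induction v using Quotient.ind with
    | _ a => exact congrArg (mkV d) (gZ_one a)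
  mul_smul g h v := by
    induction v using Quotient.ind with
    | _ a => exact congrArg (mkV d) (gZ_mul g h a)

theorem smul_mk (g : GG) (a : XZ) : g • mkV d a = mkV d (gZ d g a) := rfl

theorem dV_smul (g : GG) (u v : V d) : dV (g • u) (g • v) = dV u v := by
  rw [← mk_rep u, ← mk_rep v, smul_mk, smul_mk, dV_mk, dV_mk, D_gZ]

theorem gr_geometric : IsGeometric GG (Gr d) := by
  refine ⟨fun g u v => ?_, fun v R => ?_, ?_⟩
  · show dV _ _ = 1 ↔ dV _ _ = 1
    rw [dV_smul]
  · refine Set.Finite.of_finite_image (f := fun g : GG => gZ d g (rep v))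
      ((finite_int_ball (d := d) (rep v).toX R).subset ?_) ?_
    · rintro _ ⟨g, hg, rfl⟩
      have h1 : (((Gr d).dist v (g • v) : ℕ) : ℝ) ≤ R := by exact_mod_cast hg
      rw [gr_dist, ← mk_rep v, smul_mk, dV_mk] at h1
      exact h1
    · intro g _ g' _ h
      simp only [gZ, Prod.mk.injEq] at h
      obtain ⟨h1, h2, h3⟩ := h
      have h4 : g.1.2.toAdd.1 = g'.1.2.toAdd.1 := by omega
      rw [h4] at h3
      exact G_ext h1 (Multiplicative.toAdd.injective (Prod.ext h4 (by omega)))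
  · let pl : Bool → Bool → P := fun a b =>
      (if a then step (false, 0) else id) ((if b then step (true, 0) else id) 1)
    have hpl : ∀ W : P, ∃ a b, ∀ κ, par κ W = par κ (pl a b) := by
      intro W
      have e : ∀ κ, par κ 1 = 0 := fun κ => rfl
      rcases par_cases true W with h | h <;> rcases par_cases false W with h' | h'
      · exact ⟨false, false, by rintro (_ | _) <;> simp [pl, h, h', e]⟩
      · exact ⟨false, true, by rintro (_ | _) <;> simp [pl, h, h', e, par_step]⟩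
      · exact ⟨true, false, by rintro (_ | _) <;> simp [pl, h, h', e, par_step]⟩
      · exact ⟨true, true, by rintro (_ | _) <;> simp [pl, h, h', e, par_step]⟩
    let F : Bool × Bool × Fin 2 × Fin 2 → MulAction.orbitRel.Quotient GG (V d) := fun a =>
      Quotient.mk _ (mkV d (pl a.1 a.2.1, (((a.2.2.1 : ℕ) : ℤ), ((a.2.2.2 : ℕ) : ℤ))))
    refine Finite.of_surjective F fun q => ?_
    induction q using Quotient.ind with
    | _ v =>
      obtain ⟨⟨W, x, y⟩, rfl⟩ : ∃ a, mkV d a = v := ⟨_, mk_rep v⟩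
      obtain ⟨a, b, hab⟩ := hpl W
      obtain ⟨g, h1, h2⟩ := exists_G hab (-(x / 2), -(y / 2) + (if d then 1 else 0) * (x / 2))
      refine ⟨(a, b, ⟨(x % 2).toNat, by omega⟩, ⟨(y % 2).toNat, by omega⟩), Quotient.sound ⟨g, ?_⟩⟩
      show g • mkV d _ = mkV d _
      rw [smul_mk]
      congr 1
      simp only [gZ, h1, h2, Prod.mk.injEq, true_and]
      constructor
      · omega
      · cases d <;> simp <;> omega

/-! The hull. -/

noncomputable def io (d : Bool) (z : X) : Hull (Gr d) :=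
  ⟨fun v => D d z (rep v).toX, fun u => by
    constructor
    · rintro _ ⟨v, rfl⟩
      have := D_triangle (d := d) (rep u).toX z (rep v).toX
      rw [D_comm _ z] at this
      simp only [gr_dist, dV]
      linarith
    · intro b hb
      obtain ⟨v, -, -, hv⟩ := exists_ext (d := d) (rep u).toX z
      have := hb ⟨mkV d v, rfl⟩
      simp only [gr_dist, dV, D_rep] at this
      show D d z _ ≤ b
      rw [D_comm]
      linarith⟩

theorem dist_io (z w : X) : dist (io d z) (io d w) = D d z w := by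
  apply le_antisymm
  · refine Hull.dist_le fun v => abs_le.2 ⟨?_, ?_⟩
    · have := D_triangle (d := d) w z (rep v).toX
      rw [D_comm w z] at this
      show _ ≤ D d z _ - D d w _
      linarith
    · have := D_triangle (d := d) z w (rep v).toX
      show D d z _ - D d w _ ≤ _
      linarith
  · obtain ⟨v, -, -, hv⟩ := exists_ext (d := d) z w
    refine le_trans ?_ ((le_abs_self _).trans (Hull.abs_le (io d z) (io d w) (mkV d v)))
    show _ ≤ D d z _ - D d w _
    rw [D_rep, D_rep]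
    linarith

theorem io_surj : Function.Surjective (io d) := by
  intro f
  obtain ⟨z, hz⟩ := hyperconvex (d := d) (fun v : V d => (rep v).toX) f.1 (mkV d (1, (0, 0)))
    fun u v => by
      have := f.le u v
      rw [gr_dist] at this
      unfold dV at this
      linarith
  refine ⟨z, Subtype.ext (funext fun u => le_antisymm ?_ ?_)⟩
  · show D d z _ ≤ _
    rw [D_comm]
    exact hz u
  · refine (f.2 u).2 ?_
    rintro _ ⟨v, rfl⟩
    have h1 := (io d z).le u v
    have h2 : (io d z).1 v ≤ f.1 v := by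
      show D d z _ ≤ _
      rw [D_comm]
      exact hz v
    show _ - _ ≤ _
    linarith

theorem proper_of_io {Y : Type} [MetricSpace Y] {ι : X → Y} (hs : Function.Surjective ι)
    (hd : ∀ z w, dist (ι z) (ι w) = D d z w) : ProperSpace Y := by
  refine ProperSpace.of_isCompact_closedBall_of_le 0 fun y R _ => ?_
  obtain ⟨z, rfl⟩ := hs y
  have hc : IsCompact (⋃ W ∈ {W : P | ∃ p, D d z (W, p) ≤ R},
      (fun p => ι (W, p)) '' Metric.closedBall z.2 R) :=
    (finite_planes z R).isCompact_biUnion fun W _ => (isCompact_closedBall _ _).image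
      (Isometry.of_dist_eq fun p q => by rw [hd, D_plane]).continuous
  refine hc.of_isClosed_subset Metric.isClosed_closedBall fun y hy => ?_
  obtain ⟨⟨W, p⟩, rfl⟩ := hs y
  rw [Metric.mem_closedBall, dist_comm, hd] at hy
  simp only [Set.mem_iUnion]
  refine ⟨W, ⟨p, hy⟩, p, ?_, rfl⟩
  rw [Metric.mem_closedBall, dist_comm]
  exact (dev_le z (W, p)).trans hy

theorem hull_bicombing : ∃ σ : Hull (Gr d) → Hull (Gr d) → ℝ → Hull (Gr d), IsBicombing σ := by
  have := proper_of_io (d := d) io_surj dist_io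
  obtain ⟨m, h1, h2⟩ := hull_midpoint (Γ := Gr d)
  refine exists_bicombing (locIneq_of_finite fun y0 => ?_) h1 h2
  obtain ⟨z0, rfl⟩ := io_surj y0
  refine ⟨_, (finite_int_ball (d := d) z0 3).image fun v => io d v.toX, fun x y hy => ?_⟩
  obtain ⟨x, rfl⟩ := io_surj x
  obtain ⟨y, rfl⟩ := io_surj y
  obtain ⟨v, -, h3, h4⟩ := exists_ext (d := d) x y
  refine ⟨_, ⟨v, ?_, rfl⟩, by simpa only [dist_io] using h4⟩
  rw [dist_comm, dist_io] at hy
  have := D_triangle (d := d) z0 y v.toX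
  show D d z0 v.toX ≤ 3
  linarith

end Pool.Agent.Work.MP_f8dec8_al
end
end
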