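import Mathlib
import Pool.Agent.Work.MP_f8dec8_al.Defs
import Pool.Agent.Work.MP_f8dec8_al.Graph

-- merged part: Pool.Agent.Work.MP_f8dec8_al.Bnd
section
-- merged part: Pool.Agent.Work.MP_f8dec8_al.Top
section
/-! Topological invariants used to tell the two boundaries apart. -/

namespace Pool.Agent.Work.MP_f8dec8_al

open Set Filter Topology

variable {Z Z' : Type} [TopologicalSpace Z] [TopologicalSpace Z']

def Br (c : Z) : Prop :=
  ∃ γ : Fin 3 → ℝ → Z, (∀ i, Continuous (γ i)) ∧ (∀ i, γ i 0 = c) ∧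
    ∀ i j, i ≠ j → ∀ s ∈ Ioc (0 : ℝ) 1, ∀ t ∈ Icc (0 : ℝ) 1, γ i s ≠ γ j t

def Free (N : Z) (γ : ℝ → Z) : Prop :=
  Continuous γ ∧ γ 0 = N ∧ ∀ s ∈ Ioo (0 : ℝ) 1, ¬ Br (γ s)

def Aset (N : Z) : Set Z := {n | Br n ∧ ∃ γ, Free N γ ∧ γ 1 = n}

def Good (N : Z) : Prop :=
  Br N ∧ ∃ n : Fin 3 → Z, Function.Injective n ∧ ∀ i, n i ≠ N ∧ n i ∈ Aset N

def Inv2 (N : Z) : Prop :=
  ∃ γ, Free N γ ∧ ∃ s ∈ Icc (0 : ℝ) 1, ∃ t ∈ Icc (0 : ℝ) 1, γ s ≠ γ t ∧
    AccPt (γ s) (𝓟 (Aset N)) ∧ AccPt (γ t) (𝓟 (Aset N))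

theorem Br.map (h : Z ≃ₜ Z') {c : Z} (hc : Br c) : Br (h c) := by
  obtain ⟨γ, h1, h2, h3⟩ := hc
  exact ⟨fun i s => h (γ i s), fun i => h.continuous.comp (h1 i), fun i => by simp [h2],
    fun i j hij s hs t ht e => h3 i j hij s hs t ht (h.injective e)⟩

theorem Free.map (h : Z ≃ₜ Z') {N : Z} {γ : ℝ → Z} (hγ : Free N γ) :
    Free (h N) fun s => h (γ s) :=
  ⟨h.continuous.comp hγ.1, by simp [hγ.2.1], fun s hs hb => hγ.2.2 s hs (by
    simpa using hb.map h.symm)⟩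

theorem Aset_map (h : Z ≃ₜ Z') {N n : Z} (hn : n ∈ Aset N) : h n ∈ Aset (h N) := by
  obtain ⟨h1, γ, h2, h3⟩ := hn
  exact ⟨h1.map h, _, h2.map h, by simp [h3]⟩

theorem Good.map (h : Z ≃ₜ Z') {N : Z} (hN : Good N) : Good (h N) := by
  obtain ⟨h1, n, h2, h3⟩ := hN
  exact ⟨h1.map h, fun i => h (n i), h.injective.comp h2,
    fun i => ⟨fun e => (h3 i).1 (h.injective e), Aset_map h (h3 i).2⟩⟩

theorem accPt_map (h : Z ≃ₜ Z') {N x : Z} (hx : AccPt x (𝓟 (Aset N))) :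
    AccPt (h x) (𝓟 (Aset (h N))) := by
  rw [accPt_iff_nhds] at hx ⊢
  intro U hU
  obtain ⟨y, ⟨h1, h2⟩, h3⟩ := hx _ (h.continuous.continuousAt hU)
  exact ⟨h y, ⟨h1, Aset_map h h2⟩, fun e => h3 (h.injective e)⟩

theorem Inv2.map (h : Z ≃ₜ Z') {N : Z} (hN : Inv2 N) : Inv2 (h N) := by
  obtain ⟨γ, h1, s, hs, t, ht, h2, h3, h4⟩ := hN
  exact ⟨_, h1.map h, s, hs, t, ht, fun e => h2 (h.injective e), accPt_map h h3, accPt_map h h4⟩

theorem Br.local {c : Z} (hc : Br c) {U : Set Z} (hU : IsOpen U) (hcU : c ∈ U) :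
    ∃ γ : Fin 3 → ℝ → Z, (∀ i, Continuous (γ i)) ∧ (∀ i, γ i 0 = c) ∧
      (∀ i, ∀ s ∈ Icc (0 : ℝ) 1, γ i s ∈ U) ∧
      ∀ i j, i ≠ j → ∀ t ∈ Icc (0 : ℝ) 1, γ i 1 ≠ γ j t := by
  obtain ⟨γ, h1, h2, h3⟩ := hc
  have e : ∀ᶠ s in 𝓝 (0 : ℝ), ∀ i, γ i s ∈ U := by
    rw [eventually_all]
    intro i
    exact (h1 i).continuousAt.preimage_mem_nhds (by rw [h2]; exact hU.mem_nhds hcU)
  obtain ⟨ε, hε, hb⟩ := Metric.eventually_nhds_iff.1 e
  have hδ : 0 < min (ε / 2) 1 := by positivity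
  have hδ1 : min (ε / 2) 1 ≤ 1 := min_le_right _ _
  have hδ2 : min (ε / 2) 1 ≤ ε / 2 := min_le_left _ _
  generalize min (ε / 2) 1 = δ at *
  refine ⟨fun i s => γ i (δ * s), fun i => (h1 i).comp (by fun_prop), fun i => by simp [h2],
    fun i s hs => hb ?_ i, fun i j hij t ht => h3 i j hij _ ⟨by linarith, by linarith⟩ _
      ⟨by nlinarith [ht.1], by nlinarith [ht.2]⟩⟩
  rw [Real.dist_eq, sub_zero, abs_of_nonneg (by nlinarith [hs.1])]
  nlinarith [hs.2]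

theorem three_reals (a0 : ℝ) (a : Fin 3 → ℝ) : ∃ i j, i ≠ j ∧ a i ∈ uIcc a0 (a j) := by
  have key : ∀ i j, i ≠ j → (a0 ≤ a i ∧ a0 ≤ a j ∨ a i ≤ a0 ∧ a j ≤ a0) →
      ∃ i j, i ≠ j ∧ a i ∈ uIcc a0 (a j) := by
    intro i j hij h
    rcases le_total (a i) (a j) with c | c <;> rcases h with h | h
    · exact ⟨i, j, hij, mem_uIcc.2 (Or.inl ⟨h.1, c⟩)⟩
    · exact ⟨j, i, hij.symm, mem_uIcc.2 (Or.inr ⟨c, h.2⟩)⟩
    · exact ⟨j, i, hij.symm, mem_uIcc.2 (Or.inl ⟨h.2, c⟩)⟩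
    · exact ⟨i, j, hij, mem_uIcc.2 (Or.inr ⟨c, h.1⟩)⟩
  rcases le_total a0 (a 0) with h0 | h0 <;> rcases le_total a0 (a 1) with h1 | h1 <;>
    rcases le_total a0 (a 2) with h2 | h2
  · exact key 0 1 (by decide) (Or.inl ⟨h0, h1⟩)
  · exact key 0 1 (by decide) (Or.inl ⟨h0, h1⟩)
  · exact key 0 2 (by decide) (Or.inl ⟨h0, h2⟩)
  · exact key 1 2 (by decide) (Or.inr ⟨h1, h2⟩)
  · exact key 1 2 (by decide) (Or.inl ⟨h1, h2⟩)
  · exact key 0 2 (by decide) (Or.inr ⟨h0, h2⟩)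
  · exact key 0 1 (by decide) (Or.inr ⟨h0, h1⟩)
  · exact key 0 1 (by decide) (Or.inr ⟨h0, h1⟩)

theorem three_paths {c : Z} {γ : Fin 3 → ℝ → Z} (h2 : ∀ i, γ i 0 = c) {K : Set Z} {φ : Z → ℝ}
    (hK : ∀ i, ∀ s ∈ Icc (0 : ℝ) 1, γ i s ∈ K) (hφ : ∀ i, ContinuousOn (fun s => φ (γ i s)) (Icc 0 1))
    (hi : InjOn φ K) : ∃ i j, i ≠ j ∧ ∃ t ∈ Icc (0 : ℝ) 1, γ i 1 = γ j t := by
  obtain ⟨i, j, hij, h⟩ := three_reals (φ c) fun i => φ (γ i 1)
  have h1 := intermediate_value_uIcc (a := 0) (b := 1) (f := fun s => φ (γ j s))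
    (by rw [uIcc_of_le zero_le_one]; exact hφ j)
  simp only [h2, uIcc_of_le (zero_le_one (α := ℝ))] at h1
  obtain ⟨t, ht, e⟩ := h1 h
  exact ⟨i, j, hij, t, ht, (hi (hK j t ht) (hK i 1 (right_mem_Icc.2 zero_le_one)) e).symm⟩

/-- A connected set avoiding the intersection of two closed sets covering the space. -/
theorem stay_side {A B S : Set Z} (hA : IsClosed A) (hB : IsClosed B) (hAB : ∀ z, z ∈ A ∨ z ∈ B)
    (hS : IsPreconnected S) (h : ∀ z ∈ S, z ∈ A → z ∉ B) {z0 : Z} (h0 : z0 ∈ S) (h0' : z0 ∉ A) :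
    ∀ z ∈ S, z ∉ A := by
  intro z hz hzA
  obtain ⟨w, hw, hw1, hw2⟩ := isPreconnected_closed_iff.1 hS A B hA hB (fun w _ => hAB w)
    ⟨z, hz, hzA⟩ ⟨z0, h0, (hAB z0).resolve_left h0'⟩
  exact h w hw hw1 hw2

end Pool.Agent.Work.MP_f8dec8_al
end

-- merged part: Pool.Agent.Work.MP_f8dec8_al.Bnd
section
/-! General theory of the boundary. -/

namespace Pool.Agent.Work.MP_f8dec8_al

open Set Filter Topology NNReal

variable {Y : Type} [MetricSpace Y] {σ : Y → Y → ℝ → Y}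

theorem IsBicombing.conical (hσ : IsBicombing σ) (x y x' y' : Y) {u : ℝ} (hu : u ∈ Icc (0 : ℝ) 1) :
    dist (σ x y u) (σ x' y' u) ≤ (1 - u) * dist x x' + u * dist y y' := by
  have := (hσ.convex x y x' y').2 (left_mem_Icc.2 zero_le_one) (right_mem_Icc.2 zero_le_one)
    (show 0 ≤ 1 - u by linarith [hu.2]) hu.1 (by ring)
  simpa [hσ.zero, hσ.one] using this

theorem IsBicombing.self (hσ : IsBicombing σ) (x : Y) {u : ℝ} (hu : u ∈ Icc (0 : ℝ) 1) :
    σ x x u = x := by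
  have := hσ.geodesic x x u hu 0 (left_mem_Icc.2 zero_le_one)
  rw [hσ.zero, dist_self, mul_zero] at this
  exact dist_eq_zero.1 this

theorem IsBicombing.dist_le (hσ : IsBicombing σ) (z x y : Y) {u : ℝ} (hu : u ∈ Icc (0 : ℝ) 1) :
    dist (σ x y u) z ≤ (1 - u) * dist x z + u * dist y z := by
  have := hσ.conical x y z z hu
  rwa [hσ.self z hu] at this

theorem IsBicombing.tendsto (hσ : IsBicombing σ) {ι : Type} {F : Filter ι} {a b : ι → Y} {x y : Y}
    (ha : Tendsto a F (𝓝 x)) (hb : Tendsto b F (𝓝 y)) {u : ℝ} (hu : u ∈ Icc (0 : ℝ) 1) :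
    Tendsto (fun i => σ (a i) (b i) u) F (𝓝 (σ x y u)) := by
  rw [tendsto_iff_dist_tendsto_zero] at ha hb ⊢
  refine squeeze_zero (fun _ => dist_nonneg) (fun i => hσ.conical _ _ _ _ hu) ?_
  simpa using (ha.const_mul (1 - u)).add (hb.const_mul u)

theorem IsBicombing.continuousOn (hσ : IsBicombing σ) (x y : Y) :
    ContinuousOn (σ x y) (Icc 0 1) := by
  have : LipschitzOnWith (nndist x y) (σ x y) (Icc 0 1) := by
    refine LipschitzOnWith.of_dist_le_mul fun s hs t ht => ?_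
    rw [Real.dist_eq, mul_comm]
    exact (hσ.geodesic x y s hs t ht).le
  exact this.continuousOn

theorem frac_mem {t T : ℝ≥0} (h : t ≤ T) : (t : ℝ) / T ∈ Icc (0 : ℝ) 1 :=
  ⟨by positivity, div_le_one_of_le₀ (by exact_mod_cast h) T.2⟩

theorem le_of_frac {a b c : ℝ} {t : ℝ≥0} (h : ∀ T : ℝ≥0, t ≤ T → 0 < T → a ≤ b + t / T * c) :
    a ≤ b := by
  have h1 : Tendsto (fun n : ℕ => b + (t : ℝ) / n * c) atTop (𝓝 (b + 0 * c)) :=
    ((tendsto_const_div_atTop_nhds_zero_nat (t : ℝ)).mul_const c).const_add b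
  rw [zero_mul, add_zero] at h1
  refine ge_of_tendsto h1 ?_
  filter_upwards [eventually_ge_atTop (⌈t⌉₊ + 1)] with n hn
  have h2 : t ≤ (n : ℝ≥0) := (Nat.le_ceil t).trans (by exact_mod_cast (by omega))
  simpa using h n h2 (by exact_mod_cast (by omega))

namespace Boundary

variable {o o' : Y}

theorem dist_eq (ρ : Boundary σ o) (s t : ℝ≥0) : dist (ρ.1 s) (ρ.1 t) = |(s : ℝ) - t| :=
  (ρ.2.2.1.dist_eq s t).trans (NNReal.dist_eq s t)

theorem dist_base (ρ : Boundary σ o) (t : ℝ≥0) : dist o (ρ.1 t) = t := by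
  have := ρ.dist_eq 0 t
  rw [ρ.2.1] at this
  simpa using this

theorem eq_sigma (hσ : IsBicombing σ) (ρ : Boundary σ o) {s t r : ℝ≥0} {u : ℝ}
    (hu : u ∈ Icc (0 : ℝ) 1) (h : (r : ℝ) = (1 - u) * s + u * t) :
    ρ.1 r = σ (ρ.1 s) (ρ.1 t) u := by
  rcases le_total s t with c | c
  · exact ρ.2.2.2 s t r c u hu h
  · rw [hσ.reversible _ _ u hu]
    exact ρ.2.2.2 t s r c (1 - u) ⟨by linarith [hu.2], by linarith [hu.1]⟩ (by rw [h]; ring)

theorem eq_frac (ρ : Boundary σ o) {t T : ℝ≥0} (h : t ≤ T) :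
    ρ.1 t = σ o (ρ.1 T) ((t : ℝ) / T) := by
  have := ρ.2.2.2 0 T t zero_le _ (frac_mem h) (by
    rcases eq_or_ne T 0 with rfl | hT
    · simpa using h
    · have : (T : ℝ) ≠ 0 := by exact_mod_cast hT
      simp [this])
  rwa [ρ.2.1] at this

theorem conv (hσ : IsBicombing σ) (ρ : Boundary σ o) (ρ' : Boundary σ o') {t T : ℝ≥0} (h : t ≤ T) :
    dist (ρ.1 t) (ρ'.1 t) ≤ dist o o' + t / T * dist (ρ.1 T) (ρ'.1 T) := by
  rw [ρ.eq_frac h, ρ'.eq_frac h]
  refine (hσ.conical _ _ _ _ (frac_mem h)).trans ?_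
  nlinarith [(frac_mem h).1, dist_nonneg (x := o) (y := o')]

theorem le_of_bdd (hσ : IsBicombing σ) {ρ : Boundary σ o} {ρ' : Boundary σ o'} {C : ℝ}
    (h : ∀ t, dist (ρ.1 t) (ρ'.1 t) ≤ C) (t : ℝ≥0) : dist (ρ.1 t) (ρ'.1 t) ≤ dist o o' :=
  le_of_frac (c := C) (t := t) fun T hT _ => (ρ.conv hσ ρ' hT).trans (by
    have := mul_le_mul_of_nonneg_left (h T) (frac_mem hT).1
    linarith)

theorem ext' {ρ ρ' : Boundary σ o} (h : ∀ t, ρ.1 t = ρ'.1 t) : ρ = ρ' :=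
  Subtype.ext (ContinuousMap.ext h)

theorem eq_of_bdd (hσ : IsBicombing σ) {ρ ρ' : Boundary σ o} {C : ℝ}
    (h : ∀ t, dist (ρ.1 t) (ρ'.1 t) ≤ C) : ρ = ρ' :=
  ext' fun t => dist_le_zero.1 (by simpa using le_of_bdd hσ h t)

theorem isEmbedding : IsEmbedding (Subtype.val : Boundary σ o → C(ℝ≥0, Y)) :=
  ⟨⟨rfl⟩, Subtype.val_injective⟩

instance : T2Space (Boundary σ o) := isEmbedding.t2Space

theorem continuous_eval (t : ℝ≥0) : Continuous fun ρ : Boundary σ o => ρ.1 t :=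
  (continuous_eval_const t).comp isEmbedding.continuous

theorem tendsto_iff (hσ : IsBicombing σ) {ι : Type} {F : Filter ι} {f : ι → Boundary σ o}
    {ρ : Boundary σ o} : Tendsto f F (𝓝 ρ) ↔ ∀ t, Tendsto (fun i => (f i).1 t) F (𝓝 (ρ.1 t)) := by
  refine ⟨fun h t => ((continuous_eval t).tendsto ρ).comp h, fun h => ?_⟩
  refine isEmbedding.tendsto_nhds_iff.2
    (ContinuousMap.tendsto_iff_forall_isCompact_tendstoUniformlyOn.2 ?_)
  intro K hK
  obtain ⟨T, hT⟩ := hK.bddAbove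
  rw [Metric.tendstoUniformlyOn_iff]
  intro ε hε
  filter_upwards [Metric.tendsto_nhds.1 (h T) ε hε] with i hi t ht
  have h1 := ρ.conv hσ (f i) (hT ht)
  have h2 := frac_mem (hT ht)
  rw [dist_comm] at hi
  have h3 := dist_nonneg (x := ρ.1 T) (y := (f i).1 T)
  rw [dist_self] at h1
  show dist (ρ.1 t) ((f i).1 t) < ε
  nlinarith [h2.2]

theorem exists_asym [ProperSpace Y] (hσ : IsBicombing σ) (ρ : Boundary σ o) (o' : Y) :
    ∃ ρ' : Boundary σ o', ∀ t, dist (ρ.1 t) (ρ'.1 t) ≤ dist o o' := by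
  let U : Ultrafilter ℕ := hyperfilter ℕ
  have hU : (U : Filter ℕ) ≤ atTop := by
    rw [← Nat.cofinite_eq_atTop]; exact hyperfilter_le_cofinite
  let c : ℕ → ℝ≥0 → Y := fun n t => σ o' (ρ.1 n) ((t : ℝ) / (n : ℝ≥0))
  have hge : ∀ t : ℝ≥0, ∀ᶠ n : ℕ in (U : Filter ℕ), t ≤ (n : ℝ≥0) := fun t =>
    hU ((eventually_ge_atTop ⌈t⌉₊).mono fun n hn => (Nat.le_ceil t).trans (by exact_mod_cast hn))
  have hb : ∀ t : ℝ≥0, ∀ᶠ n : ℕ in (U : Filter ℕ), dist (ρ.1 t) (c n t) ≤ dist o o' := by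
    intro t
    filter_upwards [hge t] with n hn
    rw [ρ.eq_frac hn]
    refine (hσ.conical _ _ _ _ (frac_mem hn)).trans ?_
    rw [dist_self]
    nlinarith [(frac_mem hn).1, dist_nonneg (x := o) (y := o')]
  have h1 : ∀ t : ℝ≥0, ∃ z, Tendsto (fun n => c n t) U (𝓝 z) := by
    intro t
    obtain ⟨z, -, hz⟩ := (isCompact_closedBall (ρ.1 t) (dist o o')).ultrafilter_le_nhds
      (U.map fun n => c n t) (by
        rw [Ultrafilter.coe_map, le_principal_iff, mem_map]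
        filter_upwards [hb t] with n hn
        rwa [dist_comm] at hn)
    exact ⟨z, hz⟩
  choose z hz using h1
  have h2 : Tendsto (fun n : ℕ => dist o' (ρ.1 n) / n) atTop (𝓝 1) := by
    have a1 := (tendsto_const_div_atTop_nhds_zero_nat (dist o o')).const_sub 1
    have a2 := (tendsto_const_div_atTop_nhds_zero_nat (dist o o')).const_add 1
    rw [sub_zero] at a1
    rw [add_zero] at a2
    refine tendsto_of_tendsto_of_tendsto_of_le_of_le' a1 a2 ?_ ?_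
    · filter_upwards [eventually_gt_atTop 0] with n hn
      have hn' : (0 : ℝ) < n := by exact_mod_cast hn
      have := dist_triangle o o' (ρ.1 n)
      rw [ρ.dist_base] at this
      rw [le_div_iff₀ hn', sub_mul, div_mul_cancel₀ _ hn'.ne']
      simp only [NNReal.coe_natCast] at this
      linarith
    · filter_upwards [eventually_gt_atTop 0] with n hn
      have hn' : (0 : ℝ) < n := by exact_mod_cast hn
      have := dist_triangle o' o (ρ.1 n)
      rw [ρ.dist_base, dist_comm o' o] at this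
      rw [div_le_iff₀ hn', add_mul, div_mul_cancel₀ _ hn'.ne']
      simp only [NNReal.coe_natCast] at this
      linarith
  have hiso : Isometry z := by
    refine Isometry.of_dist_eq fun s t => ?_
    refine tendsto_nhds_unique ((hz s).dist (hz t)) ?_
    have a1 := (h2.mono_left hU).const_mul |(s : ℝ) - t|
    rw [mul_one] at a1
    refine a1.congr' ?_
    filter_upwards [hge s, hge t] with n hs ht
    have e : |(s : ℝ) / (n : ℝ≥0) - (t : ℝ) / (n : ℝ≥0)| = |(s : ℝ) - t| / n := by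
      rw [← _root_.sub_div, abs_div]
      simp only [NNReal.coe_natCast, Nat.abs_cast]
    rw [hσ.geodesic _ _ _ (frac_mem hs) _ (frac_mem ht), e]
    ring
  refine ⟨⟨⟨z, hiso.continuous⟩, ?_, hiso, ?_⟩, fun t => ?_⟩
  · refine tendsto_nhds_unique (hz 0) ?_
    simp only [c, NNReal.coe_zero, zero_div, hσ.zero]
    exact tendsto_const_nhds
  · intro s t r hst u hu hr
    refine tendsto_nhds_unique (hz r) ((hσ.tendsto (hz s) (hz t) hu).congr' ?_)
    filter_upwards [hge s, hge t] with n hs ht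
    simp only [c]
    rw [hσ.consistent _ _ _ (frac_mem hs) _ (frac_mem ht)
      (div_le_div_of_nonneg_right (by exact_mod_cast hst) (NNReal.coe_nonneg _)) u hu, hr]
    congr 1
    ring
  · exact le_of_tendsto (tendsto_const_nhds.dist (hz t)) (hb t)

/-- Change of base point. -/
noncomputable def R [ProperSpace Y] (hσ : IsBicombing σ) (o' : Y) (ρ : Boundary σ o) :
    Boundary σ o' := (ρ.exists_asym hσ o').choose

variable [ProperSpace Y] (hσ : IsBicombing σ)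

theorem R_dist (o' : Y) (ρ : Boundary σ o) (t : ℝ≥0) :
    dist (ρ.1 t) ((R hσ o' ρ).1 t) ≤ dist o o' := (ρ.exists_asym hσ o').choose_spec t

theorem R_eq {ρ : Boundary σ o} {ρ' : Boundary σ o'} {C : ℝ}
    (h : ∀ t, dist (ρ.1 t) (ρ'.1 t) ≤ C) : R hσ o' ρ = ρ' :=
  eq_of_bdd hσ (C := dist o o' + C) fun t => by
    have := dist_triangle_left ((R hσ o' ρ).1 t) (ρ'.1 t) (ρ.1 t)
    have := R_dist hσ o' ρ t
    have := h t
    linarith

theorem R_R (ρ : Boundary σ o) : R hσ o (R hσ o' ρ) = ρ :=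
  R_eq hσ (C := dist o o') fun t => by rw [dist_comm]; exact R_dist hσ o' ρ t

theorem R_inj : Function.Injective (R hσ o' : Boundary σ o → Boundary σ o') := fun a b h => by
  rw [← R_R hσ (o' := o') a, h, R_R]

theorem R_cont : Continuous (R hσ o' : Boundary σ o → Boundary σ o') := by
  refine continuous_iff_continuousAt.2 fun ρ => (tendsto_iff hσ).2 fun t => ?_
  rw [Metric.tendsto_nhds]
  intro ε hε
  obtain ⟨T, hT, hT2⟩ : ∃ T : ℝ≥0, t ≤ T ∧ (t : ℝ) / T * (2 * dist o o') < ε / 2 := by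
    by_contra hc
    push Not at hc
    have := le_of_frac (a := ε / 2) (b := 0) (c := 2 * dist o o') (t := t) fun T h _ => by
      simpa using hc T h
    linarith
  filter_upwards [Metric.tendsto_nhds.1 ((continuous_eval T).tendsto ρ) (ε / 2) (by positivity)]
    with ρ' h
  have h1 := (R hσ o' ρ').conv hσ (R hσ o' ρ) hT
  have h2 := dist_triangle4_left ((R hσ o' ρ').1 T) (ρ'.1 T) ((R hσ o' ρ).1 T) (ρ.1 T)
  have h3 := R_dist hσ o' ρ T
  have h4 := R_dist hσ o' ρ' T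
  have h5 := frac_mem hT
  have h6 : dist ((R hσ o' ρ').1 T) ((R hσ o' ρ).1 T) ≤ 2 * dist o o' + ε / 2 := by
    have := dist_triangle4 ((R hσ o' ρ').1 T) (ρ'.1 T) (ρ.1 T) ((R hσ o' ρ).1 T)
    rw [dist_comm ((R hσ o' ρ').1 T) (ρ'.1 T)] at this
    linarith
  have h7 := mul_le_mul_of_nonneg_left h6 h5.1
  rw [dist_self] at h1
  nlinarith [h5.2]

end Boundary

open Boundary

def Cvx (σ : Y → Y → ℝ → Y) (Z : Set Y) : Prop :=
  ∀ x ∈ Z, ∀ y ∈ Z, ∀ u ∈ Icc (0 : ℝ) 1, σ x y u ∈ Z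

/-- Rays staying at bounded distance from a set. -/
def bd (σ : Y → Y → ℝ → Y) (o : Y) (Z : Set Y) : Set (Boundary σ o) :=
  {ρ | ∃ C, ∀ t, ∃ z ∈ Z, dist (ρ.1 t) z ≤ C}

variable {o o' : Y}

theorem bd_mono {Z Z' : Set Y} (h : Z ⊆ Z') : bd σ o Z ⊆ bd σ o Z' := by
  rintro ρ ⟨C, hC⟩
  refine ⟨C, fun t => ?_⟩
  obtain ⟨z, hz, h'⟩ := hC t
  exact ⟨z, h hz, h'⟩

theorem Cvx.ray_le {Z : Set Y} (hZ : Cvx σ Z) (ho : o ∈ Z) (ρ : Boundary σ o) {t T : ℝ≥0}
    (h : t ≤ T) (hT : ρ.1 T ∈ Z) : ρ.1 t ∈ Z := by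
  rw [ρ.eq_frac h]
  exact hZ _ ho _ hT _ (frac_mem h)

structure Cut (σ : Y → Y → ℝ → Y) (A B L : Set Y) : Prop where
  cA : IsClosed A
  cB : IsClosed B
  cover : ∀ y, y ∈ A ∨ y ∈ B
  inter : ∀ y, y ∈ L ↔ y ∈ A ∧ y ∈ B
  cvxL : Cvx σ L
  ne : L.Nonempty

theorem Cut.symm {A B L : Set Y} (h : Cut σ A B L) : Cut σ B A L :=
  ⟨h.cB, h.cA, fun y => (h.cover y).symm, fun y => (h.inter y).trans and_comm, h.cvxL, h.ne⟩

theorem Cut.cL {A B L : Set Y} (h : Cut σ A B L) : IsClosed L := by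
  have : L = A ∩ B := Set.ext h.inter
  rw [this]
  exact h.cA.inter h.cB

theorem Cut.meet {A B L S : Set Y} (h : Cut σ A B L) (hS : IsPreconnected S) {a b : Y} (ha : a ∈ S)
    (hb : b ∈ S) (ha' : a ∈ A) (hb' : b ∈ B) : ∃ y ∈ S, y ∈ L := by
  obtain ⟨y, h1, h2⟩ := isPreconnected_closed_iff.1 hS A B h.cA h.cB (fun y _ => h.cover y)
    ⟨a, ha, ha'⟩ ⟨b, hb, hb'⟩
  exact ⟨y, h1, (h.inter y).2 h2⟩

theorem Cut.cvx (hσ : IsBicombing σ) {A B L : Set Y} (h : Cut σ A B L) : Cvx σ A := by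
  intro x hx y hy u hu
  by_contra hc
  have hB := (h.cover _).resolve_left hc
  obtain ⟨_, ⟨s, hs, rfl⟩, hsL⟩ := h.meet (isPreconnected_Icc.image (σ x y)
    ((hσ.continuousOn x y).mono (Icc_subset_Icc_right hu.2))) ⟨0, left_mem_Icc.2 hu.1, rfl⟩
    ⟨u, right_mem_Icc.2 hu.1, rfl⟩ (by rwa [hσ.zero]) hB
  obtain ⟨_, ⟨t, ht, rfl⟩, htL⟩ := h.meet (isPreconnected_Icc.image (σ x y)
    ((hσ.continuousOn x y).mono (Icc_subset_Icc_left hu.1))) ⟨1, right_mem_Icc.2 hu.2, rfl⟩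
    ⟨u, left_mem_Icc.2 hu.2, rfl⟩ (by rwa [hσ.one]) hB
  apply hc
  rcases eq_or_lt_of_le (hs.2.trans ht.1) with e | e
  · have : u = s := le_antisymm (e ▸ ht.1) hs.2
    rw [this]
    exact ((h.inter _).1 hsL).1
  · have hw : (u - s) / (t - s) ∈ Icc (0 : ℝ) 1 :=
      ⟨div_nonneg (by linarith [hs.2]) (by linarith),
        div_le_one_of_le₀ (by linarith [ht.1]) (by linarith)⟩
    have h1 := h.cvxL _ hsL _ htL _ hw
    rw [hσ.consistent x y s ⟨hs.1, hs.2.trans hu.2⟩ t ⟨hu.1.trans ht.1, ht.2⟩ e.le _ hw] at h1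
    have h2 : (1 - (u - s) / (t - s)) * s + (u - s) / (t - s) * t = u := by
      have : t - s ≠ 0 := by linarith
      field_simp
      ring
    rw [h2] at h1
    exact ((h.inter _).1 h1).1

theorem Cut.cross {A B L : Set Y} (h : Cut σ A B L) (ho : o ∈ A) (ρ : Boundary σ o) {T : ℝ≥0}
    (hT : ρ.1 T ∉ A) : ∃ t, ρ.1 t ∈ L := by
  obtain ⟨_, ⟨t, -, rfl⟩, h1⟩ := h.meet (isPreconnected_range ρ.1.continuous) ⟨0, rfl⟩ ⟨T, rfl⟩
    (by rwa [ρ.2.1]) ((h.cover _).resolve_left hT)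
  exact ⟨t, h1⟩

variable [ProperSpace Y] (hσ : IsBicombing σ)
include hσ

theorem mem_bd_iff {Z : Set Y} (hc : IsClosed Z) (hZ : Cvx σ Z) (ho : o' ∈ Z) {ρ : Boundary σ o} :
    ρ ∈ bd σ o Z ↔ ∀ t, (R hσ o' ρ).1 t ∈ Z := by
  refine ⟨?_, fun h => ⟨_, fun t => ⟨_, h t, R_dist hσ o' ρ t⟩⟩⟩
  rintro ⟨C, hC⟩ t
  rw [hc.mem_iff_infDist_zero ⟨o', ho⟩]
  refine le_antisymm (le_of_frac (c := dist o o' + C) (t := t) fun T hT _ => ?_)
    Metric.infDist_nonneg
  obtain ⟨z, hz, h1⟩ := hC T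
  refine (Metric.infDist_le_dist_of_mem (hZ _ ho _ hz _ (frac_mem hT))).trans ?_
  rw [(R hσ o' ρ).eq_frac hT]
  refine (hσ.conical _ _ _ _ (frac_mem hT)).trans ?_
  rw [dist_self, mul_zero]
  have h2 := dist_triangle_left ((R hσ o' ρ).1 T) z (ρ.1 T)
  have h3 := R_dist hσ o' ρ T
  have := mul_le_mul_of_nonneg_left (show dist ((R hσ o' ρ).1 T) z ≤ dist o o' + C by linarith)
    (frac_mem hT).1
  linarith

theorem isClosed_bd {Z : Set Y} (hc : IsClosed Z) (hZ : Cvx σ Z) (hne : Z.Nonempty) :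
    IsClosed (bd σ o Z) := by
  obtain ⟨o', ho⟩ := hne
  have : bd σ o Z = ⋂ t, (fun ρ => (R hσ o' ρ).1 t) ⁻¹' Z := by
    ext ρ
    simp [mem_bd_iff hσ hc hZ ho]
  rw [this]
  exact isClosed_iInter fun t => hc.preimage ((continuous_eval t).comp (R_cont hσ))

theorem Cut.bd_closed {A B L : Set Y} (h : Cut σ A B L) : IsClosed (bd σ o A) :=
  isClosed_bd hσ h.cA (h.cvx hσ) (h.ne.mono fun y hy => ((h.inter y).1 hy).1)

theorem Cut.bd_cover {A B L : Set Y} (h : Cut σ A B L) (ρ : Boundary σ o) :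
    ρ ∈ bd σ o A ∨ ρ ∈ bd σ o B := by
  obtain ⟨o', ho⟩ := h.ne
  obtain ⟨hA, hB⟩ := (h.inter _).1 ho
  rw [mem_bd_iff hσ h.cA (h.cvx hσ) hA, mem_bd_iff hσ h.cB (h.symm.cvx hσ) hB, or_iff_not_imp_left]
  push Not
  rintro ⟨T, hT⟩ t
  rcases le_total t T with c | c
  · exact (h.symm.cvx hσ).ray_le hB _ c ((h.cover _).resolve_left hT)
  · exact (h.cover _).resolve_left fun c' => hT ((h.cvx hσ).ray_le hA _ c c')

theorem Cut.bd_inter {A B L : Set Y} (h : Cut σ A B L) {ρ : Boundary σ o} (h1 : ρ ∈ bd σ o A)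
    (h2 : ρ ∈ bd σ o B) : ρ ∈ bd σ o L := by
  obtain ⟨o', ho⟩ := h.ne
  obtain ⟨hA, hB⟩ := (h.inter _).1 ho
  rw [mem_bd_iff hσ h.cA (h.cvx hσ) hA] at h1
  rw [mem_bd_iff hσ h.cB (h.symm.cvx hσ) hB] at h2
  rw [mem_bd_iff hσ h.cL h.cvxL ho]
  exact fun t => (h.inter _).2 ⟨h1 t, h2 t⟩

theorem Cut.stay {A B L : Set Y} (h : Cut σ A B L) {S : Set (Boundary σ o)}
    (hS : IsPreconnected S) (hL : ∀ z ∈ S, z ∉ bd σ o L) {z0 : Boundary σ o} (h0 : z0 ∈ S)
    (h0' : z0 ∉ bd σ o A) : ∀ z ∈ S, z ∉ bd σ o A :=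
  stay_side (h.bd_closed hσ) (h.symm.bd_closed hσ) (h.bd_cover hσ) hS
    (fun z hz h1 h2 => hL z hz (h.bd_inter hσ h1 h2)) h0 h0'

theorem open_avoid {A F : Set Y} (hc : IsClosed A) (hA : Cvx σ A) (ho : o' ∈ A) (hF : IsClosed F)
    (hFA : F ⊆ A) : IsOpen {ρ : Boundary σ o | ρ ∉ bd σ o A ∧ ∀ t, (R hσ o' ρ).1 t ∉ F} := by
  have : {ρ : Boundary σ o | ρ ∉ bd σ o A ∧ ∀ t, (R hσ o' ρ).1 t ∉ F} =
      ⋃ T : ℝ≥0, (fun ρ => (R hσ o' ρ).1 T) ⁻¹' Aᶜ ∩
        (fun ρ => (R hσ o' ρ).1) ⁻¹' {f | MapsTo f (Icc 0 T) Fᶜ} := by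
    ext ρ
    simp only [mem_ofPred_eq, mem_bd_iff hσ hc hA ho, not_forall, mem_iUnion, mem_inter_iff,
      mem_preimage, mem_compl_iff]
    constructor
    · rintro ⟨⟨T, hT⟩, h⟩
      exact ⟨T, hT, fun t _ => h t⟩
    · rintro ⟨T, hT, h⟩
      refine ⟨⟨T, hT⟩, fun t ht => ?_⟩
      rcases le_total t T with c | c
      · exact h ⟨zero_le, c⟩ ht
      · exact hT (hA.ray_le ho _ c (hFA ht))
  rw [this]
  exact isOpen_iUnion fun T =>
    (hc.isOpen_compl.preimage ((continuous_eval T).comp (R_cont hσ))).inter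
      ((ContinuousMap.isOpen_setOfPred_mapsTo isCompact_Icc hF.isOpen_compl).preimage
        (isEmbedding.continuous.comp (R_cont hσ)))

theorem three_cross {A B : Set Y} {q : ℝ → Y} (h : Cut σ A B (range q)) (hq : Isometry q)
    (hq' : ∀ a b, ∀ u ∈ Icc (0 : ℝ) 1, σ (q a) (q b) u = q ((1 - u) * a + u * b)) (ho : o' ∈ A)
    {c : Boundary σ o} {γ : Fin 3 → ℝ → Boundary σ o} (h1 : ∀ i, Continuous (γ i))
    (h2 : ∀ i, γ i 0 = c) (h3 : ∀ i, ∀ s ∈ Icc (0 : ℝ) 1, γ i s ∉ bd σ o A) :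
    ∃ i j, i ≠ j ∧ ∃ s ∈ Icc (0 : ℝ) 1, ∃ T a, (R hσ o' (γ j s)).1 T = q a ∧
      (R hσ o' (γ i 1)).1 T = q a := by
  have hcr : ∀ ρ : Boundary σ o, ρ ∉ bd σ o A → ∃ a T, (R hσ o' ρ).1 T = q a := by
    intro ρ hρ
    rw [mem_bd_iff hσ h.cA (h.cvx hσ) ho, not_forall] at hρ
    obtain ⟨T, hT⟩ := hρ
    obtain ⟨t, a, ha⟩ := h.cross ho _ hT
    exact ⟨a, t, ha.symm⟩
  obtain ⟨a0, T0, h0⟩ := hcr c (h2 0 ▸ h3 0 0 (left_mem_Icc.2 zero_le_one))
  choose a T ha using fun i => hcr _ (h3 i 1 (right_mem_Icc.2 zero_le_one))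
  obtain ⟨i, j, hij, hm⟩ := three_reals a0 a
  refine ⟨i, j, hij, ?_⟩
  have hcl : ∀ J : Set ℝ, IsClosed J → IsClosed (q '' J) := fun J hJ =>
    hq.isClosedEmbedding.isClosedMap J hJ
  have hsub : ∀ J : Set ℝ, q '' J ⊆ A := fun J y hy =>
    ((h.inter y).1 (image_subset_range q J hy)).1
  have key : ∀ J J' : Set ℝ, IsClosed J → IsClosed J' → (∀ x, x ∈ J ∨ x ∈ J') → a0 ∈ J →
      a j ∈ J' → ∃ s ∈ Icc (0 : ℝ) 1, ∃ x ∈ J, ∃ x' ∈ J', ∃ t t',
        (R hσ o' (γ j s)).1 t = q x ∧ (R hσ o' (γ j s)).1 t' = q x' := by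
    intro J J' c1 c2 hc m1 m2
    by_contra hcon
    have o1 := open_avoid hσ (o := o) h.cA (h.cvx hσ) ho (hcl J c1) (hsub J)
    have o2 := open_avoid hσ (o := o) h.cA (h.cvx hσ) ho (hcl J' c2) (hsub J')
    have hp : IsPreconnected (γ j '' Icc 0 1) := isPreconnected_Icc.image _ (h1 j).continuousOn
    have cov : ∀ s ∈ Icc (0 : ℝ) 1, (∀ t, (R hσ o' (γ j s)).1 t ∉ q '' J) ∨
        ∀ t, (R hσ o' (γ j s)).1 t ∉ q '' J' := by
      intro s hs
      by_contra hn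
      push Not at hn
      obtain ⟨⟨t, x, hx, e⟩, t', x', hx', e'⟩ := hn
      exact hcon ⟨s, hs, x, hx, x', hx', t, t', e.symm, e'.symm⟩
    obtain ⟨ρ, -, ⟨b1, b2⟩, -, b3⟩ := hp _ _ o1 o2 (by
        rintro _ ⟨s, hs, rfl⟩
        exact (cov s hs).imp (fun c => ⟨h3 j s hs, c⟩) fun c => ⟨h3 j s hs, c⟩)
      ⟨γ j 1, ⟨1, right_mem_Icc.2 zero_le_one, rfl⟩, h3 j 1 (right_mem_Icc.2 zero_le_one),
        (cov 1 (right_mem_Icc.2 zero_le_one)).resolve_right fun c => c (T j) ⟨_, m2, (ha j).symm⟩⟩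
      ⟨γ j 0, ⟨0, left_mem_Icc.2 zero_le_one, rfl⟩, h3 j 0 (left_mem_Icc.2 zero_le_one),
        (cov 0 (left_mem_Icc.2 zero_le_one)).resolve_left fun c => c T0 ⟨_, m1, by
          rw [h2]; exact h0.symm⟩⟩
    obtain ⟨x, t, hx⟩ := hcr ρ b1
    rcases hc x with c | c
    · exact b2 t ⟨x, c, hx.symm⟩
    · exact b3 t ⟨x, c, hx.symm⟩
  have fin : ∀ s ∈ Icc (0 : ℝ) 1, ∀ x x' t t', x ≤ a i → a i ≤ x' →
      (R hσ o' (γ j s)).1 t = q x → (R hσ o' (γ j s)).1 t' = q x' →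
      ∃ s ∈ Icc (0 : ℝ) 1, ∃ T a, (R hσ o' (γ j s)).1 T = q a ∧ (R hσ o' (γ i 1)).1 T = q a := by
    intro s hs x x' t t' c1 c2 e1 e2
    obtain ⟨v, u, hv, hu, huv, e⟩ := (Convex.mem_Icc (c1.trans c2)).1 ⟨c1, c2⟩
    have hv' : v = 1 - u := by linarith
    subst hv'
    have hu' : u ∈ Icc (0 : ℝ) 1 := ⟨hu, by linarith⟩
    have e3 := (R hσ o' (γ j s)).eq_sigma hσ (s := t) (t := t')
      (r := ⟨(1 - u) * t + u * t', by positivity⟩) hu' rfl
    rw [e1, e2, hq' _ _ _ hu', e] at e3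
    refine ⟨s, hs, T i, a i, ?_, ha i⟩
    have e4 := (R hσ o' (γ j s)).dist_base ⟨(1 - u) * t + u * t', by positivity⟩
    rw [e3, ← ha i, Boundary.dist_base] at e4
    rw [NNReal.coe_injective e4]
    exact e3
  rcases mem_uIcc.1 hm with c | c
  · obtain ⟨s, hs, x, hx, x', hx', t, t', e1, e2⟩ := key (Iic (a i)) (Ici (a i)) isClosed_Iic
      isClosed_Ici (fun x => le_total x _) c.1 c.2
    exact fin s hs x x' t t' hx hx' e1 e2
  · obtain ⟨s, hs, x, hx, x', hx', t, t', e1, e2⟩ := key (Ici (a i)) (Iic (a i)) isClosed_Ici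
      isClosed_Iic (fun x => le_total _ x) c.2 c.1
    exact fin s hs x' x t' t hx' hx e2 e1

omit [ProperSpace Y] hσ in
theorem Boundary.agree {ρ ρ' : Boundary σ o} {t T : ℝ≥0} (h : t ≤ T) (e : ρ.1 T = ρ'.1 T) :
    ρ.1 t = ρ'.1 t := by
  rw [ρ.eq_frac h, ρ'.eq_frac h, e]

theorem three_far {c : Boundary σ o} {γ : Fin 3 → ℝ → Boundary σ o} (h1 : ∀ i, Continuous (γ i))
    (h2 : ∀ i, γ i 0 = c)
    (h : ∀ n : ℕ, ∃ (A B : Set Y) (q : ℝ → Y), Cut σ A B (range q) ∧ Isometry q ∧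
      (∀ a b, ∀ u ∈ Icc (0 : ℝ) 1, σ (q a) (q b) u = q ((1 - u) * a + u * b)) ∧ o' ∈ A ∧
      (∀ a, (n : ℝ) ≤ dist o' (q a)) ∧ ∀ i, ∀ s ∈ Icc (0 : ℝ) 1, γ i s ∉ bd σ o A) :
    ∃ i j, i ≠ j ∧ ∃ s ∈ Icc (0 : ℝ) 1, γ i 1 = γ j s := by
  by_contra hcon
  push Not at hcon
  have key : ∀ i j, ∃ n : ℕ, i ≠ j → ∀ s ∈ Icc (0 : ℝ) 1,
      (R hσ o' (γ j s)).1 n ≠ (R hσ o' (γ i 1)).1 n := by
    intro i j
    by_contra hc
    push Not at hc
    have hij := (hc 0).1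
    obtain ⟨s, hs⟩ := IsCompact.nonempty_iInter_of_sequence_nonempty_isCompact_isClosed
      (fun n : ℕ => Icc (0 : ℝ) 1 ∩ {s | (R hσ o' (γ j s)).1 n = (R hσ o' (γ i 1)).1 n})
      (fun n s hs => ⟨hs.1, Boundary.agree (by exact_mod_cast Nat.le_succ n) hs.2⟩)
      (fun n => (hc n).2)
      (isCompact_Icc.inter_right (isClosed_eq
        ((continuous_eval _).comp ((R_cont hσ).comp (h1 j))) continuous_const))
      (fun n => isClosed_Icc.inter (isClosed_eq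
        ((continuous_eval _).comp ((R_cont hσ).comp (h1 j))) continuous_const))
    rw [mem_iInter] at hs
    refine hcon i j hij s (hs 0).1 (R_inj hσ (o' := o') (Boundary.ext' fun t => ?_))
    exact (Boundary.agree (Nat.le_ceil t) (hs ⌈t⌉₊).2).symm
  choose n hn using key
  obtain ⟨A, B, q, a1, a2, a3, a4, a5, a6⟩ := h (∑ i, ∑ j, n i j)
  obtain ⟨i, j, hij, s, hs, T, a, e1, e2⟩ := three_cross hσ a1 a2 a3 a4 h1 h2 a6
  refine hn i j hij s hs (Boundary.agree (T := T) ?_ (e1.trans e2.symm))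
  have b1 := a5 a
  rw [← e1, Boundary.dist_base] at b1
  have b2 : n i j ≤ ∑ i, ∑ j, n i j :=
    (Finset.single_le_sum (f := fun j => n i j) (fun _ _ => Nat.zero_le _) (Finset.mem_univ j)).trans
      (Finset.single_le_sum (f := fun i => ∑ j, n i j) (fun _ _ => Nat.zero_le _) (Finset.mem_univ i))
  have b3 : ((n i j : ℕ) : ℝ) ≤ T := le_trans (by exact_mod_cast b2) b1
  exact_mod_cast b3

end Pool.Agent.Work.MP_f8dec8_al
end
end

-- merged part: Pool.Agent.Work.MP_f8dec8_al.Geo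
section
/-! Geometry of a bicombing on the tree of planes. -/

namespace Pool.Agent.Work.MP_f8dec8_al

open Set Filter Topology NNReal Boundary

def lin (i : Fin 4) (p : ℝ × ℝ) : ℝ := ![p.1, -p.1, p.2, -p.2] i

def eV (i : Fin 4) : ℝ × ℝ := ![(1, 0), (-1, 0), (0, 1), (0, -1)] i

theorem le_ev' (k : K4) (p : ℝ × ℝ) (i : Fin 4) : k i + lin i p ≤ ev k p := by
  obtain ⟨a1, a2, a3, a4⟩ := le_ev k p
  fin_cases i
  · exact a1
  · simpa [lin, sub_eq_add_neg] using a2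
  · exact a3
  · simpa [lin, sub_eq_add_neg] using a4

theorem ev_le' {k : K4} {p : ℝ × ℝ} {M : ℝ} (h : ∀ i, k i + lin i p ≤ M) : ev k p ≤ M :=
  ev_le_iff.2 ⟨h 0, by simpa [lin, sub_eq_add_neg] using h 1, h 2,
    by simpa [lin, sub_eq_add_neg] using h 3⟩

theorem lin_eV (i : Fin 4) (s : ℝ) : lin i (s • eV i) = s := by
  fin_cases i <;> simp [lin, eV]

theorem lin_add (i : Fin 4) (p q : ℝ × ℝ) : lin i (p + q) = lin i p + lin i q := by
  fin_cases i <;> simp [lin] <;> ring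

theorem lin_smul (i : Fin 4) (a : ℝ) (p : ℝ × ℝ) : lin i (a • p) = a * lin i p := by
  fin_cases i <;> simp [lin]

theorem ev_far (k : K4) (i : Fin 4) : ∀ᶠ s in atTop, ev k (s • eV i) ≤ k i + s := by
  filter_upwards [eventually_ge_atTop (|k 0| + |k 1| + |k 2| + |k 3| + |k i|)] with s hs
  have a0 := le_abs_self (k 0)
  have a1 := le_abs_self (k 1)
  have a2 := le_abs_self (k 2)
  have a3 := le_abs_self (k 3)
  have a4 := neg_abs_le (k i)
  rw [ev_le_iff]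
  fin_cases i <;> simp [eV] at * <;> refine ⟨?_, ?_, ?_⟩ <;>
    linarith [abs_nonneg (k 0), abs_nonneg (k 1), abs_nonneg (k 2), abs_nonneg (k 3)]

theorem KK_plane (d : Bool) (W : P) (p : ℝ × ℝ) (i : Fin 4) : KK d (W, p) W i = -lin i p := by
  have := KK_self (d := d) (W, p)
  simp only at this
  rw [this]
  fin_cases i <;> simp [lin]

def eK (d κ : Bool) : ℝ × ℝ := if κ then (0, 1) else (1, lam d)

def bp (W : P) (l : L) : ℝ × ℝ := if l.1 then ((pos W l : ℝ), 0) else (0, (pos W l : ℝ))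

noncomputable def un (e : ℝ × ℝ) : ℝ × ℝ := ‖e‖⁻¹ • e

theorem norm_un {e : ℝ × ℝ} (he : e ≠ 0) : ‖un e‖ = 1 := norm_smul_inv_norm he

theorem un_of_norm {e : ℝ × ℝ} (he : ‖e‖ = 1) : un e = e := by simp [un, he]

theorem un_smul {c : ℝ} (hc : 0 < c) (e : ℝ × ℝ) : un (c • e) = un e := by
  unfold un
  rw [norm_smul, Real.norm_of_nonneg hc.le, smul_smul, mul_inv, mul_comm c⁻¹, mul_assoc,
    inv_mul_cancel₀ hc.ne', mul_one]

variable {d : Bool}

theorem norm_eK (κ : Bool) : ‖eK d κ‖ = 1 := by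
  cases κ <;> cases d <;> simp [eK, lam, Prod.norm_def]

theorem tau_add (κ : Bool) (p q : ℝ × ℝ) : tau d κ (p + q) = tau d κ p + tau d κ q := by
  cases κ <;> simp [tau] <;> ring

theorem tau_smul (κ : Bool) (a : ℝ) (p : ℝ × ℝ) : tau d κ (a • p) = a * tau d κ p := by
  cases κ <;> simp [tau] <;> ring

theorem tau_eK (κ : Bool) : tau d κ (eK d κ) = 0 := by cases κ <;> simp [tau, eK]

theorem tau_eK_not (κ : Bool) : tau d κ (eK d (!κ)) = 1 := by cases κ <;> simp [tau, eK]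

theorem tau_bp (W : P) (l : L) : tau d l.1 (bp W l) = pos W l := by
  rcases l with ⟨_ | _, i⟩ <;> simp [tau, bp]

theorem eq_smul_of_tau {κ : Bool} {e : ℝ × ℝ} (h : tau d κ e = 0) : ∃ t : ℝ, e = t • eK d κ := by
  cases κ
  · refine ⟨e.1, Prod.ext (by simp [eK]) ?_⟩
    simp only [tau] at h
    simp [eK]
    simp at h
    linarith
  · refine ⟨e.2, Prod.ext ?_ (by simp [eK])⟩
    simpa [tau, eK] using h

theorem eq_zero_of_tau {κ : Bool} {e : ℝ × ℝ} (h : tau d κ e = 0) (h' : tau d (!κ) e = 0) :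
    e = 0 := by
  obtain ⟨t, rfl⟩ := eq_smul_of_tau h
  have := tau_eK_not (d := d) (!κ)
  rw [Bool.not_not] at this
  rw [tau_smul, this, mul_one] at h'
  simp [h']

theorem tau_un {κ : Bool} {e : ℝ × ℝ} (he : e ≠ 0) : tau d κ (un e) = 0 ↔ tau d κ e = 0 := by
  simp [un, tau_smul, he]

theorem tau_un_pos {κ : Bool} {e : ℝ × ℝ} (he : e ≠ 0) : 0 < tau d κ (un e) ↔ 0 < tau d κ e := by
  rw [un, tau_smul]
  exact mul_pos_iff_of_pos_left (inv_pos.2 (norm_pos_iff.2 he))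

structure Setup (d : Bool) {Y : Type} [MetricSpace Y] (ι : X → Y) (σ : Y → Y → ℝ → Y) : Prop where
  surj : Function.Surjective ι
  dist_eq : ∀ z w, dist (ι z) (ι w) = D d z w
  bic : IsBicombing σ

variable {Y : Type} [MetricSpace Y] {ι : X → Y} {σ : Y → Y → ℝ → Y}

namespace Setup

variable (S : Setup d ι σ)
include S

noncomputable def KY (y : Y) (W : P) : K4 := KK d (Function.surjInv S.surj y) W

theorem dist_KY (y : Y) (W : P) (p : ℝ × ℝ) : dist y (ι (W, p)) = ev (S.KY y W) p := by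
  conv_lhs => rw [← Function.surjInv_eq S.surj y, S.dist_eq]
  rfl

theorem KY_lip (y y' : Y) (W : P) (i : Fin 4) : S.KY y W i ≤ S.KY y' W i + dist y y' := by
  obtain ⟨s, hs⟩ := (ev_far (S.KY y' W) i).exists
  have h1 := le_ev' (S.KY y W) (s • eV i) i
  rw [lin_eV, ← S.dist_KY] at h1
  rw [← S.dist_KY] at hs
  have := dist_triangle y y' (ι (W, s • eV i))
  linarith

theorem KY_cont (W : P) (i : Fin 4) : Continuous fun y => S.KY y W i :=
  (LipschitzWith.of_le_add fun y y' => S.KY_lip y y' W i).continuous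

theorem KY_io (z : X) (W : P) (i : Fin 4) : S.KY (ι z) W i = KK d z W i := by
  have key : ∀ k k' : K4, (∀ p, ev k p = ev k' p) → k i ≤ k' i := by
    intro k k' h
    obtain ⟨s, hs⟩ := (ev_far k' i).exists
    have h1 := le_ev' k (s • eV i) i
    rw [lin_eV, h] at h1
    linarith
  have h : ∀ p, ev (S.KY (ι z) W) p = ev (KK d z W) p := fun p => by
    rw [← S.dist_KY, S.dist_eq]; rfl
  exact le_antisymm (key _ _ h) (key _ _ fun p => (h p).symm)

theorem KY_conv (y0 y1 : Y) {u : ℝ} (hu : u ∈ Icc (0 : ℝ) 1) (W : P) (i : Fin 4) :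
    S.KY (σ y0 y1 u) W i ≤ (1 - u) * S.KY y0 W i + u * S.KY y1 W i := by
  obtain ⟨s, h0, h1⟩ := ((ev_far (S.KY y0 W) i).and (ev_far (S.KY y1 W) i)).exists
  have h2 := le_ev' (S.KY (σ y0 y1 u) W) (s • eV i) i
  rw [lin_eV, ← S.dist_KY] at h2
  rw [← S.dist_KY] at h0 h1
  have h3 := S.bic.dist_le (ι (W, s • eV i)) y0 y1 hu
  nlinarith [hu.1, hu.2]

theorem sigma_plane (W : P) (p q : ℝ × ℝ) {u : ℝ} (hu : u ∈ Icc (0 : ℝ) 1) :
    σ (ι (W, p)) (ι (W, q)) u = ι (W, (1 - u) • p + u • q) := by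
  refine dist_le_zero.1 ?_
  rw [S.dist_KY]
  refine ev_le' fun i => ?_
  have := S.KY_conv (ι (W, p)) (ι (W, q)) hu W i
  rw [S.KY_io, S.KY_io, KK_plane, KK_plane] at this
  rw [lin_add, lin_smul, lin_smul]
  linarith

theorem dist_plane (W : P) (p q : ℝ × ℝ) : dist (ι (W, p)) (ι (W, q)) = dist p q := by
  rw [S.dist_eq, D_plane]

theorem iso_plane (W : P) : Isometry fun p => ι (W, p) := Isometry.of_dist_eq (S.dist_plane W)

theorem glue {W : P} {l : L} {p : ℝ × ℝ} (h : tau d l.1 p = pos W l) :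
    ι (step l W, p) = ι (W, p) := by
  rw [← dist_eq_zero, dist_comm, S.dist_eq, D_glue_zero h]

end Setup

def plane (ι : X → Y) (W : P) : Set Y := range fun p => ι (W, p)

def lq (d : Bool) (ι : X → Y) (W : P) (l : L) (t : ℝ) : Y := ι (W, bp W l + t • eK d l.1)

def side (ι : X → Y) (W : P) (l : L) : Set Y := ι '' {z | ¬ beh W l z.1}

omit [MetricSpace Y] in
theorem plane_sub_side (W : P) (l : L) : plane ι W ⊆ side ι W l := by
  rintro _ ⟨p, rfl⟩
  exact ⟨(W, p), not_beh_self W l, rfl⟩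

omit [MetricSpace Y] in
theorem line_sub_plane (W : P) (l : L) : range (lq d ι W l) ⊆ plane ι W := by
  rintro _ ⟨t, rfl⟩
  exact ⟨_, rfl⟩

omit [MetricSpace Y] in
theorem mem_line {W : P} {l : L} {p : ℝ × ℝ} (h : tau d l.1 p = pos W l) :
    ι (W, p) ∈ range (lq d ι W l) := by
  obtain ⟨t, ht⟩ := eq_smul_of_tau (d := d) (κ := l.1) (e := p + (-1 : ℝ) • bp W l) (by
    rw [tau_add, tau_smul, tau_bp, h]; ring)
  refine ⟨t, ?_⟩
  unfold lq
  rw [← ht]
  simp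

omit [MetricSpace Y] in
theorem side_mono {W : P} {l l' : L} (h : l ≠ l') : side ι W l ⊆ side ι (step l W) l' :=
  image_mono fun _ hz hb => h (beh_unique (beh_step.2 hz) hb)

namespace Setup

variable (S : Setup d ι σ)
include S

theorem of_mem_line {W : P} {l : L} {p : ℝ × ℝ} (h : ι (W, p) ∈ range (lq d ι W l)) :
    tau d l.1 p = pos W l := by
  obtain ⟨t, ht⟩ := h
  have := (S.iso_plane W).injective ht
  rw [← this, tau_add, tau_smul, tau_eK, tau_bp]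
  ring

theorem iso_lq (W : P) (l : L) : Isometry (lq d ι W l) :=
  Isometry.of_dist_eq fun s t => by
    unfold lq
    rw [S.dist_plane, dist_add_left, dist_eq_norm, ← sub_smul, norm_smul, norm_eK, mul_one]
    rfl

theorem sigma_lq (W : P) (l : L) (a b : ℝ) (u : ℝ) (hu : u ∈ Icc (0 : ℝ) 1) :
    σ (lq d ι W l a) (lq d ι W l b) u = lq d ι W l ((1 - u) * a + u * b) := by
  unfold lq
  rw [S.sigma_plane _ _ _ hu]
  congr 2
  module

theorem line_step (W : P) (l : L) : lq d ι (step l W) l = lq d ι W l := by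
  funext t
  have e : bp (step l W) l = bp W l := by simp [bp, pos_step_same]
  unfold lq
  rw [e]
  apply S.glue
  rw [tau_add, tau_smul, tau_eK, tau_bp]
  ring

theorem sep {W : P} {l : L} {a b : Y} (ha : a ∈ side ι W l) (hb : b ∈ side ι (step l W) l) :
    ∃ q ∈ range (lq d ι W l), dist a q + dist q b ≤ dist a b := by
  obtain ⟨x, hx, rfl⟩ := ha
  obtain ⟨y, hy, rfl⟩ := hb
  obtain ⟨q, h1, h2⟩ := D_sep (d := d) hx (by
    by_contra hc
    exact hy (beh_step.2 hc))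
  exact ⟨_, mem_line h1, by simpa only [S.dist_eq] using h2⟩

theorem cover (W : P) (l : L) (y : Y) : y ∈ side ι W l ∨ y ∈ side ι (step l W) l := by
  obtain ⟨z, rfl⟩ := S.surj y
  by_cases h : beh W l z.1
  · exact Or.inr ⟨z, fun h' => beh_step.1 h' h, rfl⟩
  · exact Or.inl ⟨z, h, rfl⟩

theorem closed_side (W : P) (l : L) : IsClosed (side ι W l) := by
  refine closure_subset_iff_isClosed.1 fun y hy => ?_
  rcases S.cover W l y with h | h
  · exact h
  refine plane_sub_side W l (line_sub_plane (d := d) W l ?_)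
  rw [← (S.iso_lq W l).isClosedEmbedding.isClosed_range.closure_eq]
  rw [Metric.mem_closure_iff] at hy ⊢
  intro ε hε
  obtain ⟨a, ha, h1⟩ := hy ε hε
  obtain ⟨q, hq, h2⟩ := S.sep ha h
  refine ⟨q, hq, ?_⟩
  rw [dist_comm] at h1 ⊢
  linarith [dist_nonneg (x := a) (y := q)]

theorem cut (W : P) (l : L) :
    Cut σ (side ι W l) (side ι (step l W) l) (range (lq d ι W l)) := by
  refine ⟨S.closed_side W l, S.closed_side _ l, S.cover W l, fun y => ⟨fun h => ⟨?_, ?_⟩, ?_⟩, ?_,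
    range_nonempty _⟩
  · exact plane_sub_side W l (line_sub_plane W l h)
  · rw [← S.line_step] at h
    exact plane_sub_side _ l (line_sub_plane _ l h)
  · rintro ⟨h1, h2⟩
    obtain ⟨q, hq, h⟩ := S.sep h1 h2
    rw [dist_self, dist_comm q y] at h
    have : dist y q ≤ 0 := by linarith
    rwa [dist_le_zero.1 this]
  · rintro _ ⟨a, rfl⟩ _ ⟨b, rfl⟩ u hu
    exact ⟨_, (S.sigma_lq W l a b u hu).symm⟩

theorem closed_plane (W : P) : IsClosed (plane ι W) :=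
  (S.iso_plane W).isClosedEmbedding.isClosed_range

theorem cvx_plane (W : P) : Cvx σ (plane ι W) := by
  rintro _ ⟨a, rfl⟩ _ ⟨b, rfl⟩ u hu
  exact ⟨_, (S.sigma_plane W a b hu).symm⟩

/-- Affine rays. -/
noncomputable def aff (W : P) (p e : ℝ × ℝ) (he : e ≠ 0) : Boundary σ (ι (W, p)) :=
  have h : Isometry fun t : ℝ≥0 => ι (W, p + (t : ℝ) • un e) := Isometry.of_dist_eq fun s t => by
    rw [S.dist_plane, dist_add_left, dist_eq_norm, ← sub_smul, norm_smul, norm_un he, mul_one]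
    rfl
  ⟨⟨_, h.continuous⟩, by simp, h, fun s t r _ u hu hr => by
    show ι _ = σ (ι _) (ι _) u
    rw [S.sigma_plane _ _ _ hu, hr]
    congr 2
    module⟩

theorem aff_apply (W : P) (p e : ℝ × ℝ) (he : e ≠ 0) (t : ℝ≥0) :
    (S.aff W p e he).1 t = ι (W, p + (t : ℝ) • un e) := rfl

noncomputable def Ph (y : Y) : ℝ × ℝ := (Function.surjInv S.surj y).2

theorem Ph_io (z : X) : S.Ph (ι z) = z.2 := by
  have := dev_le (d := d) (Function.surjInv S.surj (ι z)) z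
  rw [← S.dist_eq, Function.surjInv_eq S.surj, dist_self] at this
  exact dist_le_zero.1 this

theorem Ph_cont : Continuous S.Ph :=
  (LipschitzWith.of_dist_le_mul (K := 1) fun a b => by
    obtain ⟨a, rfl⟩ := S.surj a
    obtain ⟨b, rfl⟩ := S.surj b
    rw [S.Ph_io, S.Ph_io, S.dist_eq, NNReal.coe_one, one_mul]
    exact dev_le a b).continuous

variable [ProperSpace Y] {o : Y}

noncomputable def dir (o : Y) (W : P) (e : ℝ × ℝ) (he : e ≠ 0) : Boundary σ o :=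
  R S.bic o (S.aff W 0 e he)

theorem dir_bdd (W : P) (p e : ℝ × ℝ) (he : e ≠ 0) (t : ℝ≥0) :
    dist ((S.dir o W e he).1 t) (ι (W, p + (t : ℝ) • un e)) ≤ dist (ι (W, 0)) o + dist 0 p := by
  have h1 := R_dist S.bic o (S.aff W 0 e he) t
  have h2 := dist_triangle_left ((S.dir o W e he).1 t) (ι (W, p + (t : ℝ) • un e))
    (ι (W, 0 + (t : ℝ) • un e))
  rw [S.dist_plane, dist_add_right] at h2
  exact h2.trans (add_le_add h1 le_rfl)

theorem R_dir (W : P) (p e : ℝ × ℝ) (he : e ≠ 0) :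
    R S.bic (ι (W, p)) (S.dir o W e he) = S.aff W p e he := R_eq S.bic (S.dir_bdd W p e he)

theorem R_dir' (o' : Y) (W : P) (e : ℝ × ℝ) (he : e ≠ 0) :
    R S.bic o' (S.dir o W e he) = S.dir o' W e he :=
  R_eq S.bic (C := dist (ι (W, 0)) o + dist (ι (W, 0)) o') fun t =>
    (dist_triangle_left _ _ _).trans
      (add_le_add (R_dist S.bic o (S.aff W 0 e he) t) (R_dist S.bic o' (S.aff W 0 e he) t))

theorem eq_dir {ρ : Boundary σ o} {W : P} {p e : ℝ × ℝ} (he : e ≠ 0) {C : ℝ}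
    (h : ∀ t, dist (ρ.1 t) (ι (W, p + (t : ℝ) • un e)) ≤ C) : ρ = S.dir o W e he :=
  eq_of_bdd S.bic fun t => (dist_triangle_right _ _ _).trans
    (add_le_add (h t) (S.dir_bdd W p e he t))

theorem dir_congr {W : P} {e e' : ℝ × ℝ} (he : e ≠ 0) (he' : e' ≠ 0) (h : un e = un e') :
    S.dir o W e he = S.dir o W e' he' :=
  S.eq_dir he' (p := 0) fun t => h ▸ S.dir_bdd W 0 e he t

theorem dir_mem (W : P) (e : ℝ × ℝ) (he : e ≠ 0) : S.dir o W e he ∈ bd σ o (plane ι W) :=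
  ⟨_, fun t => ⟨_, ⟨_, rfl⟩, S.dir_bdd W 0 e he t⟩⟩

theorem exists_dir {W : P} {ρ : Boundary σ o} (h : ρ ∈ bd σ o (plane ι W)) :
    ∃ e he, ρ = S.dir o W e he := by
  rw [mem_bd_iff S.bic (S.closed_plane W) (S.cvx_plane W) ⟨0, rfl⟩] at h
  choose p hp using h
  have h1 : ‖p 1‖ = 1 := by
    have := (R S.bic (ι (W, 0)) ρ).dist_base 1
    rw [← hp, S.dist_plane, dist_zero_left] at this
    simpa using this
  have he : p 1 ≠ 0 := by
    intro e
    rw [e, norm_zero] at h1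
    exact zero_ne_one h1
  refine ⟨p 1, he, S.eq_dir he (p := 0) (C := dist o (ι (W, 0))) fun t => ?_⟩
  have h2 : p t = (t : ℝ) • p 1 := by
    rcases le_total t 1 with c | c
    · have := (R S.bic (ι (W, 0)) ρ).eq_frac c
      rw [← hp, ← hp, S.sigma_plane _ _ _ (frac_mem c)] at this
      simpa using (S.iso_plane W).injective this
    · have := (R S.bic (ι (W, 0)) ρ).eq_frac c
      rw [← hp, ← hp, S.sigma_plane _ _ _ (frac_mem c)] at this
      have h3 := (S.iso_plane W).injective this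
      have h4 : (t : ℝ) ≠ 0 := by
        have : (1 : ℝ) ≤ t := by exact_mod_cast c
        linarith
      rw [h3]
      simp [smul_smul, h4]
  have := R_dist S.bic (ι (W, 0)) ρ t
  rw [← hp, h2] at this
  rwa [zero_add, un_of_norm h1]

noncomputable def E (W : P) (ρ : Boundary σ o) : ℝ × ℝ := S.Ph ((R S.bic (ι (W, 0)) ρ).1 1)

theorem E_cont (W : P) : Continuous (S.E (o := o) W) :=
  S.Ph_cont.comp ((continuous_eval 1).comp (R_cont S.bic))

theorem E_dir (W : P) (e : ℝ × ℝ) (he : e ≠ 0) : S.E W (S.dir o W e he) = un e := by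
  unfold E
  rw [S.R_dir, aff_apply, S.Ph_io]
  simp

theorem dir_inj {W : P} {e e' : ℝ × ℝ} {he : e ≠ 0} {he' : e' ≠ 0}
    (h : S.dir o W e he = S.dir o W e' he') : un e = un e' := by
  rw [← S.E_dir (o := o) W e he, h, S.E_dir]

theorem dir_cont (W : P) {e : ℝ → ℝ × ℝ} (hc : Continuous e) (he : ∀ s, e s ≠ 0) :
    Continuous fun s => S.dir o W (e s) (he s) := by
  refine (R_cont S.bic).comp (continuous_iff_continuousAt.2 fun s => (tendsto_iff S.bic).2 fun t => ?_)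
  have h1 : Continuous fun s => un (e s) :=
    (hc.norm.inv₀ fun s => norm_ne_zero_iff.2 (he s)).smul hc
  exact ((S.iso_plane W).continuous.comp (continuous_const.add (h1.const_smul (t : ℝ)))).tendsto s

def PL (o : Y) (W : P) (κ : Bool) : Set (Boundary σ o) :=
  {ρ | ∃ e he, tau d κ e = 0 ∧ ρ = S.dir o W e he}

theorem bd_line (W : P) (l : L) : bd σ o (range (lq d ι W l)) = S.PL o W l.1 := by
  ext ρ
  constructor
  · intro h
    obtain ⟨e, he, rfl⟩ := S.exists_dir (bd_mono (line_sub_plane W l) h)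
    refine ⟨e, he, ?_, rfl⟩
    have h1 := (mem_bd_iff S.bic (S.cut W l).cL (S.cut W l).cvxL (mem_line (tau_bp W l))).1 h 1
    rw [S.R_dir, aff_apply] at h1
    have h2 := S.of_mem_line h1
    rw [tau_add, tau_bp, tau_smul] at h2
    rw [← tau_un he]
    simpa using h2
  · rintro ⟨e, he, h, rfl⟩
    refine ⟨_, fun t => ⟨_, mem_line ?_, S.dir_bdd W (bp W l) e he t⟩⟩
    rw [tau_add, tau_bp, tau_smul, (tau_un he).2 h]
    simp

theorem closed_PL (W : P) (κ : Bool) : IsClosed (S.PL o W κ) := by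
  rw [← S.bd_line W (κ, 0)]
  exact isClosed_bd S.bic (S.cut W _).cL (S.cut W _).cvxL (range_nonempty _)

theorem PL_step (W : P) (l : L) : S.PL o (step l W) l.1 = S.PL o W l.1 := by
  rw [← S.bd_line, ← S.bd_line, S.line_step]

theorem dir_step {W : P} {l : L} {e : ℝ × ℝ} (he : e ≠ 0) (h : tau d l.1 e = 0) :
    S.dir o (step l W) e he = S.dir o W e he :=
  S.eq_dir he (p := bp W l) fun t => by
    rw [← S.glue]
    · exact S.dir_bdd _ _ e he t
    · rw [tau_add, tau_bp, tau_smul, (tau_un he).2 h]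
      simp

theorem dir_mem_PL {W : P} {κ : Bool} {e : ℝ × ℝ} {he : e ≠ 0} :
    S.dir o W e he ∈ S.PL o W κ ↔ tau d κ e = 0 := by
  refine ⟨?_, fun h => ⟨e, he, h, rfl⟩⟩
  rintro ⟨e', he', h1, h2⟩
  rw [← tau_un he, S.dir_inj h2, tau_un he']
  exact h1

theorem PL_disj {W : P} {κ κ' : Bool} (h : κ ≠ κ') {ρ : Boundary σ o} (h1 : ρ ∈ S.PL o W κ)
    (h2 : ρ ∈ S.PL o W κ') : False := by
  obtain ⟨e, he, h3, rfl⟩ := h1
  have : κ' = !κ := by revert h; cases κ <;> cases κ' <;> simp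
  subst this
  exact he (eq_zero_of_tau h3 (S.dir_mem_PL.1 h2))

theorem dir_side (W : P) (l : L) (e : ℝ × ℝ) (he : e ≠ 0) :
    S.dir o W e he ∈ bd σ o (side ι W l) := bd_mono (plane_sub_side W l) (S.dir_mem W e he)

theorem inter_PL {W : P} {l : L} {ρ : Boundary σ o} (h1 : ρ ∈ bd σ o (side ι W l))
    (h2 : ρ ∈ bd σ o (side ι (step l W) l)) : ρ ∈ S.PL o W l.1 := by
  rw [← S.bd_line]
  exact (S.cut W l).bd_inter S.bic h1 h2

theorem PL_side {W : P} {l : L} {ρ : Boundary σ o} (h : ρ ∈ S.PL o W l.1) :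
    ρ ∈ bd σ o (side ι W l) := by
  obtain ⟨e, he, -, rfl⟩ := h
  exact S.dir_side W l e he

theorem stay {W : P} {l : L} {A : Set (Boundary σ o)} (hA : IsPreconnected A)
    (hL : ∀ z ∈ A, z ∉ S.PL o W l.1) {z0 : Boundary σ o} (h0 : z0 ∈ A)
    (h0' : z0 ∉ bd σ o (side ι W l)) : ∀ z ∈ A, z ∉ bd σ o (side ι W l) :=
  (S.cut W l).stay S.bic hA (by rwa [S.bd_line]) h0 h0'

theorem plane_of_sides {W : P} {ρ : Boundary σ o} (h : ∀ l, ρ ∈ bd σ o (side ι W l)) :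
    ρ ∈ bd σ o (plane ι W) := by
  rw [mem_bd_iff S.bic (S.closed_plane W) (S.cvx_plane W) ⟨0, rfl⟩]
  intro t
  obtain ⟨z, hz⟩ := S.surj ((R S.bic (ι (W, 0)) ρ).1 t)
  by_cases hW : z.1 = W
  · exact ⟨z.2, by rw [← hz, ← hW]⟩
  · obtain ⟨l, hl⟩ := exists_beh hW
    have h1 := (mem_bd_iff S.bic (S.closed_side W l) ((S.cut W l).cvx S.bic)
      (plane_sub_side W l ⟨0, rfl⟩)).1 (h l) t
    exact line_sub_plane W l (((S.cut W l).inter _).2 ⟨h1, z, fun h' => beh_step.1 h' hl, hz⟩)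

theorem bus (o' : Y) (W : P) (e : ℝ × ℝ) (he : e ≠ 0) (i : Fin 4) (t : ℝ≥0) :
    S.KY ((R S.bic o' (S.dir o W e he)).1 t) W i ≤ S.KY o' W i - t * lin i (un e) := by
  rw [S.R_dir']
  refine le_of_frac (c := dist (ι (W, 0)) o' + dist (0 : ℝ × ℝ) 0 - S.KY o' W i) (t := t)
    fun T hT hT0 => ?_
  have h1 := S.dir_bdd (o := o') W 0 e he T
  have h2 := le_ev' (S.KY ((S.dir o' W e he).1 T) W) (0 + (T : ℝ) • un e) i
  rw [← S.dist_KY, zero_add, lin_smul] at h2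
  rw [zero_add] at h1
  rw [(S.dir o' W e he).eq_frac hT]
  refine (S.KY_conv _ _ (frac_mem hT) W i).trans ?_
  have h3 := mul_le_mul_of_nonneg_left (h2.trans h1) (frac_mem hT).1
  have h4 : (t : ℝ) / T * T = t := div_mul_cancel₀ _ (by exact_mod_cast hT0.ne')
  have h5 : (t : ℝ) / T * (T * lin i (un e)) = t * lin i (un e) := by rw [← mul_assoc, h4]
  nlinarith

end Setup

end Pool.Agent.Work.MP_f8dec8_al
end

-- merged part: Pool.Agent.Work.MP_f8dec8_al.Final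
section
-- merged part: Pool.Agent.Work.MP_f8dec8_al.Branch
section
/-! Branch points of the boundary. -/

namespace Pool.Agent.Work.MP_f8dec8_al

open Set Filter Topology NNReal Boundary

variable {d : Bool} {Y : Type} [MetricSpace Y] {ι : X → Y} {σ : Y → Y → ℝ → Y}

structure Itin (ι : X → Y) {o : Y} (ρ : Boundary σ o) (W : ℕ → P) (l : ℕ → L) : Prop where
  next : ∀ k, W (k + 1) = step (l k) (W k)
  out : ∀ k, ρ ∉ bd σ o (side ι (W k) (l k))

theorem exists_itin {o : Y} {ρ : Boundary σ o} {B : Set P} {Q : L → Prop} {W0 : P} (h0 : W0 ∈ B)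
    (h : ∀ W ∈ B, ∃ l, Q l ∧ step l W ∈ B ∧ ρ ∉ bd σ o (side ι W l)) :
    ∃ W l, W 0 = W0 ∧ Itin ι ρ W l ∧ ∀ k, W k ∈ B ∧ Q (l k) := by
  choose f hf using fun W : B => h W.1 W.2
  let nx : B → B := fun W => ⟨step (f W) W.1, (hf W).2.1⟩
  refine ⟨fun k => (nx^[k] ⟨W0, h0⟩).1, fun k => f (nx^[k] ⟨W0, h0⟩), rfl,
    ⟨fun k => ?_, fun k => (hf _).2.2⟩, fun k => ⟨(nx^[k] ⟨W0, h0⟩).2, (hf _).1⟩⟩
  rw [Function.iterate_succ_apply']

theorem Itin.shift {o : Y} {ρ : Boundary σ o} {W : ℕ → P} {l : ℕ → L} (h : Itin ι ρ W l) (n : ℕ) :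
    Itin ι ρ (fun k => W (n + k)) (fun k => l (n + k)) :=
  ⟨fun k => h.next (n + k), fun k => h.out (n + k)⟩

namespace Setup

variable (S : Setup d ι σ) [ProperSpace Y] {o : Y}
include S

theorem not_br_dir {W : P} {e : ℝ × ℝ} {he : e ≠ 0} (h : ∀ κ, tau d κ e ≠ 0) :
    ¬ Br (S.dir o W e he) := by
  intro hb
  have h1 : (un e).1 ≠ 0 := fun c => h true ((tau_un he).1 c)
  have hE : Continuous fun ρ : Boundary σ o => (S.E W ρ).1 * (un e).1 :=
    (continuous_fst.comp (S.E_cont W)).mul continuous_const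
  obtain ⟨γ, g1, g2, g3, g4⟩ := hb.local
    (U := (S.PL o W true ∪ S.PL o W false)ᶜ ∩ {ρ | 0 < (S.E W ρ).1 * (un e).1})
    (((S.closed_PL W true).union (S.closed_PL W false)).isOpen_compl.inter
      (isOpen_lt continuous_const hE)) ⟨by
        rintro (c | c)
        · exact h _ (S.dir_mem_PL.1 c)
        · exact h _ (S.dir_mem_PL.1 c), by
        rw [mem_ofPred_eq, S.E_dir]
        exact mul_self_pos.2 h1⟩
  obtain ⟨i, j, hij, t, ht, e1⟩ := three_paths g2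
    (K := bd σ o (plane ι W) ∩ {ρ | 0 < (S.E W ρ).1 * (un e).1})
    (φ := fun ρ => (S.E W ρ).2 / (S.E W ρ).1) (fun i s hs => ⟨S.plane_of_sides fun l => by
      refine ((S.cut W l).bd_cover S.bic _).resolve_right ?_
      refine S.stay (A := γ i '' Icc 0 1) (isPreconnected_Icc.image _ (g1 i).continuousOn) ?_
        ⟨0, left_mem_Icc.2 zero_le_one, g2 i⟩
        (fun c => h _ (S.dir_mem_PL.1 (S.inter_PL (S.dir_side W l e he) c))) _ ⟨s, hs, rfl⟩
      rintro _ ⟨s, hs, rfl⟩ c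
      rw [S.PL_step] at c
      refine (g3 i s hs).1 ?_
      revert c
      cases l.1
      · exact Or.inr
      · exact Or.inl, (g3 i s hs).2⟩)
    (fun i => ((continuous_snd.comp ((S.E_cont W).comp (g1 i))).continuousOn).div
      (continuous_fst.comp ((S.E_cont W).comp (g1 i))).continuousOn fun s hs c => by
        have : 0 < (S.E W (γ i s)).1 * (un e).1 := (g3 i s hs).2
        rw [show (S.E W (γ i s)).1 = 0 from c, zero_mul] at this
        exact lt_irrefl _ this)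
    (by
      rintro a ⟨a1, a2⟩ b ⟨b1, b2⟩ hab
      obtain ⟨u, hu, rfl⟩ := S.exists_dir a1
      obtain ⟨v, hv, rfl⟩ := S.exists_dir b1
      simp only [mem_ofPred_eq, S.E_dir] at a2 b2 hab
      have u1 : (un u).1 ≠ 0 := by rintro c; simp [c] at a2
      have v1 : (un v).1 ≠ 0 := by rintro c; simp [c] at b2
      have c0 : 0 < (un v).1 / (un u).1 := by
        have : (un v).1 / (un u).1 = ((un v).1 * (un e).1) / ((un u).1 * (un e).1) := by
          field_simp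
        rw [this]
        positivity
      have c1 : un v = ((un v).1 / (un u).1) • un u := by
        refine Prod.ext ?_ ?_
        · simp [u1]
        · rw [div_eq_div_iff u1 v1] at hab
          simp only [Prod.smul_snd, smul_eq_mul]
          field_simp
          linarith
      apply S.dir_congr
      rw [← un_of_norm (norm_un hv), c1, un_smul c0, un_of_norm (norm_un hu)])
  exact g4 i j hij t ht e1

theorem br_PL {W : P} {κ : Bool} {ρ : Boundary σ o} (h : ρ ∈ S.PL o W κ) : Br ρ := by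
  obtain ⟨e, he, h, rfl⟩ := h
  have ht : ∀ s : ℝ, tau d κ (e + s • eK d (!κ)) = s := fun s => by
    rw [tau_add, tau_smul, h, tau_eK_not]; ring
  have hn : ∀ s : ℝ, e + s • eK d (!κ) ≠ 0 := fun s c => by
    have := ht s
    rw [c, ← zero_smul ℝ (0 : ℝ × ℝ), tau_smul, zero_mul] at this
    rw [← this] at c
    exact he (by simpa using c)
  have A : ∀ s t : ℝ, S.dir o W _ (hn s) = S.dir o W _ (hn t) → (0 < s ↔ 0 < t) ∧ (s = 0 ↔ t = 0) := by
    intro s t c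
    have := S.dir_inj c
    constructor
    · rw [← ht s, ← ht t, ← tau_un_pos (hn s), ← tau_un_pos (hn t), this]
    · rw [← ht s, ← ht t, ← tau_un (hn s), ← tau_un (hn t), this]
  have B : ∀ s t : ℝ, S.dir o W _ (hn s) = S.dir o (step (κ, 0) W) _ (hn t) → s = 0 ∧ t = 0 := by
    intro s t c
    have h1 := S.inter_PL (o := o) (S.dir_side W (κ, 0) _ (hn s))
      (by rw [c]; exact S.dir_side _ _ _ _)
    refine ⟨(ht s).symm.trans (S.dir_mem_PL.1 h1), (ht t).symm.trans ?_⟩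
    rw [← S.PL_step, c] at h1
    exact S.dir_mem_PL.1 h1
  refine ⟨![fun s => S.dir o W _ (hn s), fun s => S.dir o W _ (hn (-s)),
    fun s => S.dir o (step (κ, 0) W) _ (hn s)], ?_, ?_, ?_⟩
  · intro i
    fin_cases i
    · exact S.dir_cont W (by fun_prop) hn
    · exact S.dir_cont W (by fun_prop) fun s => hn (-s)
    · exact S.dir_cont _ (by fun_prop) hn
  · intro i
    fin_cases i
    · exact S.dir_congr _ _ (by simp)
    · exact S.dir_congr _ _ (by simp)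
    · exact (S.dir_step (l := (κ, 0)) _ (ht 0)).trans (S.dir_congr _ _ (by simp))
  · intro i j hij s hs t ht' c
    fin_cases i <;> fin_cases j
    · exact hij rfl
    · have := (A s (-t) c).1.1 hs.1
      linarith [ht'.1]
    · exact hs.1.ne' (B s t c).1
    · obtain ⟨a1, a2⟩ := A (-s) t c
      rcases eq_or_lt_of_le ht'.1 with b | b
      · have := a2.2 b.symm
        linarith [hs.1]
      · have := a1.2 b
        linarith [hs.1]
    · exact hij rfl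
    · have := (B (-s) t c).1
      linarith [hs.1]
    · exact hs.1.ne' (B t s c.symm).2
    · exact hs.1.ne' (B (-t) s c.symm).2
    · exact hij rfl

variable {ρ : Boundary σ o} {W : ℕ → P} {l : ℕ → L}

theorem itin_ne (h : Itin ι ρ W l) (k : ℕ) : l k ≠ l (k + 1) := fun e => by
  rcases (S.cut (W k) (l k)).bd_cover S.bic ρ with c | c
  · exact h.out k c
  · apply h.out (k + 1)
    rw [h.next, ← e]
    exact c

theorem itin_beh (h : Itin ι ρ W l) (k : ℕ) : ¬ beh (W k) (l k) (W 0) ∧ dep (W 0) (W k) = k := by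
  induction k with
  | zero => exact ⟨not_beh_self _ _, dep_self _⟩
  | succ k ih =>
    rw [h.next]
    exact ⟨fun c => S.itin_ne h k (beh_unique (beh_step.2 ih.1) c), by rw [dep_step ih.1, ih.2]⟩

theorem itin_base (h : Itin ι ρ W l) (k : ℕ) (p : ℝ × ℝ) : ι (W 0, p) ∈ side ι (W k) (l k) :=
  ⟨(W 0, p), (S.itin_beh h k).1, rfl⟩

theorem itin_far (h : Itin ι ρ W l) (p : ℝ × ℝ) (n : ℕ) :
    ∃ k, ∀ a, (n : ℝ) ≤ dist (ι (W 0, p)) (lq d ι (W k) (l k) a) := by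
  refine ⟨2 * (⌈2 * (n : ℝ)⌉₊ + 1) + 1, fun a => ?_⟩
  by_contra hc
  unfold lq at hc
  rw [S.dist_eq] at hc
  have := dep_le_of_D (not_le.1 hc).le
  rw [(S.itin_beh h _).2] at this
  omega

theorem itin_three (h : Itin ι ρ W l) {c : Boundary σ o} {γ : Fin 3 → ℝ → Boundary σ o}
    (h1 : ∀ i, Continuous (γ i)) (h2 : ∀ i, γ i 0 = c)
    (h3 : ∀ k i, ∀ s ∈ Icc (0 : ℝ) 1, γ i s ∉ bd σ o (side ι (W k) (l k))) :
    ∃ i j, i ≠ j ∧ ∃ s ∈ Icc (0 : ℝ) 1, γ i 1 = γ j s := by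
  refine three_far S.bic (o' := ι (W 0, 0)) h1 h2 fun n => ?_
  obtain ⟨k, hk⟩ := S.itin_far h 0 n
  exact ⟨_, _, _, S.cut (W k) (l k), S.iso_lq _ _, S.sigma_lq _ _, S.itin_base h k 0, hk, h3 k⟩

theorem itin_PL (h : Itin ι ρ W l) {κ : Bool} (hκ : ∀ k, (l k).1 = κ) (k : ℕ) :
    S.PL o (W k) κ = S.PL o (W 0) κ := by
  induction k with
  | zero => rfl
  | succ k ih => rw [h.next, ← ih, ← hκ k, S.PL_step]

theorem not_br_itin (h : Itin ι ρ W l) {κ : Bool} (hκ : ∀ k, (l k).1 = κ) : ¬ Br ρ := by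
  intro hb
  obtain ⟨γ, g1, g2, g3, g4⟩ := hb.local (S.closed_PL (o := o) (W 0) κ).isOpen_compl
    fun c => h.out 0 (S.PL_side (by rwa [hκ]))
  obtain ⟨i, j, hij, s, hs, e⟩ := S.itin_three h g1 g2 fun k i s hs =>
    S.stay (A := γ i '' Icc 0 1) (isPreconnected_Icc.image _ (g1 i).continuousOn) (by
      rintro _ ⟨s, hs, rfl⟩
      rw [hκ, S.itin_PL h hκ]
      exact g3 i s hs) ⟨0, left_mem_Icc.2 zero_le_one, g2 i⟩ (h.out k) _ ⟨s, hs, rfl⟩
  exact g4 i j hij s hs e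

theorem good_pole {N : Boundary σ o} (hN : Good N) : ∃ W κ, N ∈ S.PL o W κ := by
  by_cases hpl : ∃ W, N ∈ bd σ o (plane ι W)
  · obtain ⟨W, hW⟩ := hpl
    obtain ⟨e, he, rfl⟩ := S.exists_dir hW
    by_contra hc
    exact S.not_br_dir (fun κ c => hc ⟨W, κ, S.dir_mem_PL.2 c⟩) hN.1
  exfalso
  obtain ⟨W, l, -, hI, -⟩ := exists_itin (ι := ι) (ρ := N) (B := univ) (Q := fun _ => True)
    (mem_univ 1) fun W _ => by
      by_contra hc
      push Not at hc
      exact hpl ⟨W, S.plane_of_sides fun l => hc l trivial trivial⟩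
  by_cases hA : ∃ n, ∀ k, (l (n + k)).1 = (l n).1
  · obtain ⟨n, hn⟩ := hA
    exact S.not_br_itin (hI.shift n) hn hN.1
  push Not at hA
  obtain ⟨hb, n, hn, hn'⟩ := hN
  choose γ g1 g2 using fun i => (hn' i).2.2
  have hin : ∀ k i, ∀ s ∈ Ico (0 : ℝ) 1, γ i s ∉ bd σ o (side ι (W k) (l k)) := by
    intro k i s hs
    refine S.stay (A := γ i '' Ico 0 1) (isPreconnected_Ico.image _ (g1 i).1.continuousOn) ?_
      ⟨0, left_mem_Ico.2 zero_lt_one, (g1 i).2.1⟩ (hI.out k) _ ⟨s, hs, rfl⟩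
    rintro _ ⟨s, hs, rfl⟩ c
    rcases eq_or_lt_of_le hs.1 with b | b
    · rw [← b, (g1 i).2.1] at c
      exact hI.out k (S.PL_side c)
    · exact (g1 i).2.2 s ⟨b, hs.2⟩ (S.br_PL c)
  have hfar : ∀ k i, γ i 1 ∈ bd σ o (side ι (step (l k) (W k)) (l k)) := by
    intro k i
    have h1 : γ i 1 ∈ closure (γ i '' Ico 0 1) := image_closure_subset_closure_image (g1 i).1
      ⟨1, by rw [closure_Ico zero_ne_one]; exact right_mem_Icc.2 zero_le_one, rfl⟩
    refine ((S.cut _ _).symm.bd_closed S.bic).closure_subset_iff.2 ?_ h1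
    rintro _ ⟨s, hs, rfl⟩
    exact ((S.cut _ _).bd_cover S.bic _).resolve_left (hin k i s hs)
  obtain ⟨i, j, hij, s, hs, e⟩ := S.itin_three hI (fun i => (g1 i).1) (fun i => (g1 i).2.1) (by
    intro k i s hs c
    rcases eq_or_lt_of_le hs.2 with b | b
    · subst b
      have h1 : ∀ m, γ i 1 ∈ bd σ o (side ι (W (k + m)) (l (k + m))) := by
        intro m
        induction m with
        | zero => exact c
        | succ m ih =>
          rw [← add_assoc, hI.next]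
          exact bd_mono (side_mono (S.itin_ne hI _)) ih
      have h2 : ∀ m, (l (k + m)).1 = (l k).1 := by
        intro m
        induction m with
        | zero => rfl
        | succ m ih =>
          rw [← ih]
          by_contra hc
          have a1 := S.inter_PL (h1 m) (hfar _ i)
          have a2 := S.inter_PL (h1 (m + 1)) (hfar _ i)
          rw [← S.PL_step, ← hI.next] at a1
          exact S.PL_disj hc a2 a1
      obtain ⟨m, hm⟩ := hA k
      exact hm (h2 m)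
    · exact hin k i s ⟨hs.1, b⟩ c)
  rw [g2] at e
  rcases eq_or_lt_of_le hs.1 with b | b
  · rw [← b, (g1 j).2.1] at e
    exact (hn' i).1 e
  rcases eq_or_lt_of_le hs.2 with b' | b'
  · rw [b', g2] at e
    exact hij (hn e)
  · exact (g1 j).2.2 s ⟨b, b'⟩ (e ▸ (hn' i).2.1)

theorem path_kind {N : Boundary σ o} {W : P} {κ : Bool} (hN : N ∈ S.PL o W κ)
    {γ : ℝ → Boundary σ o} (hγ : Free N γ) {b : ℝ} (hb : b ∈ Ioc (0 : ℝ) 1) {l : L}
    (h : γ b ∉ bd σ o (side ι W l)) : l.1 = κ := by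
  by_contra hc
  have h1 := S.stay (A := γ '' Ioc 0 b) (isPreconnected_Ioc.image _ hγ.1.continuousOn) (by
    rintro _ ⟨s, hs, rfl⟩ c
    rcases eq_or_lt_of_le hs.2 with e | e
    · rw [e] at c
      exact h (S.PL_side c)
    · exact hγ.2.2 s ⟨hs.1, e.trans_le hb.2⟩ (S.br_PL c)) ⟨b, right_mem_Ioc.2 hb.1, rfl⟩ h
  have h2 : γ 0 ∈ closure (γ '' Ioc 0 b) := image_closure_subset_closure_image hγ.1
    ⟨0, by rw [closure_Ioc hb.1.ne]; exact left_mem_Icc.2 hb.1.le, rfl⟩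
  have h3 : γ 0 ∈ bd σ o (side ι (step l W) l) :=
    ((S.cut _ _).symm.bd_closed S.bic).closure_subset_iff.2
      (fun z hz => ((S.cut _ _).bd_cover S.bic _).resolve_left (h1 z hz)) h2
  rw [hγ.2.1] at h3
  obtain ⟨e, he, h4, rfl⟩ := hN
  exact S.PL_disj hc (S.inter_PL (S.dir_side W l e he) h3) (S.dir_mem_PL.2 h4)

end Setup

end Pool.Agent.Work.MP_f8dec8_al
end

-- merged part: Pool.Agent.Work.MP_f8dec8_al.Final
section
/-! The invariant fails for the right angled space and holds for the other one. -/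

namespace Pool.Agent.Work.MP_f8dec8_al

open Set Filter Topology NNReal Boundary

variable {d : Bool} {Y : Type} [MetricSpace Y] {ι : X → Y} {σ : Y → Y → ℝ → Y}

def ip (κ : Bool) : Fin 4 := if κ then 2 else 0

def im (κ : Bool) : Fin 4 := if κ then 3 else 1

theorem lin_im (κ : Bool) (p : ℝ × ℝ) : lin (im κ) p = -lin (ip κ) p := by
  cases κ <;> simp [lin, im, ip]

theorem lin_ip (κ : Bool) (p : ℝ × ℝ) : lin (ip κ) p = tau false (!κ) p := by
  cases κ <;> simp [lin, ip, tau, lam]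

theorem upd_fix {κ : Bool} (h : κ = true ∨ d = false) (j : ℝ) (k : K4) {i : Fin 4}
    (hi : i = ip κ ∨ i = im κ) : upd d κ j k i = k i := by
  cases κ
  · have : d = false := by simpa using h
    subst this
    rcases hi with rfl | rfl <;> rfl
  · rcases hi with rfl | rfl <;> rfl

theorem KK_fix {l : L} (h : l.1 = true ∨ d = false) (z : X) (W : P) {i : Fin 4}
    (hi : i = ip l.1 ∨ i = im l.1) : KK d z (step l W) i = KK d z W i := by
  by_cases hb : beh W l z.1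
  · rw [KK_step' hb, upd_fix h _ _ hi]
  · rw [KK_step hb, upd_fix h _ _ hi]

inductive InB (κ : Bool) (W0 : P) : P → Prop
  | base : InB κ W0 W0
  | next {W : P} {l : L} : InB κ W0 W → l.1 = κ → InB κ W0 (step l W)

namespace Setup

section
variable (S : Setup false ι σ) [ProperSpace Y] {o : Y} {κ : Bool} {W0 : P}
include S

omit [ProperSpace Y] in
theorem KY_block {W : P} (h : InB κ W0 W) (y : Y) {i : Fin 4} (hi : i = ip κ ∨ i = im κ) :
    S.KY y W i = S.KY y W0 i := by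
  induction h with
  | base => rfl
  | next _ hl ih =>
    subst hl
    rw [← ih]
    exact KK_fix (Or.inr rfl) _ _ hi

theorem PL_block {W : P} (h : InB κ W0 W) : S.PL o W κ = S.PL o W0 κ := by
  induction h with
  | base => rfl
  | next _ hl ih => rw [← ih, ← hl, S.PL_step]

def EqS (o : Y) (W0 : P) (κ : Bool) : Set (Boundary σ o) :=
  {ρ | ∀ t, S.KY ((R S.bic (ι (W0, 0)) ρ).1 t) W0 (ip κ) ≤ 0 ∧
    S.KY ((R S.bic (ι (W0, 0)) ρ).1 t) W0 (im κ) ≤ 0}

theorem closed_EqS : IsClosed (S.EqS o W0 κ) := by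
  unfold EqS
  rw [ofPred_forall]
  exact isClosed_iInter fun t => IsClosed.inter
    (isClosed_le ((S.KY_cont _ _).comp ((continuous_eval t).comp (R_cont S.bic))) continuous_const)
    (isClosed_le ((S.KY_cont _ _).comp ((continuous_eval t).comp (R_cont S.bic))) continuous_const)

theorem dir_mem_EqS {W : P} (h : InB κ W0 W) {e : ℝ × ℝ} {he : e ≠ 0} :
    S.dir o W e he ∈ S.EqS o W0 κ ↔ tau false (!κ) e = 0 := by
  rw [← tau_un he, ← lin_ip]
  constructor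
  · intro hE
    have key : ∀ i, i = ip κ ∨ i = im κ →
        (∀ t, S.KY ((R S.bic (ι (W0, 0)) (S.dir o W e he)).1 t) W0 i ≤ 0) → 0 ≤ lin i (un e) := by
      intro i hi hk
      have := le_of_frac (a := -lin i (un e)) (b := 0) (t := 1)
        (c := dist (ι (W, 0)) (ι (W0, 0)) + dist (0 : ℝ × ℝ) 0) fun T _ hT => by
          have h1 := S.dir_bdd (o := ι (W0, 0)) W 0 e he T
          have h2 := hk T
          rw [S.R_dir', ← S.KY_block h _ hi] at h2
          have h3 := S.KY_lip (ι (W, 0 + (T : ℝ) • un e)) ((S.dir (ι (W0, 0)) W e he).1 T) W i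
          rw [S.KY_io, KK_plane, dist_comm] at h3
          rw [zero_add] at h1 h3
          rw [lin_smul] at h3
          have hT' : (0 : ℝ) < T := hT
          rw [zero_add, NNReal.coe_one, one_div, ← div_eq_inv_mul, le_div_iff₀ hT']
          linarith
      linarith
    have a1 := key _ (Or.inl rfl) fun t => (hE t).1
    have a2 := key _ (Or.inr rfl) fun t => (hE t).2
    rw [lin_im] at a2
    linarith
  · intro h0 t
    have key : ∀ i, i = ip κ ∨ i = im κ → lin i (un e) = 0 →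
        S.KY ((R S.bic (ι (W0, 0)) (S.dir o W e he)).1 t) W0 i ≤ 0 := by
      intro i hi hl
      have := S.bus (o := o) (ι (W0, 0)) W e he i t
      have h00 : lin i 0 = 0 := by simpa using lin_smul i 0 0
      rw [S.KY_block h _ hi, S.KY_block h _ hi, S.KY_io, KK_plane, hl, h00] at this
      simpa using this
    exact ⟨key _ (Or.inl rfl) h0, key _ (Or.inr rfl) (by rw [lin_im, h0, neg_zero])⟩

theorem block_itin {N : Boundary σ o} (hN : N ∈ S.PL o W0 κ) {γ : ℝ → Boundary σ o}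
    (hγ : Free N γ) {b : ℝ} (hb : b ∈ Ioc (0 : ℝ) 1)
    (h : ∀ W, InB κ W0 W → γ b ∉ bd σ o (plane ι W)) :
    ∃ W l, W 0 = W0 ∧ Itin ι (γ b) W l ∧ ∀ k, InB κ W0 (W k) ∧ (l k).1 = κ :=
  exists_itin (B := {W | InB κ W0 W}) (Q := fun l => l.1 = κ) InB.base fun W hW => by
    obtain ⟨l, hl⟩ := not_forall.1 fun c => h W hW (S.plane_of_sides c)
    have := S.path_kind (by rwa [S.PL_block hW]) hγ hb hl
    exact ⟨l, this, InB.next hW this, hl⟩

theorem Aset_sub {N : Boundary σ o} (hN : N ∈ S.PL o W0 κ) :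
    Aset N ⊆ S.PL o W0 κ ∪ S.EqS o W0 κ := by
  rintro _ ⟨hb, γ, hγ, rfl⟩
  by_cases h : ∃ W, InB κ W0 W ∧ γ 1 ∈ bd σ o (plane ι W)
  · obtain ⟨W, hW, h⟩ := h
    obtain ⟨e, he, h1⟩ := S.exists_dir h
    rw [h1] at hb ⊢
    obtain ⟨κ', h2⟩ := not_forall.1 fun c => S.not_br_dir c hb
    rw [not_not] at h2
    by_cases c : κ' = κ
    · left
      rw [← S.PL_block hW, S.dir_mem_PL, ← c]
      exact h2
    · right
      have : κ' = !κ := by revert c; cases κ <;> cases κ' <;> simp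
      rw [S.dir_mem_EqS hW, ← this]
      exact h2
  · push Not at h
    obtain ⟨W, l, -, hI, hk⟩ := S.block_itin hN hγ (right_mem_Ioc.2 zero_lt_one) h
    exact absurd hb (S.not_br_itin hI fun k => (hk k).2)

theorem PL_finite : (S.PL o W0 κ).Finite := by
  have h1 : ∀ a : ℝ, a ≠ 0 → a • eK false κ ≠ 0 := fun a ha =>
    smul_ne_zero ha (norm_ne_zero_iff.1 (by rw [norm_eK]; exact one_ne_zero))
  refine (toFinite {S.dir o W0 _ (h1 1 one_ne_zero),
    S.dir o W0 _ (h1 (-1) (by norm_num))}).subset ?_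
  rintro _ ⟨e, he, h, rfl⟩
  obtain ⟨t, rfl⟩ := eq_smul_of_tau h
  rcases lt_trichotomy t 0 with c | c | c
  · right
    apply S.dir_congr
    rw [← un_smul (neg_pos.2 c) ((-1 : ℝ) • eK false κ), smul_smul]
    simp
  · exact absurd (by simp [c]) he
  · left
    apply S.dir_congr
    rw [← un_smul c ((1 : ℝ) • eK false κ), smul_smul]
    simp

theorem acc_EqS {N x : Boundary σ o} (hN : N ∈ S.PL o W0 κ) (hx : AccPt x (𝓟 (Aset N))) :
    x ∈ S.EqS o W0 κ := by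
  have := hx.mono (principal_mono.2 (S.Aset_sub hN))
  rw [← sup_principal, accPt_sup] at this
  rcases this with h | h
  · exact absurd S.PL_finite (Set.Infinite.of_accPt h)
  · exact S.closed_EqS.closure_subset (mem_closure_iff_clusterPt.2 h.clusterPt)

theorem eq_unique {ρ ρ' : Boundary σ o} {W : ℕ → P} {l : ℕ → L} (h0 : W 0 = W0)
    (hI : Itin ι ρ W l) (hk : ∀ k, InB κ W0 (W k) ∧ (l k).1 = κ) (h1 : ρ ∈ S.EqS o W0 κ)
    (h2 : ρ' ∈ S.EqS o W0 κ) (h3 : ∀ k, ρ' ∉ bd σ o (side ι (W k) (l k))) : ρ = ρ' := by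
  refine R_inj S.bic (o' := ι (W0, 0)) (Boundary.ext' fun t => ?_)
  obtain ⟨k, hfar⟩ := S.itin_far hI 0 ⌈t⌉₊
  have hb := S.itin_base hI k 0
  rw [h0] at hfar hb
  have key : ∀ r : Boundary σ o, r ∈ S.EqS o W0 κ → r ∉ bd σ o (side ι (W k) (l k)) →
      ∃ T, (R S.bic (ι (W0, 0)) r).1 T = lq false ι (W k) (l k) (-lin (ip κ) (bp (W k) (l k))) := by
    intro r r1 r2
    rw [mem_bd_iff S.bic (S.closed_side _ _) ((S.cut _ _).cvx S.bic) hb, not_forall] at r2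
    obtain ⟨T, hT⟩ := r2
    obtain ⟨T', a, ha⟩ := (S.cut _ _).cross hb _ hT
    refine ⟨T', ?_⟩
    obtain ⟨a1, a2⟩ := r1 T'
    rw [← ha, ← S.KY_block (hk k).1 _ (Or.inl rfl)] at a1
    rw [← ha, ← S.KY_block (hk k).1 _ (Or.inr rfl)] at a2
    unfold lq at a1 a2
    rw [S.KY_io, KK_plane] at a1 a2
    rw [lin_im] at a2
    have a3 : lin (ip κ) (eK false (l k).1) = 1 := by
      rw [(hk k).2]
      cases κ <;> simp [lin, ip, eK]
    rw [lin_add, lin_smul, a3] at a1 a2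
    rw [← ha]
    congr 1
    linarith
  obtain ⟨T, hT⟩ := key ρ h1 (hI.out k)
  obtain ⟨T', hT'⟩ := key ρ' h2 (h3 k)
  have e1 := (R S.bic (ι (W0, 0)) ρ).dist_base T
  have e2 := (R S.bic (ι (W0, 0)) ρ').dist_base T'
  rw [hT] at e1
  rw [hT', e1] at e2
  obtain rfl := NNReal.coe_injective e2
  refine Boundary.agree (T := T) ?_ (hT.trans hT'.symm)
  have := hfar (-lin (ip κ) (bp (W k) (l k)))
  rw [e1] at this
  have h4 : (t : ℝ) ≤ T := le_trans (by exact_mod_cast Nat.le_ceil t) this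
  exact_mod_cast h4

theorem not_inv {N : Boundary σ o} (hN : Good N) : ¬ Inv2 N := by
  obtain ⟨W0, κ, hP⟩ := S.good_pole hN
  rintro ⟨γ, hγ, s, hs, t, ht, hne, a1, a2⟩
  have hdis : ∀ x ∈ S.EqS o W0 κ, x ∉ S.PL o W0 κ := by
    rintro _ h1 ⟨e, he, h2, rfl⟩
    exact he (eq_zero_of_tau h2 ((S.dir_mem_EqS InB.base).1 h1))
  have key : ∀ s ∈ Icc (0 : ℝ) 1, ∀ t ∈ Icc (0 : ℝ) 1, s < t → γ s ∈ S.EqS o W0 κ →
      γ t ∈ S.EqS o W0 κ → γ s = γ t := by
    intro s hs t ht hst e1 e2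
    have s0 : 0 < s := lt_of_le_of_ne hs.1 (by
      rintro rfl
      exact hdis _ e1 (by rwa [hγ.2.1]))
    have nb := hγ.2.2 s ⟨s0, hst.trans_le ht.2⟩
    obtain ⟨W, l, h0, hI, hk⟩ := S.block_itin hP hγ ⟨s0, hs.2⟩ fun W hW c => by
      obtain ⟨e, he, h1⟩ := S.exists_dir c
      rw [h1] at e1 nb
      exact nb (S.br_PL (S.dir_mem_PL.2 ((S.dir_mem_EqS hW).1 e1)))
    refine S.eq_unique h0 hI hk e1 e2 fun k => ?_
    refine S.stay (A := γ '' Icc s t) (isPreconnected_Icc.image _ hγ.1.continuousOn) ?_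
      ⟨s, left_mem_Icc.2 hst.le, rfl⟩ (hI.out k) _ ⟨t, right_mem_Icc.2 hst.le, rfl⟩
    rintro _ ⟨r, hr, rfl⟩ c
    rcases eq_or_lt_of_le hr.2 with b | b
    · rw [b, (hk k).2, S.PL_block (hk k).1] at c
      exact hdis _ e2 c
    · exact hγ.2.2 r ⟨s0.trans_le hr.1, b.trans_le ht.2⟩ (S.br_PL c)
  rcases lt_trichotomy s t with c | c | c
  · exact hne (key s hs t ht c (S.acc_EqS hP a1) (S.acc_EqS hP a2))
  · exact hne (c ▸ rfl)
  · exact hne (key t ht s hs c (S.acc_EqS hP a2) (S.acc_EqS hP a1)).symm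

end

section
variable (S : Setup true ι σ) [ProperSpace Y] {o : Y}
include S

omit S in
theorem ne01 : ((0, 1) : ℝ × ℝ) ≠ 0 := by simp

omit S in
theorem ne11 {ε : ℝ} (h : ε = 1 ∨ ε = -1) : ((ε, ε) : ℝ × ℝ) ≠ 0 := by
  rcases h with rfl | rfl <;> simp

omit S in
theorem neP (s : ℝ) : ((-s, 1 - 2 * s) : ℝ × ℝ) ≠ 0 := by
  intro h
  have h1 : -s = 0 := congrArg Prod.fst h
  have h2 : 1 - 2 * s = 0 := congrArg Prod.snd h
  linarith

theorem free_path (W : P) : Free (S.dir o W _ ne01) fun s => S.dir o W _ (neP s) := by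
  refine ⟨S.dir_cont W (by fun_prop) neP, S.dir_congr _ _ (by simp), fun s hs => S.not_br_dir ?_⟩
  rintro (_ | _)
  · simp only [tau, lam]
    simp
    linarith [hs.2]
  · simpa [tau] using hs.1.ne'

theorem adj_mem (W : P) (i : ℤ) {ε : ℝ} (h : ε = 1 ∨ ε = -1) :
    S.dir o (step (true, i) W) _ (ne11 h) ∈ Aset (S.dir o W _ ne01) := by
  refine ⟨S.br_PL (κ := false) (S.dir_mem_PL.2 (by simp [tau, lam])), ?_⟩
  rw [← S.dir_step (l := (true, i)) _ (by simp [tau])]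
  rcases h with rfl | rfl
  · have hn : ∀ s : ℝ, ((s, 1) : ℝ × ℝ) ≠ 0 := fun s => by simp
    refine ⟨fun s => S.dir o _ _ (hn s), ⟨S.dir_cont _ (by fun_prop) hn, rfl,
      fun s hs => S.not_br_dir ?_⟩, rfl⟩
    rintro (_ | _)
    · simp only [tau, lam]
      simp
      linarith [hs.2]
    · simpa [tau] using hs.1.ne'
  · exact ⟨_, S.free_path _, S.dir_congr _ _ (by norm_num)⟩

theorem adj_ne (W : P) (i : ℤ) {ε : ℝ} (h : ε = 1 ∨ ε = -1) {x : Boundary σ o}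
    (hx : x ∈ bd σ o (side ι W (true, i))) : S.dir o (step (true, i) W) _ (ne11 h) ≠ x := by
  intro c
  have h1 := S.inter_PL hx (by rw [← c]; exact S.dir_side _ _ _ _)
  rw [← S.PL_step, ← c, S.dir_mem_PL] at h1
  rcases h with rfl | rfl <;> simp [tau] at h1

theorem adj_ray {ε : ℝ} (h : ε = 1 ∨ ε = -1) (t : ℝ≥0) (n : ℕ) (hn : (t : ℝ) < n) :
    (R S.bic (ι (1, 0)) (S.dir o (step (true, -(n : ℤ)) 1) _ (ne11 h))).1 t =
      ι (1, (-(t : ℝ), ε * t)) := by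
  have hb := fun i => S.bus (o := o) (ι (1, 0)) (step (true, -(n : ℤ)) 1) _ (ne11 h) i t
  have hd := (R S.bic (ι (1, 0)) (S.dir o (step (true, -(n : ℤ)) 1) _ (ne11 h))).dist_base t
  obtain ⟨z, hz⟩ := S.surj ((R S.bic (ι (1, 0)) (S.dir o (step (true, -(n : ℤ)) 1) _ (ne11 h))).1 t)
  rw [← hz] at hd ⊢
  simp only [← hz, S.KY_io] at hb
  have hu : un (ε, ε) = (ε, ε) := un_of_norm (by rcases h with rfl | rfl <;> simp [Prod.norm_def])
  have hp : (pos 1 (true, -(n : ℤ)) : ℝ) = -(2 * n) := by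
    have : par true 1 = 0 := rfl
    simp [pos, this]
  have hn0 : (0 : ℝ) ≤ n := Nat.cast_nonneg n
  have ht0 : (0 : ℝ) ≤ t := t.2
  rw [S.dist_eq] at hd
  have hnb : ¬ beh 1 (true, -(n : ℤ)) z.1 := by
    intro c
    obtain ⟨q, h1, h2⟩ := D_sep (d := true) (x := (1, 0)) (not_beh_self _ _) c
    rw [hp] at h1
    have h3 : q.1 = -(2 * n) := h1
    have h4 := (le_dist2 (0 : ℝ × ℝ) q).1
    rw [D_plane] at h2
    have h5 := D_nonneg (d := true) (1, q) z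
    simp only [Prod.fst_zero] at h4
    linarith
  rw [hu, KK_step hnb, KK_step (x := (1, 0)) (not_beh_self _ _), hp] at hb
  rw [D_comm] at hd
  obtain ⟨a0, a1, a2, a3⟩ := le_ev (KK true z 1) 0
  have hd' : ev (KK true z 1) 0 = t := hd
  rw [hd'] at a0 a1 a2 a3
  simp only [Prod.fst_zero, Prod.snd_zero, add_zero, sub_zero] at a0 a1 a2 a3
  obtain ⟨e0, e1, e2, e3⟩ := upd_v true (-(2 * n)) (KK true z 1)
  obtain ⟨f0, f1, f2, f3⟩ := upd_v true (-(2 * n)) (KK true (1, 0) 1)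
  obtain ⟨g0, g1, g2, g3⟩ := KK_self' (d := true) ((1 : P), (0 : ℝ × ℝ))
  simp only [Prod.fst_zero, Prod.snd_zero, neg_zero] at g0 g1 g2 g3
  have b0 := hb 0
  have b1 := hb 1
  have b2 := hb 2
  have b3 := hb 3
  simp only [e0, e1, e2, e3, f0, f1, f2, f3, g0, g1, g2, g3] at b0 b1 b2 b3
  have c1 : dl 0 0 0 0 (-(2 * (n : ℝ))) ≤ 2 * n := dl_le_iff.2 ⟨by linarith, by linarith, by linarith⟩
  have c2 := (le_dl (KK true z 1 0) (KK true z 1 1) (KK true z 1 2) (KK true z 1 3)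
    (-(2 * (n : ℝ)))).2.1
  refine dist_le_zero.1 ?_
  rw [S.dist_eq]
  show ev (KK true z 1) _ ≤ 0
  rw [ev_le_iff]
  rcases h with rfl | rfl <;> simp [lin] at b0 b1 b2 b3 ⊢ <;> refine ⟨?_, ?_, ?_, ?_⟩ <;> linarith

theorem adj_acc {ε : ℝ} (h : ε = 1 ∨ ε = -1) {e : ℝ × ℝ} (he : e ≠ 0) (hu : un e = (-1, ε)) :
    AccPt (S.dir o 1 e he) (𝓟 (Aset (S.dir o 1 _ ne01))) := by
  have h1 : Tendsto (fun n : ℕ => R S.bic (ι (1, 0))
      (S.dir o (step (true, -(n : ℤ)) 1) _ (ne11 h))) atTop (𝓝 (S.aff 1 0 e he)) := by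
    refine (tendsto_iff S.bic).2 fun t => tendsto_const_nhds.congr' ?_
    filter_upwards [eventually_gt_atTop ⌈(t : ℝ)⌉₊] with n hn
    rw [S.adj_ray h t n (Nat.lt_of_ceil_lt hn), aff_apply, hu]
    simp [mul_comm]
  have h2 := ((R_cont S.bic (o' := o)).tendsto _).comp h1
  simp only [Function.comp_def, R_R] at h2
  rw [accPt_iff_nhds]
  intro U hU
  obtain ⟨n, hn⟩ := (h2.eventually_mem hU).exists
  exact ⟨_, ⟨hn, S.adj_mem _ _ h⟩, S.adj_ne _ _ h (S.dir_side _ _ _ _)⟩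

theorem good_inv : ∃ N : Boundary σ o, Good N ∧ Inv2 N := by
  refine ⟨S.dir o 1 _ ne01, ⟨S.br_PL (κ := true) (S.dir_mem_PL.2 rfl),
    fun i => S.dir o (step (true, (i : ℕ)) 1) _ (ne11 (Or.inl rfl)), fun i j hij => ?_,
    fun i => ⟨S.adj_ne _ _ (Or.inl rfl) (S.dir_side _ _ _ _), S.adj_mem _ _ (Or.inl rfl)⟩⟩, _, S.free_path 1,
    1 / 3, ⟨by norm_num, by norm_num⟩, 1, ⟨by norm_num, by norm_num⟩, fun c => ?_,
    S.adj_acc (Or.inl rfl) _ ?_, S.adj_acc (Or.inr rfl) _ ?_⟩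
  · by_contra hc
    refine S.adj_ne _ _ (Or.inl rfl) (bd_mono ?_ (S.dir_mem _ _ _)) hij
    rintro _ ⟨p, rfl⟩
    refine ⟨(_, p), fun c => hc ?_, rfl⟩
    have h1 : beh (step (true, ((j : ℕ) : ℤ)) (step (true, ((j : ℕ) : ℤ)) 1)) (true, ((j : ℕ) : ℤ))
        (step (true, ((j : ℕ) : ℤ)) 1) := beh_step.2 (not_beh_self _ _)
    rw [step_step] at h1
    have h2 : ((i : ℕ) : ℤ) = ((j : ℕ) : ℤ) := congrArg Prod.snd (beh_unique c h1)
    exact Fin.ext (by exact_mod_cast h2)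
  · have h1 := S.dir_inj c
    have e1 : ((-(1 / 3), 1 - 2 * (1 / 3)) : ℝ × ℝ) = (1 / 3 : ℝ) • ((-1, 1) : ℝ × ℝ) := by
      norm_num
    rw [e1, un_smul (by norm_num), un_of_norm (by simp [Prod.norm_def]),
      un_of_norm (by norm_num [Prod.norm_def])] at h1
    have := congrArg Prod.snd h1
    norm_num at this
  · have e1 : ((-(1 / 3), 1 - 2 * (1 / 3)) : ℝ × ℝ) = (1 / 3 : ℝ) • ((-1, 1) : ℝ × ℝ) := by
      norm_num
    rw [e1, un_smul (by norm_num), un_of_norm (by simp [Prod.norm_def])]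
  · rw [un_of_norm (by norm_num [Prod.norm_def])]
    norm_num

end

end Setup

end Pool.Agent.Work.MP_f8dec8_al
end
end
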